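import Pool.Agent.Y753.SH.Stm

set_option autoImplicit false

/-! Dirichlet polynomials with complex coefficients dominated by real ones. -/

namespace Pool.Agent.Y753.SH

open Finset Filter MeasureTheory MonoidAlgebra Topology
open Pool.Agent.Y755
open Pool.Agent.W184.NZ
open Pool.Agent.Y753.NL

/-- complex Dirichlet polynomials -/
abbrev PC := MonoidAlgebra ℂ ℕ

/-- evaluation -/
noncomputable def ec (s : ℂ) : PC →ₐ[ℂ] ℂ := MonoidAlgebra.lift ℂ ℂ ℕ (hs s)

lemma ec_single (s : ℂ) (n : ℕ) (c : ℂ) : ec s (single n c) = c * (n:ℂ) ^ (-s) := by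
  unfold ec; rw [MonoidAlgebra.lift_single, smul_eq_mul]; rfl

lemma PC_sum (f : PC) : f = ∑ n ∈ f.coeff.support, single n (f.coeff n) := (MonoidAlgebra.sum_coeff_single f).symm

lemma ec_eq {S : Finset ℕ} (s : ℂ) {f : PC} (h : f.coeff.support ⊆ S) : ec s f = ∑ n ∈ S, f.coeff n * (n:ℂ) ^ (-s) := by
  conv_lhs => rw [PC_sum f, map_sum]
  simp_rw [ec_single]
  refine sum_subset h fun n _ hn => ?_
  rw [Finsupp.notMem_support_iff.mp hn, zero_mul]

/-- the coefficient of a product -/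
lemma coeff_mul_c {f g : PC} {S S' : Finset ℕ} (hf : f.coeff.support ⊆ S) (hg : g.coeff.support ⊆ S') (n : ℕ) :
    (f * g).coeff n = ∑ a ∈ S, ∑ b ∈ S', if a * b = n then f.coeff a * g.coeff b else 0 := by
  classical
  have e1 : f = ∑ a ∈ S, single a (f.coeff a) := by
    conv_lhs => rw [PC_sum f]
    refine sum_subset hf fun n _ hn => ?_
    rw [Finsupp.notMem_support_iff.mp hn, single_zero]
  have e2 : g = ∑ b ∈ S', single b (g.coeff b) := by
    conv_lhs => rw [PC_sum g]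
    refine sum_subset hg fun n _ hn => ?_
    rw [Finsupp.notMem_support_iff.mp hn, single_zero]
  have e3 : f * g = ∑ a ∈ S, ∑ b ∈ S', single (a * b) (f.coeff a * g.coeff b) := by
    conv_lhs => rw [e1, e2]
    rw [sum_mul]
    refine sum_congr rfl fun a _ => ?_
    rw [mul_sum]
    refine sum_congr rfl fun b _ => ?_
    rw [single_mul_single]
  rw [e3, coeff_sum, Finsupp.finsetSum_apply]
  refine sum_congr rfl fun a _ => ?_
  rw [coeff_sum, Finsupp.finsetSum_apply]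
  refine sum_congr rfl fun b _ => ?_
  rw [coeff_single, Finsupp.single_apply]

/-- domination of the coefficients -/
def Do (g : P1) (A : PC) : Prop := ∀ n, ‖A.coeff n‖ ≤ g.coeff n

lemma Do.nn {g : P1} {A : PC} (h : Do g A) : Le g g := fun n => ⟨(norm_nonneg _).trans (h n), le_rfl⟩

lemma Do.supp {g : P1} {A : PC} (h : Do g A) : A.coeff.support ⊆ g.coeff.support := by
  intro n hn
  rw [Finsupp.mem_support_iff] at hn ⊢
  intro h0
  have := h n
  rw [h0] at this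
  exact hn (norm_le_zero_iff.mp this)

lemma Do.mono {g g' : P1} {A : PC} (h : Do g A) (hg : Le g g') : Do g' A := fun n => (h n).trans (hg n).2

lemma Do.mul {g g' : P1} {A A' : PC} (h : Do g A) (h' : Do g' A') : Do (g * g') (A * A') := by
  classical
  intro n
  rw [coeff_mul_c h.supp h'.supp n, coeff_mul_eq (subset_refl _) (subset_refl _) n]
  refine (norm_sum_le _ _).trans (sum_le_sum fun a _ => (norm_sum_le _ _).trans (sum_le_sum fun b _ => ?_))
  split_ifs
  · rw [norm_mul]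
    exact mul_le_mul (h a) (h' b) (norm_nonneg _) ((norm_nonneg _).trans (h a))
  · rw [norm_zero]

lemma Do.add {g g' : P1} {A A' : PC} (h : Do g A) (h' : Do g' A') : Do (g + g') (A + A') := by
  intro n
  rw [coeff_add, coeff_add, Finsupp.add_apply, Finsupp.add_apply]
  exact (norm_add_le _ _).trans (add_le_add (h n) (h' n))

lemma Do.neg {g : P1} {A : PC} (h : Do g A) : Do g (-A) := by
  intro n
  rw [coeff_neg, Finsupp.neg_apply, norm_neg]
  exact h n

lemma Do.sub {g g' : P1} {A A' : PC} (h : Do g A) (h' : Do g' A') : Do (g + g') (A - A') := by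
  rw [sub_eq_add_neg]; exact h.add h'.neg

lemma Do.smul {g : P1} {A : PC} (h : Do g A) {c : ℝ} (hc : 0 ≤ c) : Do (c • g) (c • A) := by
  intro n
  rw [coeff_smul, coeff_smul, Finsupp.smul_apply, Finsupp.smul_apply, smul_eq_mul, norm_smul, Real.norm_of_nonneg hc]
  exact mul_le_mul_of_nonneg_left (h n) hc

lemma Do.one : Do 1 1 := by
  intro n
  rw [MonoidAlgebra.one_def, MonoidAlgebra.one_def, coeff_single, coeff_single, Finsupp.single_apply, Finsupp.single_apply]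
  split_ifs <;> simp

lemma Do.zero : Do 0 0 := by
  intro n; simp

lemma Do.pow {g : P1} {A : PC} (h : Do g A) (m : ℕ) : Do (g ^ m) (A ^ m) := by
  induction m with
  | zero => rw [pow_zero, pow_zero]; exact Do.one
  | succ m ih => rw [pow_succ, pow_succ]; exact ih.mul h

lemma Do.sum {ι : Type*} {s : Finset ι} {g : ι → P1} {A : ι → PC} (h : ∀ i ∈ s, Do (g i) (A i)) :
    Do (∑ i ∈ s, g i) (∑ i ∈ s, A i) := by
  classical
  induction s using Finset.induction_on with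
  | empty => simp only [sum_empty]; exact Do.zero
  | insert a s ha ih =>
    rw [sum_insert ha, sum_insert ha]
    exact (h a (mem_insert_self _ _)).add (ih fun i hi => h i (mem_insert_of_mem hi))

lemma Do.prod {ι : Type*} {s : Finset ι} {g : ι → P1} {A : ι → PC} (h : ∀ i ∈ s, Do (g i) (A i)) :
    Do (∏ i ∈ s, g i) (∏ i ∈ s, A i) := by
  classical
  induction s using Finset.induction_on with
  | empty => simp only [prod_empty]; exact Do.one
  | insert a s ha ih =>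
    rw [prod_insert ha, prod_insert ha]
    exact (h a (mem_insert_self _ _)).mul (ih fun i hi => h i (mem_insert_of_mem hi))

lemma Do.NK {g : P1} {A : PC} (h : Do g A) (K : ℕ) {κ : ℝ} (hκ : 0 ≤ κ) :
    Do (Pool.Agent.W184.NZ.NK K κ g) (Pool.Agent.W184.NZ.NK K κ A) := by
  unfold Pool.Agent.W184.NZ.NK
  exact Do.sum fun j _ => (h.pow j).smul (by positivity)

lemma Do.single {n : ℕ} {c : ℝ} {d : ℂ} (h : ‖d‖ ≤ c) : Do (MonoidAlgebra.single n c) (MonoidAlgebra.single n d) := by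
  intro m
  rw [coeff_single, coeff_single, Finsupp.single_apply, Finsupp.single_apply]
  split_ifs
  · exact h
  · simp

/-! ### shifts -/

noncomputable def hsh (h : ℝ) : ℕ →* PC where
  toFun n := single n ((n:ℂ) ^ (-((h:ℂ) * Complex.I)))
  map_one' := by rw [Nat.cast_one, Complex.one_cpow]; rfl
  map_mul' m n := by
    rw [single_mul_single, Nat.cast_mul, Complex.natCast_mul_natCast_cpow]

/-- the shift -/
noncomputable def sh (h : ℝ) : P1 →ₐ[ℝ] PC := MonoidAlgebra.lift ℝ PC ℕ (hsh h)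

lemma sh_single (h : ℝ) (n : ℕ) (c : ℝ) : sh h (single n c) = single n ((c:ℂ) * (n:ℂ) ^ (-((h:ℂ) * Complex.I))) := by
  unfold sh
  rw [MonoidAlgebra.lift_single]
  show c • single n ((n:ℂ) ^ (-((h:ℂ) * Complex.I))) = _
  rw [MonoidAlgebra.smul_single, Complex.real_smul]

lemma sh_coeff (h : ℝ) (f : P1) (n : ℕ) : (sh h f).coeff n = (f.coeff n : ℂ) * (n:ℂ) ^ (-((h:ℂ) * Complex.I)) := by
  classical
  conv_lhs => rw [P1_sum f, map_sum]
  simp_rw [sh_single]
  rw [coeff_sum, Finsupp.finsetSum_apply]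
  simp_rw [coeff_single, Finsupp.single_apply]
  rw [sum_ite_eq']
  split_ifs with h1
  · rfl
  · rw [Finsupp.notMem_support_iff.mp h1]; simp

lemma norm_ncpow {n : ℕ} (hn : n ≠ 0) (h : ℝ) : ‖(n:ℂ) ^ (-((h:ℂ) * Complex.I))‖ = 1 := by
  have hn0 : (0:ℝ) < n := by exact_mod_cast Nat.pos_of_ne_zero hn
  rw [← Complex.ofReal_natCast, Complex.norm_cpow_eq_rpow_re_of_pos hn0]
  simp

lemma norm_ncpow_le (n : ℕ) (h : ℝ) : ‖(n:ℂ) ^ (-((h:ℂ) * Complex.I))‖ ≤ 1 := by
  rcases eq_or_ne n 0 with h0 | h0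
  · subst h0
    rcases eq_or_ne h 0 with h1 | h1
    · subst h1; simp
    · rw [Nat.cast_zero, Complex.zero_cpow (by simpa using h1)]; simp
  · exact (norm_ncpow h0 h).le

lemma Do.sh {f : P1} (hf : Le f f) (h : ℝ) : Do f (SH.sh h f) := by
  intro n
  rw [sh_coeff, norm_mul, Complex.norm_real, Real.norm_of_nonneg (hf n).1]
  exact mul_le_of_le_one_right (hf n).1 (norm_ncpow_le n h)

lemma ec_sh {s : ℂ} (hs0 : 0 < s.re) (h : ℝ) (f : P1) : ec s (sh h f) = es (s + h * Complex.I) f := by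
  have e1 : f = ∑ n ∈ f.coeff.support, single n (f.coeff n) := P1_sum f
  conv_lhs => rw [e1]
  conv_rhs => rw [e1]
  rw [map_sum, map_sum, map_sum]
  refine sum_congr rfl fun n _ => ?_
  rw [sh_single, ec_single, es_single, mul_assoc]
  congr 1
  rcases eq_or_ne n 0 with h0 | h0
  · subst h0
    have h1 : -s ≠ 0 := by
      intro h2
      rw [neg_eq_zero] at h2
      rw [h2] at hs0; simp at hs0
    have h2 : -(s + h * Complex.I) ≠ 0 := by
      intro h3
      rw [neg_eq_zero] at h3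
      have := congrArg Complex.re h3
      simp at this
      linarith
    rw [Nat.cast_zero, Complex.zero_cpow h1, Complex.zero_cpow h2, mul_zero]
  · have hn : (n:ℂ) ≠ 0 := by exact_mod_cast h0
    rw [← Complex.cpow_add _ _ hn]
    congr 1; ring

/-! ### mean values -/

lemma ec_cont {A : PC} (hA : A.coeff 0 = 0) (δ : ℝ) : Continuous fun t : ℝ => ec (1 / 2 + δ + t * Complex.I) A := by
  simp_rw [ec_eq _ (subset_refl A.coeff.support)]
  refine continuous_finsetSum _ fun n hn => ?_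
  have hn0 : n ≠ 0 := by
    rintro rfl
    exact (Finsupp.mem_support_iff.mp hn) hA
  have : (n:ℂ) ≠ 0 := by exact_mod_cast hn0
  refine continuous_const.mul (Continuous.const_cpow ?_ (Or.inl this))
  fun_prop

lemma Do.zero_coeff {g : P1} {A : PC} (h : Do g A) {N : ℝ} (hg : Bd1 N g) : A.coeff 0 = 0 := by
  by_contra h0
  exact (hg 0 (h.supp (Finsupp.mem_support_iff.mpr h0))).1 rfl

lemma Do.cont {g : P1} {A : PC} (h : Do g A) {N : ℝ} (hg : Bd1 N g) (δ : ℝ) :
    Continuous fun t : ℝ => ec (1 / 2 + δ + t * Complex.I) A := ec_cont (h.zero_coeff hg) δ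

lemma cpow_split {n : ℕ} (hn : n ≠ 0) (δ t : ℝ) : (n:ℂ) ^ (-(1 / 2 + (δ:ℂ) + t * Complex.I)) =
    (((n:ℝ) ^ (-(1 / 2 + δ)) : ℝ) : ℂ) * (n:ℂ) ^ (-(Complex.I * (t:ℂ))) := by
  have hn0 : (n:ℂ) ≠ 0 := by exact_mod_cast hn
  have e1 : -(1 / 2 + (δ:ℂ) + t * Complex.I) = ((-(1 / 2 + δ) : ℝ) : ℂ) + -(Complex.I * (t:ℂ)) := by push_cast; ring
  rw [e1, Complex.cpow_add _ _ hn0, Complex.ofReal_cpow (Nat.cast_nonneg n)]
  simp

lemma wδ_eq {n : ℕ} (hn : n ≠ 0) (δ : ℝ) : ((n:ℝ) ^ (-(1 / 2 + δ))) ^ 2 = wδ δ n := by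
  have hn0 : (0:ℝ) < n := by exact_mod_cast Nat.pos_of_ne_zero hn
  unfold wδ
  rw [← Real.rpow_natCast ((n:ℝ) ^ (-(1 / 2 + δ))), ← Real.rpow_mul hn0.le, one_div (n:ℝ), ← Real.rpow_neg_one (n:ℝ), ← Real.rpow_add hn0]
  congr 1
  push_cast; ring

/-- the mean value inequality -/
theorem mv_dom : ∃ C : ℝ, 0 < C ∧ ∀ (δ T N : ℝ) (g : P1) (A : PC), 1 ≤ T → Do g A → Bd1 N g → N ≤ T →
    ∫ t in (0:ℝ)..(2 * T), ‖ec (1 / 2 + δ + t * Complex.I) A‖ ^ 2 ≤ C * (T * ip δ g g) := by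
  obtain ⟨C, hC, hmv⟩ := Pool.Agent.TH928.GS.t_MV
  refine ⟨2 * C, by positivity, fun δ T N g A hT hA hg hNT => ?_⟩
  have hT0 : 0 < T := by linarith
  obtain ⟨X, hX⟩ : ∃ X : ℕ, X = ⌊T⌋₊ := ⟨_, rfl⟩
  have hXT : (X:ℝ) ≤ T := by rw [hX]; exact Nat.floor_le hT0.le
  have hsub : g.coeff.support ⊆ Icc 1 X := by
    intro n hn
    have := hg n hn
    rw [mem_Icc, hX]
    exact ⟨Nat.pos_of_ne_zero this.1, Nat.le_floor (this.2.trans hNT)⟩
  have h1 := hmv T X (fun n => A.coeff n * (((n:ℝ) ^ (-(1 / 2 + δ)) : ℝ) : ℂ)) hT (by nlinarith)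
  have e1 : ∀ t : ℝ, ec (1 / 2 + δ + t * Complex.I) A =
      ∑ n ∈ Icc 1 X, (A.coeff n * (((n:ℝ) ^ (-(1 / 2 + δ)) : ℝ) : ℂ)) * (n:ℂ) ^ (-(Complex.I * (t:ℂ))) := by
    intro t
    rw [ec_eq _ (hA.supp.trans hsub)]
    refine sum_congr rfl fun n hn => ?_
    rw [mem_Icc] at hn
    rw [cpow_split (by omega), mul_assoc]
  simp_rw [e1]
  refine h1.trans ?_
  have h2 : ∑ n ∈ Icc 1 X, (T + n) * ‖A.coeff n * (((n:ℝ) ^ (-(1 / 2 + δ)) : ℝ) : ℂ)‖ ^ 2 ≤ 2 * T * ip δ g g := by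
    rw [ip_eq δ g g hsub, mul_sum]
    refine sum_le_sum fun n hn => ?_
    rw [mem_Icc] at hn
    have hnT : (n:ℝ) ≤ T := le_trans (by exact_mod_cast hn.2) hXT
    rw [norm_mul, mul_pow, Complex.norm_real, Real.norm_eq_abs, sq_abs, wδ_eq (by omega)]
    have h3 : ‖A.coeff n‖ ^ 2 ≤ g.coeff n * g.coeff n := by
      rw [← sq]; exact pow_le_pow_left₀ (norm_nonneg _) (hA n) 2
    have h4 := wδ_nonneg δ n
    exact mul_le_mul (by linarith) (mul_le_mul_of_nonneg_right h3 h4) (by positivity) (by positivity)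
  calc C * ∑ n ∈ Icc 1 X, (T + n) * ‖A.coeff n * (((n:ℝ) ^ (-(1 / 2 + δ)) : ℝ) : ℂ)‖ ^ 2 ≤ C * (2 * T * ip δ g g) :=
        mul_le_mul_of_nonneg_left h2 hC.le
    _ = _ := by ring

end Pool.Agent.Y753.SH
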