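import Pool.Agent.Y753.SH.Dom

set_option autoImplicit false

/-! Bilinear mean values, and products of shifts. -/

namespace Pool.Agent.Y753.SH

open Finset Filter MeasureTheory MonoidAlgebra Topology
open Pool.Agent.Y755
open Pool.Agent.W184.NZ
open Pool.Agent.Y753.NL
open Pool.Agent.H306R2 (dv dv_nonneg dv_one)

/-- the diagonal form -/
noncomputable def dg (δ : ℝ) (S : Finset ℕ) (A B : PC) : ℂ :=
  ∑ n ∈ S, A.coeff n * (starRingEnd ℂ) (B.coeff n) * ((wδ δ n : ℝ) : ℂ)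

lemma mh_eq {δ : ℝ} {m n : ℕ} (hm : m ≠ 0) (hn : n ≠ 0) (t : ℝ) :
    (m:ℂ) ^ (-(1 / 2 + (δ:ℂ) + t * Complex.I)) * (starRingEnd ℂ) ((n:ℂ) ^ (-(1 / 2 + (δ:ℂ) + t * Complex.I))) =
      ((((m:ℝ) * n) ^ (-δ) : ℝ) : ℂ) * mh t (m, n) := by
  have m0 : (0:ℝ) < m := by exact_mod_cast Nat.pos_of_ne_zero hm
  have n0 : (0:ℝ) < n := by exact_mod_cast Nat.pos_of_ne_zero hn
  have mc : (m:ℂ) ≠ 0 := by exact_mod_cast hm
  have nc : (n:ℂ) ≠ 0 := by exact_mod_cast hn
  have e0 : mh t (m, n) = (m : ℂ) ^ (-(1 / 2 + t * Complex.I)) * (n : ℂ) ^ (-(1 / 2 - t * Complex.I)) := rfl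
  have e1 : (starRingEnd ℂ) ((n:ℂ) ^ (-(1 / 2 + (δ:ℂ) + t * Complex.I))) = (n:ℂ) ^ (-(1 / 2 + (δ:ℂ) - t * Complex.I)) := by
    rw [Complex.cpow_def_of_ne_zero nc, ← Complex.exp_conj, map_mul, ← Complex.natCast_log, Complex.conj_ofReal,
      Complex.natCast_log, Complex.cpow_def_of_ne_zero nc]
    congr 2
    simp only [map_neg, map_add, map_mul, Complex.conj_ofReal, Complex.conj_I, map_div₀, map_one, map_ofNat]
    ring
  rw [e0, e1, Real.mul_rpow m0.le n0.le]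
  have e2 : -(1 / 2 + (δ:ℂ) + t * Complex.I) = ((-δ : ℝ) : ℂ) + -(1 / 2 + t * Complex.I) := by push_cast; ring
  have e3 : -(1 / 2 + (δ:ℂ) - t * Complex.I) = ((-δ : ℝ) : ℂ) + -(1 / 2 - t * Complex.I) := by push_cast; ring
  rw [e2, e3, Complex.cpow_add _ _ mc, Complex.cpow_add _ _ nc, Complex.ofReal_mul, Complex.ofReal_cpow m0.le,
    Complex.ofReal_cpow n0.le, Complex.ofReal_natCast, Complex.ofReal_natCast]
  ring

/-- the bilinear mean value theorem -/
theorem bil {N δ : ℝ} (hδ : 0 ≤ δ) {g g' : P1} {A B : PC} (hA : Do g A) (hB : Do g' B) (hg : Bd1 N g) (hg' : Bd1 N g')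
    {S : Finset ℕ} (hS : g.coeff.support ⊆ S) (a b : ℝ) :
    ‖(∫ t in a..b, ec (1 / 2 + δ + t * Complex.I) A * (starRingEnd ℂ) (ec (1 / 2 + δ + t * Complex.I) B)) -
      ((b - a : ℝ) : ℂ) * dg δ S A B‖ ≤ 2 * N * (l1' g * l1' g') := by
  classical
  set s := A.coeff.support with hs
  set s' := B.coeff.support with hs'
  have hn0 : ∀ n ∈ s, n ≠ 0 ∧ (n:ℝ) ≤ N := fun n hn => hg n (hA.supp hn)
  have hn0' : ∀ n ∈ s', n ≠ 0 ∧ (n:ℝ) ≤ N := fun n hn => hg' n (hB.supp hn)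
  obtain ⟨c, hc⟩ : ∃ c : ℕ → ℕ → ℂ, ∀ m n, c m n = A.coeff m * (starRingEnd ℂ) (B.coeff n) * ((((m:ℝ) * n) ^ (-δ) : ℝ) : ℂ) :=
    ⟨_, fun _ _ => rfl⟩
  have e1 : ∀ t : ℝ, ec (1 / 2 + δ + t * Complex.I) A * (starRingEnd ℂ) (ec (1 / 2 + δ + t * Complex.I) B) =
      ∑ m ∈ s, ∑ n ∈ s', c m n * mh t (m, n) := by
    intro t
    rw [ec_eq _ (subset_refl _), ec_eq _ (subset_refl _), map_sum, sum_mul_sum]
    refine sum_congr rfl fun m hm => sum_congr rfl fun n hn => ?_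
    rw [map_mul, mul_mul_mul_comm, mh_eq (hn0 m hm).1 (hn0' n hn).1, hc]
    ring
  have e2 : ∫ t in a..b, ec (1 / 2 + δ + t * Complex.I) A * (starRingEnd ℂ) (ec (1 / 2 + δ + t * Complex.I) B) =
      ∑ m ∈ s, ∑ n ∈ s', c m n * ∫ t in a..b, mh t (m, n) := by
    simp_rw [e1]
    rw [intervalIntegral.integral_finsetSum]
    · refine sum_congr rfl fun m hm => ?_
      rw [intervalIntegral.integral_finsetSum]
      · refine sum_congr rfl fun n _ => ?_
        rw [intervalIntegral.integral_const_mul]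
      · intro n hn
        exact (continuous_const.mul (mh_cont (hn0 m hm).1 (hn0' n hn).1)).intervalIntegrable _ _
    · intro m hm
      refine Continuous.intervalIntegrable ?_ _ _
      exact continuous_finsetSum _ fun n hn => continuous_const.mul (mh_cont (hn0 m hm).1 (hn0' n hn).1)
  have e3 : ((b - a : ℝ) : ℂ) * dg δ S A B = ∑ m ∈ s, ∑ n ∈ s', c m n * (((b - a) * w0 (m, n) : ℝ) : ℂ) := by
    have h1 : ∀ m ∈ s, ∑ n ∈ s', c m n * (((b - a) * w0 (m, n) : ℝ) : ℂ) =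
        ((b - a : ℝ) : ℂ) * (A.coeff m * (starRingEnd ℂ) (B.coeff m) * ((wδ δ m : ℝ) : ℂ)) := by
      intro m hm
      have h2 : ∀ n, c m n * (((b - a) * w0 (m, n) : ℝ) : ℂ) = if m = n then ((b - a : ℝ) : ℂ) *
          (A.coeff m * (starRingEnd ℂ) (B.coeff n) * ((wδ δ m : ℝ) : ℂ)) else 0 := by
        intro n
        unfold w0
        by_cases h : m = n
        · subst h
          rw [if_pos rfl, if_pos rfl, hc]
          have m0 : (0:ℝ) < m := by exact_mod_cast Nat.pos_of_ne_zero (hn0 m hm).1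
          have h3 : wδ δ m = ((m:ℝ) * m) ^ (-δ) * (1 / m) := by
            unfold wδ
            rw [Real.mul_rpow m0.le m0.le, ← Real.rpow_add m0]
            congr 2; ring
          rw [h3]
          push_cast
          ring
        · rw [if_neg h, if_neg h]; simp
      simp_rw [h2]
      rw [sum_ite_eq]
      split_ifs with h3
      · rfl
      · rw [hs', Finsupp.notMem_support_iff] at h3
        rw [h3]; simp
    rw [sum_congr rfl h1, ← mul_sum]
    congr 1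
    unfold dg
    refine (sum_subset (hA.supp.trans hS) fun n _ hn => ?_).symm
    rw [Finsupp.notMem_support_iff.mp hn]; simp
  rw [e2, e3, ← sum_sub_distrib]
  have hl1 : ∑ m ∈ s, ‖A.coeff m‖ ≤ l1' g := by
    rw [l1']
    refine (sum_le_sum_of_subset_of_nonneg hA.supp fun _ _ _ => norm_nonneg _).trans (sum_le_sum fun n _ => ?_)
    exact (hA n).trans (le_abs_self _)
  have hl2 : ∑ m ∈ s', ‖B.coeff m‖ ≤ l1' g' := by
    rw [l1']
    refine (sum_le_sum_of_subset_of_nonneg hB.supp fun _ _ _ => norm_nonneg _).trans (sum_le_sum fun n _ => ?_)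
    exact (hB n).trans (le_abs_self _)
  have hterm : ∀ m ∈ s, ∀ n ∈ s', ‖c m n * (∫ t in a..b, mh t (m, n)) - c m n * (((b - a) * w0 (m, n) : ℝ) : ℂ)‖ ≤
      ‖A.coeff m‖ * ‖B.coeff n‖ * (2 * N) := by
    intro m hm n hn
    rw [← mul_sub, norm_mul]
    have hN : 0 ≤ 2 * N := by
      have := (hn0 m hm).2
      have h0 : (0:ℝ) ≤ m := Nat.cast_nonneg m
      linarith
    have h1 := int_mhc (hn0 m hm).1 (hn0' n hn).1 (hn0 m hm).2 (hn0' n hn).2 a b
    have h2 : ‖c m n‖ ≤ ‖A.coeff m‖ * ‖B.coeff n‖ := by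
      rw [hc, norm_mul, norm_mul, RCLike.norm_conj, Complex.norm_real, Real.norm_of_nonneg (by positivity)]
      refine mul_le_of_le_one_right (by positivity) ?_
      refine Real.rpow_le_one_of_one_le_of_nonpos ?_ (by linarith)
      have a1 : (1:ℝ) ≤ m := by exact_mod_cast Nat.pos_of_ne_zero (hn0 m hm).1
      have a2 : (1:ℝ) ≤ n := by exact_mod_cast Nat.pos_of_ne_zero (hn0' n hn).1
      nlinarith
    exact mul_le_mul h2 h1 (norm_nonneg _) (by positivity)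
  have h5 : ∑ m ∈ s, ∑ n ∈ s', ‖A.coeff m‖ * ‖B.coeff n‖ * (2 * N) =
      2 * N * ((∑ m ∈ s, ‖A.coeff m‖) * ∑ n ∈ s', ‖B.coeff n‖) := by
    rw [sum_mul_sum, mul_sum]
    refine sum_congr rfl fun m _ => ?_
    rw [mul_sum]
    exact sum_congr rfl fun n _ => by ring
  have h6 : ‖∑ m ∈ s, ((∑ n ∈ s', c m n * ∫ t in a..b, mh t (m, n)) - ∑ n ∈ s', c m n * (((b - a) * w0 (m, n) : ℝ) : ℂ))‖ ≤
      ∑ m ∈ s, ∑ n ∈ s', ‖A.coeff m‖ * ‖B.coeff n‖ * (2 * N) := by
    refine (norm_sum_le _ _).trans (sum_le_sum fun m hm => ?_)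
    rw [← sum_sub_distrib]
    exact (norm_sum_le _ _).trans (sum_le_sum fun n hn => hterm m hm n hn)
  refine h6.trans ?_
  rw [h5]
  rcases s.eq_empty_or_nonempty with h7 | ⟨m, hm⟩
  · rw [h7, sum_empty, zero_mul, mul_zero]
    rcases (g.coeff.support).eq_empty_or_nonempty with h8 | ⟨m, hm⟩
    · rw [l1', h8, sum_empty, zero_mul, mul_zero]
    · have := hg m hm
      have h0 : (0:ℝ) ≤ m := Nat.cast_nonneg m
      have h1 := l1'_nonneg g
      have h2 := l1'_nonneg g'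
      have h3 : 0 ≤ N := h0.trans this.2
      positivity
  · have hN : 0 ≤ 2 * N := by
      have := (hn0 m hm).2
      have h0 : (0:ℝ) ≤ m := Nat.cast_nonneg m
      linarith
    exact mul_le_mul_of_nonneg_left (mul_le_mul hl1 hl2 (sum_nonneg fun _ _ => norm_nonneg _) (l1'_nonneg _)) hN

end Pool.Agent.Y753.SH
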