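import Pool.Agent.Y753.SH.Dom2

set_option autoImplicit false

/-! Products of shifts, and powers. -/

namespace Pool.Agent.Y753.SH

open Finset Filter MeasureTheory MonoidAlgebra Topology
open Pool.Agent.Y755
open Pool.Agent.W184.NZ
open Pool.Agent.Y753.NL
open Pool.Agent.H306R2 (lc lc_zero lc_nonneg lc_conv dv dv_nonneg dv_one dA dA_apply dA_mul dA_one dA_zero dA_nat)

lemma anti_c {f g : PC} {n : ℕ} (hn : n ≠ 0) :
    (f * g).coeff n = ∑ p ∈ n.divisorsAntidiagonal, f.coeff p.1 * g.coeff p.2 :=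
  coeff_mul_antidiag f g n _ (by
    intro p; rw [Nat.mem_divisorsAntidiagonal]; exact ⟨fun h => h.1, fun h => ⟨h, hn⟩⟩)

lemma anti_r {f g : P1} {n : ℕ} (hn : n ≠ 0) :
    (f * g).coeff n = ∑ p ∈ n.divisorsAntidiagonal, f.coeff p.1 * g.coeff p.2 :=
  coeff_mul_antidiag f g n _ (by
    intro p; rw [Nat.mem_divisorsAntidiagonal]; exact ⟨fun h => h.1, fun h => ⟨h, hn⟩⟩)

/-- the product of the shifts -/
noncomputable def Fa {k : ℕ} (h : Fin k → ℝ) (f : P1) : PC := ∏ j, sh (h j) f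

/-- its limit coefficients -/
noncomputable def dh {k : ℕ} (h : Fin k → ℝ) : ArithmeticFunction ℂ := ∏ j, tz (h j)

lemma Fa_Do {k : ℕ} (h : Fin k → ℝ) {f : P1} (hf : Le f f) : Do (f ^ k) (Fa h f) := by
  have h1 := Do.prod (s := univ) (g := fun _ : Fin k => f) (A := fun j => sh (h j) f) fun j _ => Do.sh hf (h j)
  rwa [prod_const, card_univ, Fintype.card_fin] at h1

lemma tz_norm (h : ℝ) {n : ℕ} (hn : n ≠ 0) : ‖tz h n‖ = 1 := by
  show ‖if n = 0 then 0 else (n:ℂ) ^ (-((h:ℂ) * Complex.I))‖ = 1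
  rw [if_neg hn]
  exact norm_ncpow hn h

lemma tz_apply (h : ℝ) {n : ℕ} (hn : n ≠ 0) : tz h n = (n:ℂ) ^ (-((h:ℂ) * Complex.I)) := by
  show (if n = 0 then 0 else (n:ℂ) ^ (-((h:ℂ) * Complex.I))) = _
  rw [if_neg hn]

lemma dv_one_left {n : ℕ} (hn : n ≠ 0) : dv 1 n = 1 := by
  rw [← dA_apply, dA_one]
  unfold Pool.Agent.H306R2.zR
  rw [ArithmeticFunction.natCoe_apply, ArithmeticFunction.zeta_apply, if_neg hn, Nat.cast_one]

/-- the coefficients of the product of the shifts -/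
theorem dh_diff {f : P1} (hf : ∀ n, 0 ≤ f.coeff n ∧ f.coeff n ≤ 1) {k : ℕ} (h : Fin k → ℝ) :
    ∀ n, n ≠ 0 → ‖dh h n - (Fa h f).coeff n‖ ≤ dv k n - (f ^ k).coeff n ∧ ‖dh h n‖ ≤ dv k n := by
  classical
  induction k with
  | zero =>
    intro n hn
    have e1 : dh h = 1 := by unfold dh; simp
    have e2 : Fa h f = 1 := by unfold Fa; simp
    have e3 : dv ((0:ℕ):ℝ) n = if n = 1 then 1 else 0 := by
      rw [← dA_apply, Nat.cast_zero, dA_zero, ArithmeticFunction.one_apply]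
    rw [e1, e2, e3, pow_zero, ArithmeticFunction.one_apply, MonoidAlgebra.one_def, MonoidAlgebra.one_def, coeff_single,
      coeff_single, Finsupp.single_apply, Finsupp.single_apply]
    by_cases h1 : n = 1
    · subst h1; simp
    · rw [if_neg h1, if_neg h1, if_neg (fun h2 => h1 h2.symm), if_neg (fun h2 => h1 h2.symm)]; simp
  | succ k ih =>
    intro n hn
    set h' : Fin k → ℝ := fun j => h j.succ with hh'
    have e1 : dh h = tz (h 0) * dh h' := by unfold dh; rw [Fin.prod_univ_succ]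
    have e2 : Fa h f = sh (h 0) f * Fa h' f := by unfold Fa; rw [Fin.prod_univ_succ]
    have e3 : dv ((k + 1 : ℕ) : ℝ) n = ∑ p ∈ n.divisorsAntidiagonal, dv k p.2 := by
      rw [← dA_apply, Nat.cast_succ, add_comm, ← dA_mul, ArithmeticFunction.mul_apply]
      refine sum_congr rfl fun p hp => ?_
      have hp0 : p.1 ≠ 0 := by
        intro h0
        rw [Nat.mem_divisorsAntidiagonal] at hp
        rw [h0, zero_mul] at hp
        exact hn hp.1.symm
      rw [dA_apply, dA_apply, dv_one_left hp0, one_mul]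
    rw [e1, e2, e3, pow_succ', ArithmeticFunction.mul_apply, anti_c hn, anti_r hn]
    have hp : ∀ p ∈ n.divisorsAntidiagonal, p.1 ≠ 0 ∧ p.2 ≠ 0 := by
      intro p hp
      rw [Nat.mem_divisorsAntidiagonal] at hp
      constructor
      · intro h0; rw [h0, zero_mul] at hp; exact hn hp.1.symm
      · intro h0; rw [h0, mul_zero] at hp; exact hn hp.1.symm
    constructor
    · rw [← sum_sub_distrib, ← sum_sub_distrib]
      refine (norm_sum_le _ _).trans (sum_le_sum fun p hpm => ?_)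
      obtain ⟨p1, p2⟩ := hp p hpm
      obtain ⟨i1, i2⟩ := ih h' p.2 p2
      rw [sh_coeff, tz_apply _ p1]
      set u := (p.1:ℂ) ^ (-((h 0 : ℂ) * Complex.I)) with hu
      have hu1 : ‖u‖ = 1 := norm_ncpow p1 (h 0)
      have hf1 := hf p.1
      have e4 : u * dh h' p.2 - (f.coeff p.1 : ℂ) * u * (Fa h' f).coeff p.2 =
          u * ((f.coeff p.1 : ℂ) * (dh h' p.2 - (Fa h' f).coeff p.2) + ((1 - f.coeff p.1 : ℝ) : ℂ) * dh h' p.2) := by
        push_cast; ring
      rw [e4, norm_mul, hu1, one_mul]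
      refine (norm_add_le _ _).trans ?_
      rw [norm_mul, norm_mul, Complex.norm_real, Complex.norm_real, Real.norm_of_nonneg hf1.1,
        Real.norm_of_nonneg (by linarith [hf1.2])]
      have h5 := mul_le_mul_of_nonneg_left i1 hf1.1
      have h6 := mul_le_mul_of_nonneg_left i2 (by linarith [hf1.2] : 0 ≤ 1 - f.coeff p.1)
      have h7 : f.coeff p.1 * (dv k p.2 - (f ^ k).coeff p.2) + (1 - f.coeff p.1) * dv k p.2 =
          dv k p.2 - f.coeff p.1 * (f ^ k).coeff p.2 := by ring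
      linarith
    · refine (norm_sum_le _ _).trans (sum_le_sum fun p hpm => ?_)
      obtain ⟨p1, p2⟩ := hp p hpm
      rw [norm_mul, tz_norm _ p1, one_mul]
      exact (ih h' p.2 p2).2

/-- the Dirichlet polynomial of the product -/
noncomputable def Da {k : ℕ} (h : Fin k → ℝ) (N : ℕ) : PC := ∑ n ∈ Icc 1 N, single n (dh h n)

lemma Da_coeff {k : ℕ} (h : Fin k → ℝ) (N n : ℕ) : (Da h N).coeff n = if n ∈ Icc 1 N then dh h n else 0 := by
  classical
  unfold Da
  rw [coeff_sum, Finsupp.finsetSum_apply]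
  simp_rw [coeff_single, Finsupp.single_apply]
  rw [sum_ite_eq' (Icc 1 N) n (fun m => dh h m)]

lemma Le_one_zero : ∀ n, 0 ≤ (0 : P1).coeff n ∧ (0 : P1).coeff n ≤ 1 := fun n => by simp

lemma dh_le {k : ℕ} (h : Fin k → ℝ) {n : ℕ} (hn : n ≠ 0) : ‖dh h n‖ ≤ dv k n := (dh_diff Le_one_zero h n hn).2

lemma Da_Do {k : ℕ} (h : Fin k → ℝ) (N : ℕ) : Do (DN k N) (Da h N) := by
  intro n
  rw [Da_coeff, DN_coeff]
  split_ifs with h1
  · rw [mem_Icc] at h1
    exact dh_le h (by omega)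
  · rw [norm_zero]

lemma Da_diff {f : P1} (hf : ∀ n, 0 ≤ f.coeff n ∧ f.coeff n ≤ 1) {k N : ℕ} (hN : Bd1 N (f ^ k)) (h : Fin k → ℝ) :
    Do (DN k N - f ^ k) (Da h N - Fa h f) := by
  intro n
  rw [coeff_sub, coeff_sub, Finsupp.sub_apply, Finsupp.sub_apply, Da_coeff, DN_coeff]
  have hff : Le f f := fun n => ⟨(hf n).1, le_rfl⟩
  split_ifs with h1
  · rw [mem_Icc] at h1
    exact (dh_diff hf h n (by omega)).1
  · have h2 : (f ^ k).coeff n = 0 := by
      by_contra h3
      have := hN n (Finsupp.mem_support_iff.mpr h3)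
      rw [mem_Icc, not_and_or] at h1
      have h4 : n ≤ N := by exact_mod_cast this.2
      omega
    have h3 := Fa_Do h hff n
    rw [h2] at h3
    rw [norm_le_zero_iff.mp h3, h2]
    simp

/-- the norm of a difference -/
lemma diff_ip {a δ : ℝ} (ha : 0 < a) (hδ : 0 < δ) {N : ℕ} {f : P1} (hf : Bd1 N f) (hd : ∀ n, 0 ≤ f.coeff n ∧ f.coeff n ≤ dv a n) :
    ip δ (DN a N - f) (DN a N - f) ≤ DD a δ - ip δ f f := by
  have h1 := ip_f_DN (δ := δ) hf hd
  have h2 := ip_DN_le ha hδ N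
  rw [ip_sub_self, ip_comm δ (DN a N) f]
  linarith

/-! ### powers -/

lemma NK_smul (K : ℕ) (a : ℝ) (x : P1) : NK K a x = NK K 1 (a • x) := by
  unfold NK
  refine sum_congr rfl fun j _ => ?_
  rw [smul_pow, smul_smul, one_pow]
  congr 1; ring

lemma NK_exp_add_le (K : ℕ) {a b : ℝ} (ha : 0 ≤ a) (hb : 0 ≤ b) {x : P1} (hx : Le x x) :
    Le (NK K (a + b) x) (NK K a x * NK K b x) := by
  rw [NK_smul K (a + b), NK_smul K a, NK_smul K b, add_smul]
  exact NK_add_le K zero_le_one (hx.smul ha) (hx.smul hb)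

lemma NK_nn (K : ℕ) {a : ℝ} (ha : 0 ≤ a) {x : P1} (hx : Le x x) : Le (NK K a x) (NK K a x) := by
  unfold NK
  exact Le.sum fun j _ => (hx.pow j).smul (by positivity)

lemma one_le_NK_zero (K : ℕ) {x : P1} : NK K 0 x = 1 := by
  unfold NK
  rw [sum_range_succ', sum_eq_zero]
  · simp
  · intro k _
    rw [zero_pow (by omega), zero_div, zero_smul]

lemma NK_pow_le (K k : ℕ) {x : P1} (hx : Le x x) : Le (NK K k x) (NK K 1 x ^ k) := by
  induction k with
  | zero => rw [Nat.cast_zero, one_le_NK_zero, pow_zero]; exact Le.one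
  | succ k ih =>
    rw [Nat.cast_succ, pow_succ]
    exact (NK_exp_add_le K (Nat.cast_nonneg k) zero_le_one hx).trans (ih.mul (NK_nn K zero_le_one hx))

lemma single_sum' {ι : Type*} (s : Finset ι) (m : ℕ) (c : ι → ℝ) : (single m (∑ i ∈ s, c i) : P1) = ∑ i ∈ s, single m (c i) := by
  classical
  induction s using Finset.induction_on with
  | empty => simp
  | insert a s ha ih => rw [sum_insert ha, sum_insert ha, single_add, ih]

lemma Lp_nn {a : ℝ} (ha : 0 ≤ a) (K p : ℕ) : Le (NL.Lp a K p) (NL.Lp a K p) := by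
  unfold NL.Lp
  exact Le.sum fun j _ => Le.single (lc_nonneg ha j) le_rfl

lemma Lp_add_le {a b : ℝ} (ha : 0 ≤ a) (hb : 0 ≤ b) (K p : ℕ) : Le (NL.Lp (a + b) K p) (NL.Lp a K p * NL.Lp b K p) := by
  classical
  obtain ⟨t, ht⟩ : ∃ t : ℕ × ℕ → P1, ∀ q, t q = single (p ^ (q.1 + q.2)) (lc a q.1 * lc b q.2) := ⟨_, fun _ => rfl⟩
  have ht0 : ∀ q, Le (t q) (t q) := fun q => by
    rw [ht]
    exact Le.single (mul_nonneg (lc_nonneg ha _) (lc_nonneg hb _)) le_rfl
  have e1 : NL.Lp a K p * NL.Lp b K p = ∑ q ∈ range (K + 1) ×ˢ range (K + 1), t q := by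
    unfold NL.Lp
    rw [sum_mul_sum, ← sum_product']
    refine sum_congr rfl fun q _ => ?_
    rw [ht, single_mul_single, pow_add]
  have e2 : NL.Lp (a + b) K p = ∑ q ∈ (range (K + 1) ×ˢ range (K + 1)).filter (fun q => q.1 + q.2 ≤ K), t q := by
    rw [← sum_fiberwise_of_maps_to (g := fun q : ℕ × ℕ => q.1 + q.2) (t := range (K + 1)) (fun q hq => by
      rw [mem_filter] at hq
      rw [mem_range]; omega)]
    unfold NL.Lp
    refine sum_congr rfl fun m hm => ?_
    rw [mem_range] at hm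
    have e3 : ((range (K + 1) ×ˢ range (K + 1)).filter (fun q => q.1 + q.2 ≤ K)).filter (fun q => q.1 + q.2 = m) =
        antidiagonal m := by
      ext q
      simp only [mem_filter, mem_product, mem_range, HasAntidiagonal.mem_antidiagonal]
      omega
    rw [e3, ← lc_conv a b m, single_sum']
    refine sum_congr rfl fun q hq => ?_
    rw [HasAntidiagonal.mem_antidiagonal] at hq
    rw [ht, hq]
  rw [e1, e2, ← sum_filter_add_sum_filter_not (range (K + 1) ×ˢ range (K + 1)) (fun q => q.1 + q.2 ≤ K)]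
  have h1 : Le (∑ q ∈ (range (K + 1) ×ˢ range (K + 1)).filter (fun q => q.1 + q.2 ≤ K), t q + 0)
      (∑ q ∈ (range (K + 1) ×ˢ range (K + 1)).filter (fun q => q.1 + q.2 ≤ K), t q +
        ∑ q ∈ (range (K + 1) ×ˢ range (K + 1)).filter (fun q => ¬ (q.1 + q.2 ≤ K)), t q) :=
    (Le.sum fun q _ => ht0 q).add (Le.zero (Le.sum fun q _ => ht0 q))
  rwa [add_zero] at h1

lemma Lp_zero (K p : ℕ) : NL.Lp 0 K p = 1 := by
  unfold NL.Lp
  rw [sum_range_succ', sum_eq_zero]
  · rw [pow_zero, lc_zero, zero_add]; rfl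
  · intro j _
    have : lc 0 (j + 1) = 0 := by
      unfold lc
      apply prod_eq_zero (i := 0) (mem_range.mpr (by omega))
      simp
    rw [this, single_zero]

lemma Lp_pow_le (K p k : ℕ) : Le (NL.Lp k K p) (NL.Lp 1 K p ^ k) := by
  induction k with
  | zero => rw [Nat.cast_zero, Lp_zero, pow_zero]; exact Le.one
  | succ k ih =>
    rw [Nat.cast_succ, pow_succ]
    exact (Lp_add_le (Nat.cast_nonneg k) zero_le_one K p).trans (ih.mul (Lp_nn zero_le_one K p))

lemma Az_pow_le (K z k : ℕ) : Le (Az k K z) (Az 1 K z ^ k) := by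
  unfold Az
  rw [← prod_pow]
  exact Le.prod fun p _ => Lp_pow_le K p k

lemma Bm_pow_le (M : ℕ) (z : ℕ) (y : ℝ) (J Rs k : ℕ) : Le (Bm M k z y J Rs) (Bm M 1 z y J Rs ^ k) := by
  unfold Bm
  rw [← prod_pow]
  exact Le.prod fun i _ => NK_pow_le _ k (x1_nn _)

lemma f_pow_le (K M : ℕ) (z : ℕ) (y : ℝ) (J Rs k : ℕ) :
    Le (Az k K z * Bm M k z y J Rs) ((Az 1 K z * Bm M 1 z y J Rs) ^ k) := by
  rw [mul_pow]
  exact (Az_pow_le K z k).mul (Bm_pow_le M z y J Rs k)

lemma Le.ip {f g : P1} (h : Le f g) (δ : ℝ) : Y755.ip δ f f ≤ Y755.ip δ g g := by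
  classical
  rw [ip_eq δ f f (s := f.coeff.support ∪ g.coeff.support) subset_union_left,
    ip_eq δ g g (s := f.coeff.support ∪ g.coeff.support) subset_union_right]
  refine sum_le_sum fun n _ => mul_le_mul_of_nonneg_right ?_ (wδ_nonneg δ n)
  exact mul_le_mul (h n).2 (h n).2 (h n).1 ((h n).1.trans (h n).2)

end Pool.Agent.Y753.SH
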