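import Pool.Agent.Y753.SH.Dom3

set_option autoImplicit false

/-! Parameters with short polynomials. -/

namespace Pool.Agent.Y753.SH

open Finset Filter MeasureTheory MonoidAlgebra Topology
open Pool.Agent.Y755
open Pool.Agent.W184.NZ
open Pool.Agent.Y753.NL
open Pool.Agent.W184 (zn zn_nonneg zn_cont zn_le')
open Pool.Agent.H306R2.SM (cl)

/-- the parameters exist, with short polynomials -/
theorem Pk_ex2 {M : ℕ} (hM : 1 ≤ M) {ε : ℝ} (hε : 0 < ε) (hε1 : ε ≤ 1 / 10) (z0 : ℕ) {τ : ℝ} (hτ : 0 < τ) :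
    ∃ (z Rs : ℕ) (e1 c η d x0 : ℝ), z0 ≤ z ∧ Pk M z Rs ε e1 c η d x0 ∧ η * (M * ((Rs:ℝ) + 1)) ≤ τ := by
  have hM1 : (1:ℝ) ≤ M := by exact_mod_cast hM
  have hM0 : (0:ℝ) < M := by linarith
  obtain ⟨e1, he1, he11, hp1, hp2⟩ := e1_ex hM hε hε1
  set e := ε * e1 ^ 2 / 600 with he
  have he0 : 0 < e := by positivity
  obtain ⟨c, hc, hpar⟩ := par_ex
  obtain ⟨z1, R1, hET1⟩ := ETM_small M hc he0
  obtain ⟨z2, R2, hET2⟩ := ETM_small 1 hc he0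
  obtain ⟨z3, x0, hx0, hcmp⟩ := cmp_u (Mx := M) hM0 hε
  obtain ⟨z, hzz0, hzz1, hzz2, hzz3, hzM, hz1000, hz40⟩ : ∃ z : ℕ, z0 ≤ z ∧ z1 ≤ z ∧ z2 ≤ z ∧ z3 ≤ z ∧ 40000 * M ^ 6 ≤ z ∧ 1000 ≤ z ∧
      40000 * 1 ^ 6 ≤ z := by
    have h1 : 1 ≤ M ^ 6 := Nat.one_le_pow _ _ (by omega)
    refine ⟨z0 + z1 + z2 + z3 + 40000 * M ^ 6, by omega, by omega, by omega, by omega, by omega, by omega, by omega⟩
  obtain ⟨Rs, hRok, hRRm, h4, _⟩ := Rs_exists (c := c) (ε := min (ε / 4) (e1 / 8)) (by positivity) (max R1 R2)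
  have hR1 : R1 ≤ Rs := (le_max_left _ _).trans hRRm
  have hR2 : R2 ≤ Rs := (le_max_right _ _).trans hRRm
  have hRs1 : 1 ≤ Rs := hRok.1
  obtain ⟨ηm, hηm, hmono⟩ := mono_moment
  have hq0 : 0 < min ηm (1 / 4) := lt_min hηm (by norm_num)
  have hq1 : min ηm (1 / 4) ≤ 1 / 4 := min_le_right _ _
  have hRp : (0:ℝ) < M * ((Rs:ℝ) + 1) := by positivity
  set η : ℝ := min (min ηm (1 / 4) / 4000) τ / (M * ((Rs:ℝ) + 1)) with hηd
  have hqq : 0 < min (min ηm (1 / 4) / 4000) τ := lt_min (by positivity) hτ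
  have hη : 0 < η := by positivity
  have hη0 : η * (M * ((Rs:ℝ) + 1)) = min (min ηm (1 / 4) / 4000) τ := by rw [hηd]; field_simp
  have hη1 : η * (M * ((Rs:ℝ) + 1)) ≤ min ηm (1 / 4) / 4000 := hη0.le.trans (min_le_left _ _)
  have hη3 : η * (M * ((Rs:ℝ) + 1)) ≤ τ := hη0.le.trans (min_le_right _ _)
  have hη2 : η * (M * ((Rs:ℝ) + 1)) ≤ 1 / 16000 := by linarith
  have hη16 : η ≤ 1 / 16 := by
    have : η * 1 ≤ η * (M * ((Rs:ℝ) + 1)) := mul_le_mul_of_nonneg_left (by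
      have : (0:ℝ) ≤ Rs := Nat.cast_nonneg _
      nlinarith) hη.le
    linarith
  obtain ⟨d, hd, hpar2⟩ := hpar z Rs hz1000 hRs1 η hη hη16
  refine ⟨z, Rs, e1, c, η, d, x0, hzz0, ⟨hM, hε, hε1, he1, he11, hp1, hp2, hc, hzM, hz40,
    fun y J hJ => hET1 z hzz1 Rs hR1 y J hJ, fun y J hJ => hET2 z hzz2 Rs hR2 y J hJ, hx0,
    fun α h1 h2 y δ h3 h4 h5 J h6 => hcmp α h1 h2 z hzz3 hz1000 y δ h3 h4 h5 J h6, hRok,
    h4.trans (min_le_left _ _), h4.trans (min_le_right _ _), hη, hη2, hd, hpar2,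
    onl_all (M := M) hM hc hηm hmono hη hη1 hRok hd⟩, hη3⟩


end Pool.Agent.Y753.SH
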