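import Pool.Agent.Y753.SH.Par

set_option autoImplicit false

/-! Pointwise estimates for products of shifts. -/

namespace Pool.Agent.Y753.SH

open Finset Filter MeasureTheory MonoidAlgebra Topology
open Pool.Agent.Y755
open Pool.Agent.W184.NZ
open Pool.Agent.Y753.NL
open Pool.Agent.H306R2 (dv dv_nonneg dv_one)

/-- products of close factors -/
lemma prod_near {k : ℕ} {ε : ℝ} (hε : 0 ≤ ε) (hε1 : ε ≤ 1 / 10) {z w : Fin k → ℂ} (h : ∀ j, ‖z j - w j‖ ≤ 5 * ε * ‖w j‖) :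
    ‖∏ j, z j - ∏ j, w j‖ ≤ 10 ^ k * ε * ‖∏ j, w j‖ := by
  induction k with
  | zero => simp; exact hε
  | succ k ih =>
    have ih' := ih (z := fun j => z j.succ) (w := fun j => w j.succ) fun j => h j.succ
    rw [Fin.prod_univ_succ, Fin.prod_univ_succ]
    obtain ⟨Z, hZ⟩ : ∃ Z, Z = ∏ j : Fin k, z j.succ := ⟨_, rfl⟩
    obtain ⟨W, hW⟩ : ∃ W, W = ∏ j : Fin k, w j.succ := ⟨_, rfl⟩
    rw [← hZ, ← hW] at ih' ⊢
    have h0 := h 0
    have e1 : z 0 * Z - w 0 * W = (z 0 - w 0) * W + z 0 * (Z - W) := by ring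
    have h1 : ‖z 0‖ ≤ (1 + 5 * ε) * ‖w 0‖ := by
      have e2 : z 0 = (z 0 - w 0) + w 0 := by ring
      have := norm_add_le (z 0 - w 0) (w 0)
      rw [← e2] at this
      linarith
    rw [e1, norm_mul (w 0)]
    refine (norm_add_le _ _).trans ?_
    rw [norm_mul, norm_mul]
    have n0 := norm_nonneg (w 0)
    have nW := norm_nonneg W
    have h10 : (1:ℝ) ≤ 10 ^ k := one_le_pow₀ (by norm_num)
    calc ‖z 0 - w 0‖ * ‖W‖ + ‖z 0‖ * ‖Z - W‖ ≤ 5 * ε * ‖w 0‖ * ‖W‖ + ((1 + 5 * ε) * ‖w 0‖) * (10 ^ k * ε * ‖W‖) := by gcongr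
      _ = (5 + (1 + 5 * ε) * 10 ^ k) * (ε * (‖w 0‖ * ‖W‖)) := by ring
      _ ≤ (10 ^ (k + 1)) * (ε * (‖w 0‖ * ‖W‖)) := by
          refine mul_le_mul_of_nonneg_right ?_ (by positivity)
          rw [pow_succ]
          nlinarith
      _ = _ := by ring

/-- the ratio of a product of shifts and a power -/
lemma ratio_pt {J Rs k : ℕ} {K : ℕ → ℕ} {ε : ℝ} (hk : 1 ≤ k) (hε : 0 < ε) (hε1 : ε ≤ 1 / 10)
    (hc1 : ∀ i, Cl (K i) 1 (RR Rs i)) (hck : ∀ i, Cl (K i) k (RR Rs i)) (hc4 : ∀ i, Cl (K i) (4 * k) (RR Rs i))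
    (h4 : 4 * Real.exp (-(2 * (Rs:ℝ))) ≤ ε / 4) {X : Fin k → ℕ → ℂ} {X' : ℕ → ℂ}
    (hX : ∀ j, ∀ i ∈ range J, ‖X j i‖ ≤ (RR Rs i : ℝ)) (hX' : ∀ i ∈ range J, ‖X' i‖ ≤ (RR Rs i : ℝ))
    {P A : Fin k → ℂ} {P' A' : ℂ} (hPA : ∀ j, ‖P j * A j - 1‖ ≤ ε) (hPA' : ‖P' ^ k * A' - 1‖ ≤ ε)
    (hPP : ∀ j, ‖P'‖ ≤ 2 * ‖P j‖) :
    ‖∏ j, (A j * ∏ i ∈ range J, NK (K i) 1 (X j i))‖ ≤
      2 * 3 ^ k * ‖A' * ∏ i ∈ range J, NK (K i) k (X' i)‖ * Real.exp (∑ i ∈ range J, ∑ j, (X j i - X' i)).re ∧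
    Real.exp (∑ i ∈ range J, ∑ j, (X j i - X' i)).re ^ 2 ≤
      2 * ‖∏ i ∈ range J, NK (K i) (4 * k) ((1 / (2 * (k:ℝ))) • ∑ j, (X j i - X' i))‖ := by
  have hk0 : (0:ℝ) < k := by exact_mod_cast hk
  have hθs : 4 * Real.exp (-(2 * (Rs:ℝ))) ≤ 1 / 40 := by linarith
  have hn : ∀ θ : ℂ, ‖θ‖ ≤ 1 / 40 → ‖1 + θ‖ ≤ 41 / 40 ∧ 39 / 40 ≤ ‖1 + θ‖ := by
    intro θ hθ
    constructor
    · refine (norm_add_le _ _).trans ?_
      rw [norm_one]; linarith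
    · have := norm_sub_norm_le (1:ℂ) (-θ)
      rw [norm_neg, norm_one, sub_neg_eq_add] at this
      linarith
  have hA' : 9 / 10 ≤ ‖P'‖ ^ k * ‖A'‖ := by
    have h1 := norm_sub_norm_le (1:ℂ) (1 - P' ^ k * A')
    rw [norm_one] at h1
    have e1 : (1:ℂ) - (1 - P' ^ k * A') = P' ^ k * A' := by ring
    rw [e1, norm_mul, norm_pow, norm_sub_rev] at h1
    linarith
  have hP'0 : 0 < ‖P'‖ := by
    rcases (norm_nonneg P').eq_or_lt with h | h
    · rw [← h, zero_pow (by omega), zero_mul] at hA'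
      norm_num at hA'
    · exact h
  have hPj : ∀ j, 0 < ‖P j‖ := fun j => by have := hPP j; linarith
  have hAj : ∀ j, ‖A j‖ ≤ 11 / 5 / ‖P'‖ := by
    intro j
    have h1 : ‖P j * A j‖ ≤ 11 / 10 := by
      have e1 : P j * A j = 1 + (P j * A j - 1) := by ring
      rw [e1]
      refine (norm_add_le _ _).trans ?_
      rw [norm_one]; have := hPA j; linarith
    rw [norm_mul] at h1
    rw [le_div_iff₀ hP'0]
    have h2 := mul_le_mul_of_nonneg_left (hPP j) (norm_nonneg (A j))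
    linarith
  have hre : ∀ w : ℂ, ‖Complex.exp w‖ = Real.exp w.re := fun w => Complex.norm_exp w
  obtain ⟨θ', hθ', he'⟩ := prod_Cl hck hX' (by linarith)
  obtain ⟨S', hS'⟩ : ∃ S', S' = ∑ i ∈ range J, X' i := ⟨_, rfl⟩
  rw [← hS'] at he'
  have hEsum : ∑ i ∈ range J, ∑ j, (X j i - X' i) = ∑ j, (∑ i ∈ range J, X j i) - k * S' := by
    have hc : ∀ i, ∑ _j : Fin k, X' i = (k:ℂ) * X' i := by
      intro i; rw [sum_const, card_univ, Fintype.card_fin, nsmul_eq_mul]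
    have h1 : ∀ i, ∑ j, (X j i - X' i) = ∑ j, X j i - (k:ℂ) * X' i := by
      intro i; rw [sum_sub_distrib, hc]
    rw [sum_congr rfl fun i _ => h1 i, sum_sub_distrib, sum_comm, ← mul_sum, hS']
  constructor
  · rw [norm_prod, hEsum]
    have hf : ∀ j : Fin k, ‖A j * ∏ i ∈ range J, NK (K i) 1 (X j i)‖ ≤
        (11 / 5 / ‖P'‖ * (41 / 40)) * Real.exp (∑ i ∈ range J, X j i).re := by
      intro j
      obtain ⟨θ, hθ, he⟩ := prod_Cl hc1 (hX j) (by linarith)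
      rw [he, norm_mul, norm_mul, Complex.ofReal_one, one_mul, hre]
      have h1 := (hn θ (hθ.trans hθs)).1
      have h2 := hAj j
      calc ‖A j‖ * (Real.exp (∑ i ∈ range J, X j i).re * ‖1 + θ‖) ≤ 11 / 5 / ‖P'‖ * (Real.exp (∑ i ∈ range J, X j i).re * (41 / 40)) := by
            gcongr
        _ = _ := by ring
    have h1 : ∏ j : Fin k, ‖A j * ∏ i ∈ range J, NK (K i) 1 (X j i)‖ ≤
        ∏ j : Fin k, ((11 / 5 / ‖P'‖ * (41 / 40)) * Real.exp (∑ i ∈ range J, X j i).re) :=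
      prod_le_prod (fun _ _ => norm_nonneg _) fun j _ => hf j
    refine h1.trans ?_
    rw [prod_mul_distrib, prod_const, card_univ, Fintype.card_fin, ← Real.exp_sum]
    rw [he', norm_mul, norm_mul, hre]
    have h39 := (hn θ' (hθ'.trans hθs)).2
    have e5 : (∑ j : Fin k, (∑ i ∈ range J, X j i) - (k:ℂ) * S').re = ∑ j : Fin k, (∑ i ∈ range J, X j i).re - k * S'.re := by
      rw [Complex.sub_re, Complex.re_sum, Complex.mul_re, Complex.natCast_re, Complex.natCast_im, zero_mul, sub_zero]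
    have e6 : ((((k:ℕ):ℝ):ℂ) * S').re = k * S'.re := by
      rw [Complex.mul_re, Complex.ofReal_re, Complex.ofReal_im, zero_mul, sub_zero]
    rw [e5, e6, Real.exp_sub]
    have hx := Real.exp_pos (k * S'.re)
    have hy := Real.exp_pos (∑ j : Fin k, (∑ i ∈ range J, X j i).re)
    set x := Real.exp (k * S'.re)
    set Y := Real.exp (∑ j : Fin k, (∑ i ∈ range J, X j i).re)
    have e7 : 2 * 3 ^ k * (‖A'‖ * (x * ‖1 + θ'‖)) * (Y / x) = (2 * 3 ^ k * ‖A'‖ * ‖1 + θ'‖) * Y := by field_simp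
    rw [e7]
    refine mul_le_mul_of_nonneg_right ?_ hy.le
    have hp : 0 < ‖P'‖ ^ k := by positivity
    have e8 : (11 / 5 / ‖P'‖ * (41 / 40)) ^ k = (451 / 200) ^ k / ‖P'‖ ^ k := by
      rw [← div_pow]; congr 1; field_simp; norm_num
    rw [e8, div_le_iff₀ hp]
    have h3 : (451 / 200 : ℝ) ^ k ≤ 3 ^ k := pow_le_pow_left₀ (by norm_num) (by norm_num) k
    have h3k : (0:ℝ) < 3 ^ k := by positivity
    have e9 : 2 * 3 ^ k * ‖A'‖ * ‖1 + θ'‖ * ‖P'‖ ^ k = 2 * 3 ^ k * (‖P'‖ ^ k * ‖A'‖) * ‖1 + θ'‖ := by ring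
    rw [e9]
    calc (451 / 200 : ℝ) ^ k ≤ 3 ^ k := h3
      _ ≤ 2 * 3 ^ k * (9 / 10) * (39 / 40) := by linarith
      _ ≤ _ := by gcongr
  · have hq : ∀ i ∈ range J, ‖(1 / (2 * (k:ℝ))) • ∑ j, (X j i - X' i)‖ ≤ (RR Rs i : ℝ) := by
      intro i hi
      rw [norm_smul, Real.norm_of_nonneg (by positivity)]
      have h1 : ‖∑ j : Fin k, (X j i - X' i)‖ ≤ k * (2 * (RR Rs i : ℝ)) := by
        refine (norm_sum_le _ _).trans ?_
        have h2 : ∀ j ∈ (univ : Finset (Fin k)), ‖X j i - X' i‖ ≤ 2 * (RR Rs i : ℝ) := fun j _ => by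
          have := norm_sub_le (X j i) (X' i)
          have := hX j i hi
          have := hX' i hi
          linarith
        refine (sum_le_sum h2).trans ?_
        rw [sum_const, card_univ, Fintype.card_fin, nsmul_eq_mul]
      calc 1 / (2 * (k:ℝ)) * ‖∑ j : Fin k, (X j i - X' i)‖ ≤ 1 / (2 * (k:ℝ)) * (k * (2 * (RR Rs i : ℝ))) := by gcongr
        _ = _ := by field_simp
    obtain ⟨θ, hθ, he⟩ := prod_Cl hc4 hq (by linarith)
    have h39 := (hn θ (hθ.trans hθs)).2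
    have e1 : (((4 * (k:ℝ) : ℝ)) : ℂ) * ∑ i ∈ range J, (1 / (2 * (k:ℝ))) • ∑ j, (X j i - X' i) =
        2 * ∑ i ∈ range J, ∑ j, (X j i - X' i) := by
      rw [← smul_sum, Complex.real_smul]
      have : (k:ℂ) ≠ 0 := by exact_mod_cast hk0.ne'
      push_cast
      field_simp
      ring
    rw [he, norm_mul, e1, hre]
    have e2 : (2 * ∑ i ∈ range J, ∑ j, (X j i - X' i)).re = 2 * (∑ i ∈ range J, ∑ j, (X j i - X' i)).re := by
      rw [Complex.mul_re]; simp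
    rw [e2]
    have e3 : Real.exp (∑ i ∈ range J, ∑ j, (X j i - X' i)).re ^ 2 = Real.exp (2 * (∑ i ∈ range J, ∑ j, (X j i - X' i)).re) := by
      rw [← Real.exp_nat_mul]; push_cast; rfl
    rw [e3]
    have := Real.exp_pos (2 * (∑ i ∈ range J, ∑ j, (X j i - X' i)).re)
    nlinarith

end Pool.Agent.Y753.SH
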