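import Pool.Agent.Y753.SH.Sh9

set_option autoImplicit false

/-! The limits of the shifted moments along a path. -/

namespace Pool.Agent.Y753.SH

open Finset Filter MeasureTheory MonoidAlgebra Topology
open Pool.Agent.Y755
open Pool.Agent.W184.NZ
open Pool.Agent.Y753.NL
open Pool.Agent.H306R2 (dv dv_nonneg dv_one aF)

/-- the limit -/
theorem lim_S (hDG : S_DIAG) {σ : ℕ → ℝ} {δ : ℝ → ℝ} (hδ0 : Tendsto δ atTop (𝓝 0))
    (hδL : Tendsto (fun T => δ T * Real.log T) atTop atTop) {U : ℝ → Set ℝ} {S : ℝ → ℕ} (hS : Tendsto S atTop atTop)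
    (hU : ∀ᶠ T in atTop, StS σ (S T) T (δ T) (U T)) {k : ℕ} (hk : 1 ≤ k) (a b : Fin k → ℝ) (ha : ∀ j, ∃ i, a j = σ i)
    (hb : ∀ j, ∃ i, b j = σ i) :
    Tendsto (fun T : ℝ => (((2 * δ T) ^ (k ^ 2) : ℝ) : ℂ) * ((∫ t in U T, Cx.zp (δ T) a t * (starRingEnd ℂ) (Cx.zp (δ T) b t)) / ((T:ℝ):ℂ)))
      atTop (𝓝 ((aF k : ℂ) * ∏ j, ∏ l, (1 + Complex.I * ((a j - b l : ℝ) : ℂ) / 2)⁻¹)) := by
  have hpos : ∀ᶠ T in atTop, 0 < δ T := by
    filter_upwards [hδL.eventually_gt_atTop 0, eventually_gt_atTop 1] with T hT hT1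
    exact (pos_iff_pos_of_mul_pos hT).mpr (Real.log_pos hT1)
  have hk0 : (0:ℝ) < k := by exact_mod_cast hk
  obtain ⟨C, hC, hone⟩ := one_T
  -- the diagonal
  have h1 : Tendsto δ atTop (𝓝[>] 0) := tendsto_nhdsWithin_iff.mpr ⟨hδ0, hpos⟩
  have hdiag := (hDG k hk a b).comp h1
  -- the errors
  have hpw : ∀ x : ℝ, x ^ ((k:ℝ) ^ 2) = x ^ (k ^ 2) := fun x => by rw [← Nat.cast_pow, Real.rpow_natCast]
  have hD : Tendsto (fun T => (2 * δ T) ^ (k ^ 2) * DD k (δ T)) atTop (𝓝 (aF k)) := by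
    have := DD_asym hk0 hpos hδ0
    simp_rw [hpw] at this
    exact this
  have hD2 : Tendsto (fun T => (2 * (δ T / 2)) ^ (k ^ 2) * DD k (δ T / 2)) atTop (𝓝 (aF k)) := by
    have := DD_asym hk0 (hpos.mono fun T hT => by positivity : ∀ᶠ T in atTop, 0 < δ T / 2) (by simpa using hδ0.div_const 2)
    simp_rw [hpw] at this
    exact this
  have hs : Tendsto (fun T => √(1 / ((S T : ℝ) + 1))) atTop (𝓝 0) := by
    have := (inv_N (N := S) hS).sqrt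
    simpa using this
  have hL4 : Tendsto (fun T : ℝ => 2 * (L0 T : ℝ) ^ 4 / T) atTop (𝓝 0) := by
    have h2 : Tendsto (fun T : ℝ => 4 * T ^ (-((3:ℝ)/5))) atTop (𝓝 0) := by
      have := (tendsto_rpow_neg_atTop (show (0:ℝ) < 3 / 5 by norm_num)).const_mul 4
      simpa using this
    refine squeeze_zero' ?_ ?_ h2
    · filter_upwards [eventually_gt_atTop 0] with T hT
      positivity
    · filter_upwards [eventually_ge_atTop 1] with T hT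
      have hT0 : 0 < T := by linarith
      have h3 : (L0 T : ℝ) ≤ (2 * T) ^ ((1:ℝ)/10) := Nat.floor_le (by positivity)
      have h4 : (L0 T : ℝ) ^ 4 ≤ 2 * T ^ ((2:ℝ)/5) := by
        calc (L0 T : ℝ) ^ 4 ≤ ((2 * T) ^ ((1:ℝ)/10)) ^ 4 := pow_le_pow_left₀ (Nat.cast_nonneg _) h3 4
          _ = (2 * T) ^ ((2:ℝ)/5) := by rw [← Real.rpow_natCast, ← Real.rpow_mul (by linarith)]; norm_num
          _ = 2 ^ ((2:ℝ)/5) * T ^ ((2:ℝ)/5) := Real.mul_rpow (by norm_num) hT0.le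
          _ ≤ 2 * T ^ ((2:ℝ)/5) := by
              refine mul_le_mul_of_nonneg_right ?_ (by positivity)
              calc (2:ℝ) ^ ((2:ℝ)/5) ≤ 2 ^ (1:ℝ) := Real.rpow_le_rpow_of_exponent_le (by norm_num) (by norm_num)
                _ = 2 := Real.rpow_one 2
      rw [div_le_iff₀ hT0]
      have e1 : 4 * T ^ (-((3:ℝ)/5)) * T = 4 * T ^ ((2:ℝ)/5) := by
        rw [mul_assoc, ← Real.rpow_add_one hT0.ne']; norm_num
      rw [e1]
      linarith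
  have hexp : Tendsto (fun T : ℝ => ((L0 T : ℕ) : ℝ) ^ (-(δ T))) atTop (𝓝 0) := by
    have h2 := Real.tendsto_exp_neg_atTop_nhds_zero.comp (N0_log hpos hδL)
    refine h2.congr' ?_
    filter_upwards [(N0_log hpos hδL).eventually_gt_atTop 0] with T hT
    have n1 : 1 ≤ L0 T := by
      unfold L0
      rcases Nat.eq_zero_or_pos (⌊(2 * T) ^ ((1:ℝ)/10)⌋₊) with h | h
      · rw [h] at hT; simp at hT
      · exact h
    have hn0 : (0:ℝ) < L0 T := by exact_mod_cast n1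
    rw [Real.rpow_def_of_pos hn0]
    simp only [Function.comp]
    unfold L0
    congr 1; ring
  have herr : Tendsto (fun T : ℝ => C * (√(1 / ((S T : ℝ) + 1)) * ((2 * δ T) ^ (k ^ 2) * DD k (δ T))) +
      2 * (L0 T : ℝ) ^ 4 / T * ((2 * δ T) ^ (k ^ 2) * DD k (δ T)) +
      2 ^ (k ^ 2) * (((L0 T : ℕ) : ℝ) ^ (-(δ T)) * ((2 * (δ T / 2)) ^ (k ^ 2) * DD k (δ T / 2)))) atTop (𝓝 0) := by
    have := (((hs.mul hD).const_mul C).add (hL4.mul hD)).add ((hexp.mul hD2).const_mul (2 ^ (k ^ 2)))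
    simpa using this
  have hdiff : Tendsto (fun T : ℝ => (((2 * δ T) ^ (k ^ 2) : ℝ) : ℂ) *
      ((∫ t in U T, Cx.zp (δ T) a t * (starRingEnd ℂ) (Cx.zp (δ T) b t)) / ((T:ℝ):ℂ)) -
      (((2 * δ T) ^ (k ^ 2) : ℝ) : ℂ) * ∑' n : ℕ, ds (δ T) a n * (starRingEnd ℂ) (ds (δ T) b n) *
        (((n:ℝ) ^ (-(1 + 2 * δ T)) : ℝ) : ℂ)) atTop (𝓝 0) := by
    rw [tendsto_zero_iff_norm_tendsto_zero]
    obtain ⟨n0, hn0⟩ : ∃ n0 : ℕ, ∀ j, (∃ i, i ≤ n0 ∧ a j = σ i) ∧ (∃ i, i ≤ n0 ∧ b j = σ i) := by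
      choose ia hia using ha
      choose ib hib using hb
      refine ⟨∑ j, ia j + ∑ j, ib j, fun j => ⟨⟨ia j, ?_, hia j⟩, ⟨ib j, ?_, hib j⟩⟩⟩
      · have := single_le_sum (f := ia) (fun _ _ => Nat.zero_le _) (mem_univ j)
        omega
      · have := single_le_sum (f := ib) (fun _ _ => Nat.zero_le _) (mem_univ j)
        omega
    refine squeeze_zero' (Eventually.of_forall fun T => norm_nonneg _) ?_ herr
    filter_upwards [hU, hpos, hS.eventually_ge_atTop (k + n0), eventually_ge_atTop 1, N0_le,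
      hδ0.eventually (gt_mem_nhds (show (0:ℝ) < 1 / 2 by norm_num)), (N0_log hpos hδL).eventually_gt_atTop 0] with
      T t1 t2 t3 t4 t5 t6 t7
    have hT0 : 0 < T := by linarith
    have n1 : 1 ≤ L0 T := by
      unfold L0
      rcases Nat.eq_zero_or_pos (⌊(2 * T) ^ ((1:ℝ)/10)⌋₊) with h | h
      · rw [h] at t7; simp at t7
      · exact h
    have q1 := hone σ (S T) T (δ T) (U T) t1 t2 t6 t4 t5 k hk (by omega) a b
      (fun j => by obtain ⟨i, hi, h⟩ := (hn0 j).1; exact ⟨i, by omega, h⟩)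
      (fun j => by obtain ⟨i, hi, h⟩ := (hn0 j).2; exact ⟨i, by omega, h⟩)
    have q2 := tail_dg hk t2 n1 a b
    obtain ⟨I, hI⟩ : ∃ I, I = ∫ t in U T, Cx.zp (δ T) a t * (starRingEnd ℂ) (Cx.zp (δ T) b t) := ⟨_, rfl⟩
    obtain ⟨G, hG⟩ : ∃ G, G = dg (δ T) (Icc 1 (L0 T)) (Da (fun j => a j * δ T) (L0 T)) (Da (fun j => b j * δ T) (L0 T)) := ⟨_, rfl⟩
    obtain ⟨V, hV⟩ : ∃ V, V = ∑' n : ℕ, ds (δ T) a n * (starRingEnd ℂ) (ds (δ T) b n) *
        (((n:ℝ) ^ (-(1 + 2 * δ T)) : ℝ) : ℂ) := ⟨_, rfl⟩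
    rw [← hI, ← hG] at q1
    rw [← hG, ← hV] at q2
    rw [← hI, ← hV]
    have hTc : ((T:ℝ):ℂ) ≠ 0 := by exact_mod_cast hT0.ne'
    have e1 : (((2 * δ T) ^ (k ^ 2) : ℝ) : ℂ) * (I / ((T:ℝ):ℂ)) - (((2 * δ T) ^ (k ^ 2) : ℝ) : ℂ) * V =
        (((2 * δ T) ^ (k ^ 2) : ℝ) : ℂ) * ((I - ((T:ℝ):ℂ) * G) / ((T:ℝ):ℂ) + (G - V)) := by
      field_simp
      ring
    have hp0 : 0 ≤ (2 * δ T) ^ (k ^ 2) := by positivity
    rw [e1, norm_mul, Complex.norm_real, Real.norm_of_nonneg hp0]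
    have e2 : ‖(I - ((T:ℝ):ℂ) * G) / ((T:ℝ):ℂ) + (G - V)‖ ≤
        (C * (√(1 / ((S T : ℝ) + 1)) * (T * DD k (δ T))) + 2 * (L0 T : ℝ) ^ 4 * DD k (δ T)) / T +
          (L0 T : ℝ) ^ (-(δ T)) * DD k (δ T / 2) := by
      refine (norm_add_le _ _).trans (add_le_add ?_ q2)
      rw [norm_div, Complex.norm_real, Real.norm_of_nonneg hT0.le]
      exact div_le_div_of_nonneg_right q1 hT0.le
    refine (mul_le_mul_of_nonneg_left e2 hp0).trans (le_of_eq ?_)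
    have e3 : (2 * δ T) ^ (k ^ 2) = 2 ^ (k ^ 2) * (2 * (δ T / 2)) ^ (k ^ 2) := by
      rw [← mul_pow]; congr 1; ring
    have e4 : (2 * δ T) ^ (k ^ 2) * ((L0 T : ℝ) ^ (-(δ T)) * DD k (δ T / 2)) =
        2 ^ (k ^ 2) * (((L0 T : ℕ) : ℝ) ^ (-(δ T)) * ((2 * (δ T / 2)) ^ (k ^ 2) * DD k (δ T / 2))) := by
      rw [e3]; ring
    rw [mul_add, e4]
    congr 1
    field_simp
  have h2 := hdiff.add hdiag
  rw [zero_add] at h2
  refine h2.congr fun T => ?_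
  simp only [Function.comp]
  ring

end Pool.Agent.Y753.SH
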