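import Pool.Agent.Y753.SH.Sh1

set_option autoImplicit false

/-! Auxiliary polynomials for the change of weight. -/

namespace Pool.Agent.Y753.SH

open Finset Filter MeasureTheory MonoidAlgebra Topology
open Pool.Agent.Y755
open Pool.Agent.W184.NZ
open Pool.Agent.Y753.NL
open Pool.Agent.H306R2 (dv dv_nonneg dv_one)

lemma yb_coeff (b : ℕ → ℝ) (I : Finset ℕ) (n : ℕ) : (yb b I).coeff n = if n ∈ I then b n else 0 := by
  classical
  unfold yb
  rw [coeff_sum, Finsupp.finsetSum_apply]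
  simp_rw [coeff_single, Finsupp.single_apply]
  rw [sum_ite_eq' I n (fun m => b m)]

lemma x1_eq_yb (I : Finset ℕ) : x1 I = yb (fun _ => 1) I := rfl

lemma x1_coeff (I : Finset ℕ) (n : ℕ) : (x1 I).coeff n = if n ∈ I then 1 else 0 := by
  rw [x1_eq_yb, yb_coeff]

lemma ncpow_lip {n : ℕ} (hn : n ≠ 0) (u v : ℝ) :
    ‖(n:ℂ) ^ (-((u:ℂ) * Complex.I)) - (n:ℂ) ^ (-((v:ℂ) * Complex.I))‖ ≤ |u - v| * Real.log n := by
  have hnc : (n:ℂ) ≠ 0 := by exact_mod_cast hn
  have hl : 0 ≤ Real.log n := Real.log_natCast_nonneg n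
  have e1 : ∀ w : ℝ, (n:ℂ) ^ (-((w:ℂ) * Complex.I)) = Complex.exp (((-(w * Real.log n) : ℝ) : ℂ) * Complex.I) := by
    intro w
    rw [Complex.cpow_def_of_ne_zero hnc, ← Complex.natCast_log]
    congr 1; push_cast; ring
  rw [e1, e1]
  have h1 : Complex.exp (((-(u * Real.log n) : ℝ) : ℂ) * Complex.I) - Complex.exp (((-(v * Real.log n) : ℝ) : ℂ) * Complex.I) =
      Complex.exp (((-(v * Real.log n) : ℝ) : ℂ) * Complex.I) *
        (Complex.exp (Complex.I * (((v - u) * Real.log n : ℝ) : ℂ)) - 1) := by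
    rw [mul_sub, ← Complex.exp_add, mul_one]
    congr 2
    push_cast; ring
  rw [h1, norm_mul, Complex.norm_exp_ofReal_mul_I, one_mul]
  refine (Real.norm_exp_I_mul_ofReal_sub_one_le (x := (v - u) * Real.log n)).trans (le_of_eq ?_)
  rw [Real.norm_eq_abs, abs_mul, abs_of_nonneg hl, abs_sub_comm]

/-- the change of weight in a block -/
noncomputable def Yi {k : ℕ} (h : Fin k → ℝ) (h' : ℝ) (I : Finset ℕ) : PC :=
  (1 / (2 * (k:ℝ))) • ∑ j, (sh (h j) (x1 I) - sh h' (x1 I))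

lemma Yi_Do {k : ℕ} (hk : 1 ≤ k) {h : Fin k → ℝ} {h' H δ : ℝ} (hH : ∀ j, |h j - h'| ≤ 2 * H * δ)
    {I : Finset ℕ} (hI : ∀ p ∈ I, p ≠ 0) : Do (yb (fun p => min 1 (H * (δ * Real.log p))) I) (Yi h h' I) := by
  intro n
  have hk0 : (0:ℝ) < k := by exact_mod_cast hk
  unfold Yi
  rw [coeff_smul, Finsupp.smul_apply, coeff_sum, Finsupp.finsetSum_apply, yb_coeff, norm_smul, Real.norm_of_nonneg (by positivity)]
  have e1 : ∀ j, (sh (h j) (x1 I) - sh h' (x1 I)).coeff n = (if n ∈ I then 1 else 0) *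
      ((n:ℂ) ^ (-((h j : ℂ) * Complex.I)) - (n:ℂ) ^ (-((h' : ℂ) * Complex.I))) := by
    intro j
    rw [coeff_sub, Finsupp.sub_apply, sh_coeff, sh_coeff, x1_coeff]
    split_ifs <;> push_cast <;> ring
  simp_rw [e1]
  split_ifs with hn
  · have hn0 := hI n hn
    simp only [one_mul]
    have h2 : ‖∑ j : Fin k, ((n:ℂ) ^ (-((h j : ℂ) * Complex.I)) - (n:ℂ) ^ (-((h' : ℂ) * Complex.I)))‖ ≤
        k * (2 * min 1 (H * (δ * Real.log n))) := by
      refine (norm_sum_le _ _).trans ?_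
      have h3 : ∀ j ∈ (univ : Finset (Fin k)), ‖(n:ℂ) ^ (-((h j : ℂ) * Complex.I)) - (n:ℂ) ^ (-((h' : ℂ) * Complex.I))‖ ≤
          2 * min 1 (H * (δ * Real.log n)) := by
        intro j _
        rw [mul_min_of_nonneg _ _ (by norm_num : (0:ℝ) ≤ 2)]
        refine le_min ?_ ?_
        · refine (norm_sub_le _ _).trans ?_
          rw [norm_ncpow hn0, norm_ncpow hn0]; norm_num
        · refine (ncpow_lip hn0 _ _).trans ?_
          have := mul_le_mul_of_nonneg_right (hH j) (Real.log_natCast_nonneg n)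
          linarith
      refine (sum_le_sum h3).trans ?_
      rw [sum_const, card_univ, Fintype.card_fin, nsmul_eq_mul]
    calc 1 / (2 * (k:ℝ)) * _ ≤ 1 / (2 * (k:ℝ)) * (k * (2 * min 1 (H * (δ * Real.log n)))) :=
          mul_le_mul_of_nonneg_left h2 (by positivity)
      _ = _ := by field_simp
  · simp

/-- the damped polynomial -/
noncomputable def Hh {k : ℕ} (h : Fin k → ℝ) (f : P1) : PC :=
  ∑ n ∈ f.coeff.support, single n (dh h n * ((f.coeff n / dv k n : ℝ) : ℂ))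

lemma Hh_coeff {k : ℕ} (h : Fin k → ℝ) (f : P1) (n : ℕ) :
    (Hh h f).coeff n = if n ∈ f.coeff.support then dh h n * ((f.coeff n / dv k n : ℝ) : ℂ) else 0 := by
  classical
  unfold Hh
  rw [coeff_sum, Finsupp.finsetSum_apply]
  simp_rw [coeff_single, Finsupp.single_apply]
  rw [sum_ite_eq' f.coeff.support n (fun m => dh h m * ((f.coeff m / dv k m : ℝ) : ℂ))]

lemma Hh_Do {k : ℕ} (h : Fin k → ℝ) {f : P1} (hf : ∀ n, 0 ≤ f.coeff n ∧ f.coeff n ≤ dv k n) {N : ℝ} (hN : Bd1 N f) :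
    Do f (Hh h f) := by
  intro n
  rw [Hh_coeff]
  split_ifs with h1
  · have hn0 := (hN n h1).1
    have hd := hf n
    have hd0 : 0 ≤ dv (k:ℝ) n := hd.1.trans hd.2
    rw [norm_mul, Complex.norm_real, Real.norm_of_nonneg (div_nonneg hd.1 hd0)]
    have h2 := dh_le h hn0
    rcases hd0.eq_or_lt with h3 | h3
    · rw [← h3, div_zero, mul_zero]; exact hd.1
    · calc ‖dh h n‖ * (f.coeff n / dv k n) ≤ dv k n * (f.coeff n / dv k n) :=
            mul_le_mul_of_nonneg_right h2 (div_nonneg hd.1 hd0)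
        _ = f.coeff n := by field_simp
  · rw [norm_zero]; exact (hf n).1

lemma Hh_diff {k N : ℕ} (h : Fin k → ℝ) {f : P1} (hf : ∀ n, 0 ≤ f.coeff n ∧ f.coeff n ≤ dv k n) (hN : Bd1 N f) :
    Do (DN k N - f) (Da h N - Hh h f) := by
  intro n
  rw [coeff_sub, coeff_sub, Finsupp.sub_apply, Finsupp.sub_apply, Da_coeff, DN_coeff, Hh_coeff]
  by_cases h1 : n ∈ Icc 1 N
  · rw [if_pos h1, if_pos h1]
    rw [mem_Icc] at h1
    have h2 := dh_le h (n := n) (by omega)
    have hd := hf n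
    split_ifs with h3
    · rcases (hd.1.trans hd.2).eq_or_lt with h4 | h4
      · have h5 : f.coeff n = 0 := le_antisymm (hd.2.trans (le_of_eq h4.symm)) hd.1
        exact absurd h5 (Finsupp.mem_support_iff.mp h3)
      · have e1 : dh h n - dh h n * ((f.coeff n / dv k n : ℝ) : ℂ) = dh h n * ((1 - f.coeff n / dv k n : ℝ) : ℂ) := by
          push_cast; ring
        have h5 : f.coeff n / dv k n ≤ 1 := by rw [div_le_one h4]; exact hd.2
        rw [e1, norm_mul, Complex.norm_real, Real.norm_of_nonneg (by linarith)]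
        calc ‖dh h n‖ * (1 - f.coeff n / dv k n) ≤ dv k n * (1 - f.coeff n / dv k n) :=
              mul_le_mul_of_nonneg_right h2 (by linarith)
          _ = dv k n - f.coeff n := by field_simp
    · rw [sub_zero, Finsupp.notMem_support_iff.mp h3, sub_zero]
      exact h2
  · rw [if_neg h1, if_neg h1]
    have h2 : n ∉ f.coeff.support := by
      intro h3
      have := hN n h3
      apply h1
      rw [mem_Icc]
      exact ⟨Nat.pos_of_ne_zero this.1, by exact_mod_cast this.2⟩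
    rw [if_neg h2, Finsupp.notMem_support_iff.mp h2]
    simp

end Pool.Agent.Y753.SH
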