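import Pool.Agent.Y753.SH.Sh2

set_option autoImplicit false

/-! The window: closeness of a product of shifts and its Dirichlet polynomial. -/

namespace Pool.Agent.Y753.SH

open Finset Filter MeasureTheory MonoidAlgebra Topology
open Pool.Agent.Y755
open Pool.Agent.W184.NZ
open Pool.Agent.Y753.NL
open Pool.Agent.H306R2 (dv dv_nonneg dv_one)

/-- the polynomial close to a power of zeta -/
noncomputable def fp (k M z K0 : ℕ) (y : ℝ) (J Rs : ℕ) : P1 := Az k K0 z * Bm M k z y J Rs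

/-- the star polynomial -/
noncomputable def gst (k M z K0 : ℕ) (H δ y : ℝ) (J Rs : ℕ) : P1 :=
  Az k K0 z * ∏ i ∈ range J, (NK (20 * (M * RR Rs i)) k (x1 (IZ z y i)) *
        NK (20 * (M * RR Rs i)) (4 * k) (yb (fun p => min 1 (H * (δ * Real.log p))) (IZ z y i)))

/-- the data of a window -/
structure Cx (k M z Rs J K0 N Ns Ks : ℕ) (ε e1 c y δ T CM CS H : ℝ) : Prop where
  k1 : 1 ≤ k
  kM : 2 * k ≤ M
  e0 : 0 < ε
  e01 : ε ≤ 1 / 10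
  e10 : 0 < e1
  p1 : (1 + e1) ^ (2 * (M:ℝ)) ≤ 1 + ε
  h4a : 4 * Real.exp (-(2 * (Rs:ℝ))) ≤ ε / 4
  sy : Sy c z y J Rs Ns Ks
  δ0 : 0 < δ
  δ1 : δ ≤ 1 / 16
  T1 : 1 ≤ T
  zc1 : ∀ s : ℂ, 1 / 2 ≤ s.re → ‖es s (Pz z) ^ 1 * es s (Az 1 K0 z) - 1‖ ≤ ε
  zck : ∀ s : ℂ, 1 / 2 ≤ s.re → ‖es s (Pz z) ^ k * es s (Az k K0 z) - 1‖ ≤ ε
  pr : ∀ t h : ℝ, |h| ≤ 2 * H * δ → ‖es (1 / 2 + δ + t * Complex.I) (Pz z)‖ ≤ 2 * ‖es (1 / 2 + δ + (t + h : ℝ) * Complex.I) (Pz z)‖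
  c1 : ∀ n, 0 ≤ (fp 1 M z K0 y J Rs).coeff n ∧ (fp 1 M z K0 y J Rs).coeff n ≤ 1
  ck : ∀ n, 0 ≤ (fp k M z K0 y J Rs).coeff n ∧ (fp k M z K0 y J Rs).coeff n ≤ dv k n
  b1 : Bd1 N (fp 1 M z K0 y J Rs ^ k)
  bk : Bd1 N (fp k M z K0 y J Rs)
  NT : (N:ℝ) ≤ T / 2
  low : (1 - 3 * ε) * DD k δ ≤ ip δ (fp k M z K0 y J Rs) (fp k M z K0 y J Rs)
  Q : ∑ i ∈ range J, ip δ (fp k M z K0 y J Rs * Qe (RR Rs i) (IZ z y i)) (fp k M z K0 y J Rs * Qe (RR Rs i) (IZ z y i)) ≤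
    ε * DD k δ
  bQ : ∀ i < J, Bd1 (T / 2) (fp k M z K0 y J Rs * Qe (RR Rs i) (IZ z y i))
  st : ip δ (gst k M z K0 H δ y J Rs) (gst k M z K0 H δ y J Rs) ≤ CS * DD k δ
  bS : Bd1 (T / 2) (gst k M z K0 H δ y J Rs)
  off : ∫ t in Set.Ioc (T ^ ((4:ℝ)/5)) (T / 2) \ Gh z y J Rs e1 δ,
        ‖es (1 / 2 + δ + t * Complex.I) (fp k M z K0 y J Rs)‖ ^ 2 ≤ ε * (T * DD k δ)
  mv : ∀ (g : P1) (A : PC), Do g A → Bd1 (T / 2) g →
    ∫ t in (0:ℝ)..T, ‖ec (1 / 2 + δ + t * Complex.I) A‖ ^ 2 ≤ CM * (T * ip δ g g)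
  CM0 : 0 ≤ CM
  CS0 : 0 ≤ CS
  H0 : 0 ≤ H

namespace Cx

variable {k M z Rs J K0 N Ns Ks : ℕ} {ε e1 c y δ T CM CS H : ℝ}

lemma hre (X : Cx k M z Rs J K0 N Ns Ks ε e1 c y δ T CM CS H) (t : ℝ) : 1 / 2 ≤ (1 / 2 + (δ:ℂ) + t * Complex.I).re := by
  rw [half_re]; have := X.δ0; linarith

lemma hre' (X : Cx k M z Rs J K0 N Ns Ks ε e1 c y δ T CM CS H) (t : ℝ) : 0 < (1 / 2 + (δ:ℂ) + t * Complex.I).re := by
  have := X.hre t; linarith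

lemma D1 (X : Cx k M z Rs J K0 N Ns Ks ε e1 c y δ T CM CS H) : 1 ≤ DD k δ :=
  DD_ge_one (by have := X.k1; exact_mod_cast this) X.δ0

lemma k0 (X : Cx k M z Rs J K0 N Ns Ks ε e1 c y δ T CM CS H) : (0:ℝ) < k := by
  have := X.k1; exact_mod_cast this

/-- evaluation of a product of shifts -/
lemma ec_Fa (X : Cx k M z Rs J K0 N Ns Ks ε e1 c y δ T CM CS H) (a : Fin k → ℝ) (f : P1) (t : ℝ) :
    ec (1 / 2 + δ + t * Complex.I) (Fa (fun j => a j * δ) f) = ∏ j, es (1 / 2 + δ + ((t + a j * δ : ℝ) : ℂ) * Complex.I) f := by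
  unfold Fa
  rw [map_prod]
  refine prod_congr rfl fun j _ => ?_
  rw [ec_sh (X.hre' t)]
  congr 1
  push_cast; ring

lemma f1nn (X : Cx k M z Rs J K0 N Ns Ks ε e1 c y δ T CM CS H) : Le (fp 1 M z K0 y J Rs) (fp 1 M z K0 y J Rs) :=
  fun n => ⟨(X.c1 n).1, le_rfl⟩

lemma fknn (X : Cx k M z Rs J K0 N Ns Ks ε e1 c y δ T CM CS H) : Le (fp k M z K0 y J Rs) (fp k M z K0 y J Rs) :=
  fun n => ⟨(X.ck n).1, le_rfl⟩

lemma f1k (X : Cx k M z Rs J K0 N Ns Ks ε e1 c y δ T CM CS H) (n : ℕ) :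
    0 ≤ (fp 1 M z K0 y J Rs ^ k).coeff n ∧ (fp 1 M z K0 y J Rs ^ k).coeff n ≤ dv k n := by
  refine ⟨((X.f1nn.pow k) n).1, ?_⟩
  rcases eq_or_ne n 0 with h0 | h0
  · subst h0
    have : (fp 1 M z K0 y J Rs ^ k).coeff 0 = 0 := by
      by_contra h1
      exact (X.b1 0 (Finsupp.mem_support_iff.mpr h1)).1 rfl
    rw [this]
    exact dv_nonneg X.k0.le 0
  · have := (dh_diff X.c1 (fun _ : Fin k => 0) n h0).1
    have := norm_nonneg (dh (fun _ : Fin k => (0:ℝ)) n - (Fa (fun _ : Fin k => 0) (fp 1 M z K0 y J Rs)).coeff n)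
    linarith

lemma ipf1 (X : Cx k M z Rs J K0 N Ns Ks ε e1 c y δ T CM CS H) :
    (1 - 3 * ε) * DD k δ ≤ ip δ (fp 1 M z K0 y J Rs ^ k) (fp 1 M z K0 y J Rs ^ k) ∧
      ip δ (fp 1 M z K0 y J Rs ^ k) (fp 1 M z K0 y J Rs ^ k) ≤ DD k δ := by
  constructor
  · refine X.low.trans (Le.ip ?_ δ)
    have h := f_pow_le K0 M z y J Rs k
    unfold fp
    rw [Nat.cast_one]
    exact h
  · have h1 := diff_ip X.k0 X.δ0 X.b1 X.f1k
    have h2 := ip_self_nonneg δ (DN k N - fp 1 M z K0 y J Rs ^ k)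
    linarith

lemma mvF (X : Cx k M z Rs J K0 N Ns Ks ε e1 c y δ T CM CS H) (h : Fin k → ℝ) :
    ∫ t in (0:ℝ)..T, ‖ec (1 / 2 + δ + t * Complex.I) (Fa h (fp 1 M z K0 y J Rs))‖ ^ 2 ≤ CM * (T * DD k δ) := by
  refine (X.mv _ _ (Fa_Do h X.f1nn) (X.b1.mono X.NT)).trans ?_
  have := X.ipf1.2
  have := X.CM0
  have := X.T1
  gcongr

lemma mvDF (X : Cx k M z Rs J K0 N Ns Ks ε e1 c y δ T CM CS H) (h : Fin k → ℝ) :
    ∫ t in (0:ℝ)..T, ‖ec (1 / 2 + δ + t * Complex.I) (Da h N - Fa h (fp 1 M z K0 y J Rs))‖ ^ 2 ≤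
      CM * (T * (3 * ε * DD k δ)) := by
  have hb : Bd1 (T / 2) (DN k N - fp 1 M z K0 y J Rs ^ k) := ((DN_Bd (k:ℝ) N).sub X.b1).mono X.NT
  refine (X.mv _ _ (Da_diff X.c1 X.b1 h) hb).trans ?_
  have h1 := diff_ip X.k0 X.δ0 X.b1 X.f1k
  have h2 := X.ipf1.1
  have := X.CM0
  have := X.T1
  have h3 : ip δ (DN k N - fp 1 M z K0 y J Rs ^ k) (DN k N - fp 1 M z K0 y J Rs ^ k) ≤ 3 * ε * DD k δ := by linarith
  gcongr

lemma mvDH (X : Cx k M z Rs J K0 N Ns Ks ε e1 c y δ T CM CS H) (h : Fin k → ℝ) :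
    ∫ t in (0:ℝ)..T, ‖ec (1 / 2 + δ + t * Complex.I) (Da h N - Hh h (fp k M z K0 y J Rs))‖ ^ 2 ≤
      CM * (T * (3 * ε * DD k δ)) := by
  have hb : Bd1 (T / 2) (DN k N - fp k M z K0 y J Rs) := ((DN_Bd (k:ℝ) N).sub X.bk).mono X.NT
  refine (X.mv _ _ (Hh_diff h X.ck X.bk) hb).trans ?_
  have h1 := diff_ip X.k0 X.δ0 X.bk X.ck
  have h2 := X.low
  have := X.CM0
  have := X.T1
  have h3 : ip δ (DN k N - fp k M z K0 y J Rs) (DN k N - fp k M z K0 y J Rs) ≤ 3 * ε * DD k δ := by linarith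
  gcongr

lemma ccF (X : Cx k M z Rs J K0 N Ns Ks ε e1 c y δ T CM CS H) (h : Fin k → ℝ) :
    Continuous fun t : ℝ => ec (1 / 2 + δ + t * Complex.I) (Fa h (fp 1 M z K0 y J Rs)) :=
  (Fa_Do h X.f1nn).cont X.b1 δ

lemma ccD (h : Fin k → ℝ) : Continuous fun t : ℝ => ec (1 / 2 + δ + t * Complex.I) (Da h N) :=
  (Da_Do h N).cont (DN_Bd (k:ℝ) N) δ

lemma ccDF (X : Cx k M z Rs J K0 N Ns Ks ε e1 c y δ T CM CS H) (h : Fin k → ℝ) :
    Continuous fun t : ℝ => ec (1 / 2 + δ + t * Complex.I) (Da h N - Fa h (fp 1 M z K0 y J Rs)) :=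
  (Da_diff X.c1 X.b1 h).cont ((DN_Bd (k:ℝ) N).sub X.b1) δ

lemma ccDH (X : Cx k M z Rs J K0 N Ns Ks ε e1 c y δ T CM CS H) (h : Fin k → ℝ) :
    Continuous fun t : ℝ => ec (1 / 2 + δ + t * Complex.I) (Da h N - Hh h (fp k M z K0 y J Rs)) :=
  (Hh_diff h X.ck X.bk).cont ((DN_Bd (k:ℝ) N).sub X.bk) δ

/-- the product of the shifted zeta functions -/
noncomputable def zp {k : ℕ} (δ : ℝ) (a : Fin k → ℝ) (t : ℝ) : ℂ := ∏ j, riemannZeta (1 / 2 + δ + ((t + a j * δ : ℝ) : ℂ) * Complex.I)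

lemma zp_cont {δ : ℝ} (hδ : δ < 1 / 2) (a : Fin k → ℝ) : Continuous (zp δ a) := by
  unfold zp
  refine continuous_finsetProd _ fun j _ => ?_
  have := zl_cont hδ
  exact this.comp (by fun_prop : Continuous fun t : ℝ => t + a j * δ)

/-- closeness on the good set -/
lemma close_pt (X : Cx k M z Rs J K0 N Ns Ks ε e1 c y δ T CM CS H) (a : Fin k → ℝ) {t : ℝ}
    (ht : ∀ j, t + a j * δ ∈ Gh z y J Rs e1 δ) :
    ‖zp δ a t - ec (1 / 2 + δ + t * Complex.I) (Fa (fun j => a j * δ) (fp 1 M z K0 y J Rs))‖ ≤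
      10 ^ k * ε * ‖ec (1 / 2 + δ + t * Complex.I) (Fa (fun j => a j * δ) (fp 1 M z K0 y J Rs))‖ := by
  rw [X.ec_Fa]
  unfold zp
  refine prod_near X.e0.le X.e01 fun j => ?_
  have hM1 : 1 ≤ M := by have := X.k1; have := X.kM; omega
  have hP := X.zc1 _ (X.hre (t + a j * δ))
  have h1 := on_good_c (J := J) (Rs := Rs) (K := fun i => 20 * (M * RR Rs i)) hM1 X.e10 X.e0 X.e01 X.p1
    (fun i => cl_M hM1 (hRR X.sy i) (by
      rw [Nat.cast_one, abs_one]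
      have : (1:ℝ) ≤ M := by exact_mod_cast hM1
      linarith)) X.h4a (riemannZeta (1 / 2 + δ + ((t + a j * δ : ℝ) : ℂ) * Complex.I))
    (es (1 / 2 + δ + ((t + a j * δ : ℝ) : ℂ) * Complex.I) (Pz z)) (es (1 / 2 + δ + ((t + a j * δ : ℝ) : ℂ) * Complex.I) (Az 1 K0 z))
    (fun i => PI (IZ z y i) (1 / 2 + δ + ((t + a j * δ : ℝ) : ℂ) * Complex.I)) (ht j) hP
  rw [← es_Bm, ← map_mul, pow_one] at h1
  unfold fp
  rw [Nat.cast_one] at h1 ⊢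
  exact h1

/-- closeness in mean square -/
theorem clS (X : Cx k M z Rs J K0 N Ns Ks ε e1 c y δ T CM CS H) (a : Fin k → ℝ) {U : Set ℝ} (hU : MeasurableSet U)
    (hUT : U ⊆ Set.Icc 0 T) (hG : ∀ t ∈ U, ∀ j, t + a j * δ ∈ Gh z y J Rs e1 δ) :
    ∫ t in U, ‖zp δ a t - ec (1 / 2 + δ + t * Complex.I) (Da (fun j => a j * δ) N)‖ ^ 2 ≤
      (2 * 100 ^ k + 6) * CM * ε * (T * DD k δ) := by
  set F := Fa (fun j => a j * δ) (fp 1 M z K0 y J Rs) with hF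
  set D := Da (fun j => a j * δ) N with hD
  have hT0 : 0 ≤ T := by have := X.T1; linarith
  have c1 : Continuous fun t : ℝ => 2 * 100 ^ k * ε ^ 2 * ‖ec (1 / 2 + δ + t * Complex.I) F‖ ^ 2 := ((X.ccF _).norm.pow 2).const_mul _
  have c2 : Continuous fun t : ℝ => 2 * ‖ec (1 / 2 + δ + t * Complex.I) (D - F)‖ ^ 2 := ((X.ccDF _).norm.pow 2).const_mul _
  have c3 : Continuous fun t : ℝ => ‖zp δ a t - ec (1 / 2 + δ + t * Complex.I) D‖ ^ 2 :=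
    ((zp_cont (by have := X.δ1; linarith) a).sub (ccD _)).norm.pow 2
  have hint : ∀ g : ℝ → ℝ, Continuous g → IntegrableOn g (Set.Icc 0 T) := fun g hg =>
    hg.continuousOn.integrableOn_compact isCompact_Icc
  have hpt : ∀ t ∈ U, ‖zp δ a t - ec (1 / 2 + δ + t * Complex.I) D‖ ^ 2 ≤
      2 * 100 ^ k * ε ^ 2 * ‖ec (1 / 2 + δ + t * Complex.I) F‖ ^ 2 + 2 * ‖ec (1 / 2 + δ + t * Complex.I) (D - F)‖ ^ 2 := by
    intro t ht
    have h1 := X.close_pt a (hG t ht)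
    rw [← hF] at h1
    have e1 : zp δ a t - ec (1 / 2 + δ + t * Complex.I) D = (zp δ a t - ec (1 / 2 + δ + t * Complex.I) F) +
        -ec (1 / 2 + δ + t * Complex.I) (D - F) := by rw [map_sub]; ring
    rw [e1]
    refine (sq_two _ _).trans ?_
    rw [norm_neg]
    refine add_le_add ?_ le_rfl
    have h2 := pow_le_pow_left₀ (norm_nonneg _) h1 2
    have e2 : (10 ^ k * ε * ‖ec (1 / 2 + δ + t * Complex.I) F‖) ^ 2 = 100 ^ k * ε ^ 2 * ‖ec (1 / 2 + δ + t * Complex.I) F‖ ^ 2 := by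
      rw [mul_pow, mul_pow, ← pow_mul, mul_comm k 2, pow_mul]; norm_num
    rw [e2] at h2
    linarith
  have h1 : ∫ t in U, ‖zp δ a t - ec (1 / 2 + δ + t * Complex.I) D‖ ^ 2 ≤
      ∫ t in U, (2 * 100 ^ k * ε ^ 2 * ‖ec (1 / 2 + δ + t * Complex.I) F‖ ^ 2 + 2 * ‖ec (1 / 2 + δ + t * Complex.I) (D - F)‖ ^ 2) :=
    setIntegral_mono_on ((hint _ c3).mono_set hUT) ((hint _ (c1.add c2)).mono_set hUT) hU hpt
  have h2 : ∫ t in U, (2 * 100 ^ k * ε ^ 2 * ‖ec (1 / 2 + δ + t * Complex.I) F‖ ^ 2 + 2 * ‖ec (1 / 2 + δ + t * Complex.I) (D - F)‖ ^ 2) ≤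
      ∫ t in Set.Icc 0 T, (2 * 100 ^ k * ε ^ 2 * ‖ec (1 / 2 + δ + t * Complex.I) F‖ ^ 2 + 2 * ‖ec (1 / 2 + δ + t * Complex.I) (D - F)‖ ^ 2) := by
    refine setIntegral_mono_set (hint _ (c1.add c2)) (Eventually.of_forall fun t => ?_) (Eventually.of_forall fun t ht => hUT ht)
    have := X.e0
    positivity
  rw [integral_add (hint _ c1) (hint _ c2), integral_const_mul, integral_const_mul, integral_Icc_eq_integral_Ioc,
    integral_Icc_eq_integral_Ioc, ← intervalIntegral.integral_of_le hT0, ← intervalIntegral.integral_of_le hT0] at h2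
  have m1 := X.mvF (fun j => a j * δ)
  have m2 := X.mvDF (fun j => a j * δ)
  rw [← hF] at m1
  rw [← hF, ← hD] at m2
  have hε := X.e0
  have hε1 := X.e01
  have m1' := mul_le_mul_of_nonneg_left m1 (by positivity : (0:ℝ) ≤ 2 * 100 ^ k * ε ^ 2)
  have hA : 0 ≤ CM * (T * DD k δ) := by
    have := X.CM0
    have := X.D1
    positivity
  have h5 : 2 * 100 ^ k * ε ^ 2 * (CM * (T * DD k δ)) ≤ 2 * 100 ^ k * ε * (CM * (T * DD k δ)) := by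
    refine mul_le_mul_of_nonneg_right ?_ hA
    refine mul_le_mul_of_nonneg_left ?_ (by positivity)
    nlinarith
  calc _ ≤ 2 * 100 ^ k * ε * (CM * (T * DD k δ)) + 2 * (CM * (T * (3 * ε * DD k δ))) := by linarith
    _ = _ := by ring

end Cx

end Pool.Agent.Y753.SH
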