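import Pool.Agent.Y753.SH.Sh3

set_option autoImplicit false

/-! The window: the mass off the shifted good set. -/

namespace Pool.Agent.Y753.SH

open Finset Filter MeasureTheory MonoidAlgebra Topology
open Pool.Agent.Y755
open Pool.Agent.W184.NZ
open Pool.Agent.Y753.NL
open Pool.Agent.H306R2 (dv dv_nonneg dv_one)

lemma Qe_nn (R : ℕ) (I : Finset ℕ) : Le (Qe R I) (Qe R I) := by
  unfold Qe
  exact ((x1_nn I).pow R).smul (by positivity)

/-- moving a set integral -/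
lemma shift_int {f : ℝ → ℝ} (hf : Continuous f) (hf0 : ∀ t, 0 ≤ f t) {V S : Set ℝ} {A B h : ℝ} (hS : MeasurableSet S)
    (hSI : S ⊆ Set.Icc A B) (hVS : ∀ t ∈ V, t + h ∈ S) : ∫ t in V, f (t + h) ≤ ∫ t in S, f t := by
  have h1 : ∫ t in (fun t => t + h) ⁻¹' S, f (t + h) = ∫ t in S, f t :=
    (measurePreserving_add_right volume h).setIntegral_preimage_emb (measurableEmbedding_addRight h) f S
  rw [← h1]
  have hc : Continuous fun t => f (t + h) := hf.comp (by fun_prop)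
  have hsub : (fun t => t + h) ⁻¹' S ⊆ Set.Icc (A - h) (B - h) := by
    intro t ht
    have := hSI ht
    exact ⟨by linarith [this.1], by linarith [this.2]⟩
  exact setIntegral_mono_set ((hc.continuousOn.integrableOn_compact isCompact_Icc).mono_set hsub)
    (Eventually.of_forall fun t => hf0 _) (Eventually.of_forall fun t ht => hVS t ht)

namespace Cx

variable {k M z Rs J K0 N Ns Ks : ℕ} {ε e1 c y δ T CM CS H : ℝ}

/-- the change of weight polynomial -/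
noncomputable def GG (k M z Rs J K0 : ℕ) (y δ : ℝ) (a : Fin k → ℝ) (a' : ℝ) : PC :=
  sh (a' * δ) (fp k M z K0 y J Rs) * ∏ i ∈ range J, NK (20 * (M * RR Rs i)) (4 * k) (Yi (fun j => a j * δ) (a' * δ) (IZ z y i))

lemma ec_NK (s : ℂ) (K : ℕ) (κ : ℝ) (A : PC) : ec s (NK K κ A) = NK K κ (ec s A) := by
  have := NK_map ((ec s).restrictScalars ℝ) K κ A
  exact this

lemma ec_Yi (X : Cx k M z Rs J K0 N Ns Ks ε e1 c y δ T CM CS H) (a : Fin k → ℝ) (a' : ℝ) (I : Finset ℕ) (t : ℝ) :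
    ec (1 / 2 + δ + t * Complex.I) (Yi (fun j => a j * δ) (a' * δ) I) = (1 / (2 * (k:ℝ))) •
      ∑ j, (PI I (1 / 2 + δ + ((t + a j * δ : ℝ) : ℂ) * Complex.I) - PI I (1 / 2 + δ + ((t + a' * δ : ℝ) : ℂ) * Complex.I)) := by
  unfold Yi
  have h1 : ∀ (r : ℝ) (A : PC), ec (1 / 2 + δ + t * Complex.I) (r • A) = r • ec (1 / 2 + δ + t * Complex.I) A := by
    intro r A
    exact map_smul ((ec (1 / 2 + δ + t * Complex.I)).restrictScalars ℝ) r A
  rw [h1, map_sum]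
  congr 1
  refine sum_congr rfl fun j _ => ?_
  rw [map_sub, ec_sh (X.hre' t), ec_sh (X.hre' t), es_x1, es_x1]
  congr 2 <;> (push_cast; ring)

lemma ec_GG (X : Cx k M z Rs J K0 N Ns Ks ε e1 c y δ T CM CS H) (a : Fin k → ℝ) (a' : ℝ) (t : ℝ) :
    ec (1 / 2 + δ + t * Complex.I) (GG k M z Rs J K0 y δ a a') =
      es (1 / 2 + δ + ((t + a' * δ : ℝ) : ℂ) * Complex.I) (fp k M z K0 y J Rs) *
      ∏ i ∈ range J, NK (20 * (M * RR Rs i)) (4 * k) ((1 / (2 * (k:ℝ))) •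
        ∑ j, (PI (IZ z y i) (1 / 2 + δ + ((t + a j * δ : ℝ) : ℂ) * Complex.I) -
          PI (IZ z y i) (1 / 2 + δ + ((t + a' * δ : ℝ) : ℂ) * Complex.I))) := by
  unfold GG
  rw [map_mul, map_prod, ec_sh (X.hre' t)]
  congr 1
  · congr 1
    push_cast; ring
  · refine prod_congr rfl fun i _ => ?_
    rw [ec_NK, X.ec_Yi]

lemma GG_Do (X : Cx k M z Rs J K0 N Ns Ks ε e1 c y δ T CM CS H) {a : Fin k → ℝ} {a' : ℝ} (ha : ∀ j, |a j| ≤ H)
    (ha' : |a'| ≤ H) : Do (gst k M z K0 H δ y J Rs) (GG k M z Rs J K0 y δ a a') := by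
  have e1 : gst k M z K0 H δ y J Rs = fp k M z K0 y J Rs *
      ∏ i ∈ range J, NK (20 * (M * RR Rs i)) (4 * k) (yb (fun p => min 1 (H * (δ * Real.log p))) (IZ z y i)) := by
    unfold gst fp Bm
    rw [prod_mul_distrib, mul_assoc]
  rw [e1]
  unfold GG
  refine (Do.sh X.fknn _).mul (Do.prod fun i _ => Do.NK ?_ _ (by positivity))
  refine Yi_Do X.k1 (fun j => ?_) fun p hp => (IZ_prime i p hp).ne_zero
  rw [← sub_mul, abs_mul, abs_of_pos X.δ0]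
  refine mul_le_mul_of_nonneg_right ?_ X.δ0.le
  have h1 := abs_sub (a j) a'
  have := ha j
  linarith

/-- the pointwise majorant -/
lemma maj_pt (X : Cx k M z Rs J K0 N Ns Ks ε e1 c y δ T CM CS H) {a : Fin k → ℝ} {a' : ℝ} (ha : ∀ j, |a j| ≤ H)
    (ha' : |a'| ≤ H) {lam : ℝ} (hl : 0 < lam) (t : ℝ) :
    ‖ec (1 / 2 + δ + t * Complex.I) (Da (fun j => a j * δ) N)‖ ^ 2 ≤
      ((2 * ‖ec (1 / 2 + δ + t * Complex.I) (Da (fun j => a j * δ) N - Hh (fun j => a j * δ) (fp k M z K0 y J Rs))‖ ^ 2 +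
      2 * ∑ o : Option (Fin k), ∑ i ∈ range J, ‖ec (1 / 2 + δ + t * Complex.I) (Hh (fun j => a j * δ) (fp k M z K0 y J Rs) *
        sh ((o.elim a' a) * δ) (Qe (RR Rs i) (IZ z y i)))‖ ^ 2) +
      (2 * ‖ec (1 / 2 + δ + t * Complex.I) (Da (fun j => a j * δ) N - Fa (fun j => a j * δ) (fp 1 M z K0 y J Rs))‖ ^ 2 +
      16 * 9 ^ k / lam * ‖ec (1 / 2 + δ + t * Complex.I) (GG k M z Rs J K0 y δ a a')‖ ^ 2)) +
      4 * 9 ^ k * lam * ‖es (1 / 2 + δ + ((t + a' * δ : ℝ) : ℂ) * Complex.I) (fp k M z K0 y J Rs)‖ ^ 2 := by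
  set D := Da (fun j => a j * δ) N with hD
  set F := Fa (fun j => a j * δ) (fp 1 M z K0 y J Rs) with hF
  set Hp := Hh (fun j => a j * δ) (fp k M z K0 y J Rs) with hHp
  set s : ℂ := 1 / 2 + (δ:ℂ) + t * Complex.I with hs
  have hS0 : 0 ≤ ∑ o : Option (Fin k), ∑ i ∈ range J, ‖ec s (Hp * sh ((o.elim a' a) * δ) (Qe (RR Rs i) (IZ z y i)))‖ ^ 2 :=
    sum_nonneg fun _ _ => sum_nonneg fun _ _ => sq_nonneg _
  have hM1 : 1 ≤ M := by have := X.k1; have := X.kM; omega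
  by_cases hbad : ∃ o : Option (Fin k), ∃ i ∈ range J,
      (RR Rs i : ℝ) < ‖PI (IZ z y i) (1 / 2 + δ + ((t + (o.elim a' a) * δ : ℝ) : ℂ) * Complex.I)‖
  · obtain ⟨o, i, hi, hbig⟩ := hbad
    have hR : (0:ℝ) < (RR Rs i : ℝ) := by
      have := hRR X.sy i
      exact_mod_cast this
    have h1 : 1 ≤ ‖ec s (sh ((o.elim a' a) * δ) (Qe (RR Rs i) (IZ z y i)))‖ ^ 2 := by
      rw [hs, ec_sh (X.hre' t)]
      have e1 : (1 / 2 + (δ:ℂ) + t * Complex.I) + (((o.elim a' a) * δ : ℝ) : ℂ) * Complex.I =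
          1 / 2 + δ + ((t + (o.elim a' a) * δ : ℝ) : ℂ) * Complex.I := by push_cast; ring
      rw [e1, es_Qe_sq]
      refine one_le_pow₀ ?_
      rw [le_div_iff₀ hR, one_mul]
      exact hbig.le
    have h2 : ‖ec s Hp‖ ^ 2 ≤ ∑ o : Option (Fin k), ∑ i ∈ range J, ‖ec s (Hp * sh ((o.elim a' a) * δ) (Qe (RR Rs i) (IZ z y i)))‖ ^ 2 := by
      have h3 : ‖ec s Hp‖ ^ 2 ≤ ‖ec s (Hp * sh ((o.elim a' a) * δ) (Qe (RR Rs i) (IZ z y i)))‖ ^ 2 := by
        rw [map_mul, norm_mul, mul_pow]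
        exact le_mul_of_one_le_right (sq_nonneg _) h1
      refine h3.trans ?_
      refine le_trans ?_ (single_le_sum (f := fun o : Option (Fin k) => ∑ i ∈ range J, ‖ec s (Hp * sh ((o.elim a' a) * δ) (Qe (RR Rs i) (IZ z y i)))‖ ^ 2)
        (fun _ _ => sum_nonneg fun _ _ => sq_nonneg _) (mem_univ o))
      exact single_le_sum (f := fun i => ‖ec s (Hp * sh ((o.elim a' a) * δ) (Qe (RR Rs i) (IZ z y i)))‖ ^ 2)
        (fun _ _ => sq_nonneg _) hi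
    have e2 : ec s D = ec s (D - Hp) + ec s Hp := by rw [map_sub]; ring
    have h4 : ‖ec s D‖ ^ 2 ≤ 2 * ‖ec s (D - Hp)‖ ^ 2 + 2 * ‖ec s Hp‖ ^ 2 := by rw [e2]; exact sq_two _ _
    have h5 : 0 ≤ 2 * ‖ec s (D - F)‖ ^ 2 + 16 * 9 ^ k / lam * ‖ec s (GG k M z Rs J K0 y δ a a')‖ ^ 2 := by positivity
    have h6 : 0 ≤ 4 * 9 ^ k * lam * ‖es (1 / 2 + δ + ((t + a' * δ : ℝ) : ℂ) * Complex.I) (fp k M z K0 y J Rs)‖ ^ 2 := by positivity
    linarith
  · push Not at hbad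
    have hX : ∀ j, ∀ i ∈ range J, ‖PI (IZ z y i) (1 / 2 + δ + ((t + a j * δ : ℝ) : ℂ) * Complex.I)‖ ≤ (RR Rs i : ℝ) :=
      fun j i hi => hbad (some j) i hi
    have hX' : ∀ i ∈ range J, ‖PI (IZ z y i) (1 / 2 + δ + ((t + a' * δ : ℝ) : ℂ) * Complex.I)‖ ≤ (RR Rs i : ℝ) :=
      fun i hi => hbad none i hi
    have hkM : (2:ℝ) * k ≤ M := by have := X.kM; exact_mod_cast this
    have hk0 := X.k0
    have hM1' : (1:ℝ) ≤ M := by exact_mod_cast hM1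
    have h1 := ratio_pt (J := J) (Rs := Rs) (K := fun i => 20 * (M * RR Rs i)) X.k1 X.e0 X.e01
      (fun i => cl_M hM1 (hRR X.sy i) (by rw [abs_one]; linarith))
      (fun i => cl_M hM1 (hRR X.sy i) (by rw [abs_of_pos hk0]; linarith))
      (fun i => cl_M hM1 (hRR X.sy i) (by rw [abs_of_pos (by positivity)]; linarith)) X.h4a
      (X := fun j i => PI (IZ z y i) (1 / 2 + δ + ((t + a j * δ : ℝ) : ℂ) * Complex.I))
      (X' := fun i => PI (IZ z y i) (1 / 2 + δ + ((t + a' * δ : ℝ) : ℂ) * Complex.I)) hX hX'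
      (P := fun j => es (1 / 2 + δ + ((t + a j * δ : ℝ) : ℂ) * Complex.I) (Pz z))
      (A := fun j => es (1 / 2 + δ + ((t + a j * δ : ℝ) : ℂ) * Complex.I) (Az 1 K0 z))
      (P' := es (1 / 2 + δ + ((t + a' * δ : ℝ) : ℂ) * Complex.I) (Pz z))
      (A' := es (1 / 2 + δ + ((t + a' * δ : ℝ) : ℂ) * Complex.I) (Az k K0 z))
      (fun j => by have := X.zc1 _ (X.hre (t + a j * δ)); rwa [pow_one] at this)
      (X.zck _ (X.hre (t + a' * δ)))
      (fun j => by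
        have h2 := X.pr (t + a' * δ) ((a j - a') * δ) (by
          rw [abs_mul, abs_of_pos X.δ0]
          refine mul_le_mul_of_nonneg_right ?_ X.δ0.le
          have h1 := abs_sub (a j) a'
          have := ha j
          linarith)
        have e1 : t + a' * δ + (a j - a') * δ = t + a j * δ := by ring
        rw [e1] at h2
        exact h2)
    obtain ⟨r1, r2⟩ := h1
    have eF : ec s F = ∏ j, (es (1 / 2 + δ + ((t + a j * δ : ℝ) : ℂ) * Complex.I) (Az 1 K0 z) *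
        ∏ i ∈ range J, NK (20 * (M * RR Rs i)) 1 (PI (IZ z y i) (1 / 2 + δ + ((t + a j * δ : ℝ) : ℂ) * Complex.I))) := by
      rw [hF, hs, X.ec_Fa]
      refine prod_congr rfl fun j _ => ?_
      unfold fp
      rw [map_mul, es_Bm, Nat.cast_one]
    have ef : es (1 / 2 + δ + ((t + a' * δ : ℝ) : ℂ) * Complex.I) (fp k M z K0 y J Rs) =
        es (1 / 2 + δ + ((t + a' * δ : ℝ) : ℂ) * Complex.I) (Az k K0 z) *
          ∏ i ∈ range J, NK (20 * (M * RR Rs i)) k (PI (IZ z y i) (1 / 2 + δ + ((t + a' * δ : ℝ) : ℂ) * Complex.I)) := by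
      unfold fp
      rw [map_mul, es_Bm]
    have eG := X.ec_GG a a' t
    rw [← hs] at eG
    rw [← eF, ← ef] at r1
    obtain ⟨w, hw⟩ : ∃ w, w = ‖es (1 / 2 + δ + ((t + a' * δ : ℝ) : ℂ) * Complex.I) (fp k M z K0 y J Rs)‖ := ⟨_, rfl⟩
    obtain ⟨v, hv⟩ : ∃ v, v = ‖∏ i ∈ range J, NK (20 * (M * RR Rs i)) (4 * k) ((1 / (2 * (k:ℝ))) •
        ∑ j, (PI (IZ z y i) (1 / 2 + δ + ((t + a j * δ : ℝ) : ℂ) * Complex.I) -
          PI (IZ z y i) (1 / 2 + δ + ((t + a' * δ : ℝ) : ℂ) * Complex.I)))‖ := ⟨_, rfl⟩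
    obtain ⟨E, hE⟩ : ∃ E, E = Real.exp (∑ i ∈ range J, ∑ j, (PI (IZ z y i) (1 / 2 + δ + ((t + a j * δ : ℝ) : ℂ) * Complex.I) -
          PI (IZ z y i) (1 / 2 + δ + ((t + a' * δ : ℝ) : ℂ) * Complex.I))).re := ⟨_, rfl⟩
    have eGn : ‖ec s (GG k M z Rs J K0 y δ a a')‖ = w * v := by rw [eG, norm_mul, ← hw, ← hv]
    rw [← hw, ← hE] at r1
    rw [← hE, ← hv] at r2
    rw [← hw, eGn]
    have hw0 : 0 ≤ w := by rw [hw]; exact norm_nonneg _
    have hE0 : 0 < E := by rw [hE]; exact Real.exp_pos _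
    have hv0 : 0 ≤ v := by rw [hv]; exact norm_nonneg _
    have e2 : ec s D = ec s (D - F) + ec s F := by rw [map_sub]; ring
    have h4 : ‖ec s D‖ ^ 2 ≤ 2 * ‖ec s (D - F)‖ ^ 2 + 2 * ‖ec s F‖ ^ 2 := by rw [e2]; exact sq_two _ _
    have h5 : ‖ec s F‖ ^ 2 ≤ 4 * 9 ^ k * (w ^ 2 * E ^ 2) := by
      refine (pow_le_pow_left₀ (norm_nonneg _) r1 2).trans (le_of_eq ?_)
      have : (3 ^ k : ℝ) ^ 2 = 9 ^ k := by rw [← pow_mul, mul_comm, pow_mul]; norm_num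
      rw [mul_pow, mul_pow, mul_pow, this]; ring
    have h6 : E ^ 2 ≤ lam / 2 + 2 * v ^ 2 / lam := by
      have h7 : (lam / 2 + 2 * v ^ 2 / lam) - 2 * v = (lam - 2 * v) ^ 2 / (2 * lam) := by field_simp; ring
      have h8 : 0 ≤ (lam - 2 * v) ^ 2 / (2 * lam) := by positivity
      linarith
    have h9 : w ^ 2 * E ^ 2 ≤ w ^ 2 * (lam / 2 + 2 * v ^ 2 / lam) := mul_le_mul_of_nonneg_left h6 (sq_nonneg _)
    have h10 : 4 * 9 ^ k * (w ^ 2 * E ^ 2) ≤ 4 * 9 ^ k * (w ^ 2 * (lam / 2 + 2 * v ^ 2 / lam)) :=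
      mul_le_mul_of_nonneg_left h9 (by positivity)
    have e11 : 2 * (4 * 9 ^ k * (w ^ 2 * (lam / 2 + 2 * v ^ 2 / lam))) = 16 * 9 ^ k / lam * (w * v) ^ 2 + 4 * 9 ^ k * lam * w ^ 2 := by
      field_simp
      ring
    have h12 : 0 ≤ 2 * ‖ec s (D - Hp)‖ ^ 2 := by positivity
    linarith

end Cx

end Pool.Agent.Y753.SH
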