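import Pool.Agent.Y753.SH.Sh4

set_option autoImplicit false

/-! The window: the mass off the shifted good set, integrated. -/

namespace Pool.Agent.Y753.SH

open Finset Filter MeasureTheory MonoidAlgebra Topology
open Pool.Agent.Y755
open Pool.Agent.W184.NZ
open Pool.Agent.Y753.NL
open Pool.Agent.H306R2 (dv dv_nonneg dv_one)

namespace Cx

variable {k M z Rs J K0 N Ns Ks : ℕ} {ε e1 c y δ T CM CS H : ℝ}

/-- the set where a shift leaves the good set -/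
def Bs (z Rs J : ℕ) (e1 y δ T a' : ℝ) : Set ℝ :=
  {t | t ∈ Set.Ioc (T ^ ((4:ℝ)/5) + 1) (T / 2 - 1) ∧ t + a' * δ ∉ Gh z y J Rs e1 δ}

/-- the mass on it -/
theorem maS (X : Cx k M z Rs J K0 N Ns Ks ε e1 c y δ T CM CS H) {a : Fin k → ℝ} {a' : ℝ} (ha : ∀ j, |a j| ≤ H)
    (ha' : |a'| ≤ H) (hHδ : H * δ ≤ 1) :
    ∫ t in Bs z Rs J e1 y δ T a', ‖ec (1 / 2 + δ + t * Complex.I) (Da (fun j => a j * δ) N)‖ ^ 2 ≤
      ((12 + 2 * (k + 1)) * CM + 9 ^ k * (4 + 16 * CM * CS)) * √ε * (T * DD k δ) := by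
  have hε := X.e0
  have hε1 := X.e01
  have hCM := X.CM0
  have hCS := X.CS0
  have hT := X.T1
  have hD1 := X.D1
  have hT0 : 0 ≤ T := by linarith
  have hse : 0 < √ε := Real.sqrt_pos.mpr hε
  have hss : √ε * √ε = ε := Real.mul_self_sqrt hε.le
  have hse1 : √ε ≤ 1 := by rw [Real.sqrt_le_one]; linarith
  have hεs : ε ≤ √ε := by nlinarith
  set D := Da (fun j => a j * δ) N with hD
  set F := Fa (fun j => a j * δ) (fp 1 M z K0 y J Rs) with hF
  set Hp := Hh (fun j => a j * δ) (fp k M z K0 y J Rs) with hHp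
  set G := GG k M z Rs J K0 y δ a a' with hG
  obtain ⟨V, hV⟩ : ∃ V, V = Bs z Rs J e1 y δ T a' := ⟨_, rfl⟩
  rw [← hV]
  have hGm : MeasurableSet (Gh z y J Rs e1 δ) := Gh_meas X.sy X.δ1
  have hVm : MeasurableSet V := by
    rw [hV]
    have e1 : Bs z Rs J e1 y δ T a' = Set.Ioc (T ^ ((4:ℝ)/5) + 1) (T / 2 - 1) ∩ ((fun t : ℝ => t + a' * δ) ⁻¹' (Gh z y J Rs e1 δ)ᶜ) := rfl
    rw [e1]
    exact measurableSet_Ioc.inter ((measurable_id.add_const _) hGm.compl)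
  have hT45 : 0 ≤ T ^ ((4:ℝ)/5) := by positivity
  have hVT : V ⊆ Set.Icc 0 T := by
    rw [hV]
    intro t ht
    exact ⟨by linarith [ht.1.1], by linarith [ht.1.2]⟩
  have hdo : Do (fp k M z K0 y J Rs) Hp := Hh_Do _ X.ck X.bk
  have hdQ : ∀ (o : Option (Fin k)) (i : ℕ), Do (fp k M z K0 y J Rs * Qe (RR Rs i) (IZ z y i))
      (Hp * sh ((o.elim a' a) * δ) (Qe (RR Rs i) (IZ z y i))) := fun o i => hdo.mul (Do.sh (Qe_nn _ _) _)
  have hGd : Do (gst k M z K0 H δ y J Rs) G := X.GG_Do ha ha'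
  -- continuity
  have c1 : Continuous fun t : ℝ => 2 * ‖ec (1 / 2 + δ + t * Complex.I) (D - Hp)‖ ^ 2 := ((X.ccDH _).norm.pow 2).const_mul _
  have cQ : ∀ o : Option (Fin k), ∀ i ∈ range J, Continuous fun t : ℝ => ‖ec (1 / 2 + δ + t * Complex.I)
      (Hp * sh ((o.elim a' a) * δ) (Qe (RR Rs i) (IZ z y i)))‖ ^ 2 := fun o i hi =>
    ((hdQ o i).cont (X.bQ i (mem_range.mp hi)) δ).norm.pow 2
  have c2 : Continuous fun t : ℝ => 2 * ∑ o : Option (Fin k), ∑ i ∈ range J, ‖ec (1 / 2 + δ + t * Complex.I) (Hp *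
        sh ((o.elim a' a) * δ) (Qe (RR Rs i) (IZ z y i)))‖ ^ 2 :=
    (continuous_finsetSum _ fun o _ => continuous_finsetSum _ fun i hi => cQ o i hi).const_mul _
  have c3 : Continuous fun t : ℝ => 2 * ‖ec (1 / 2 + δ + t * Complex.I) (D - F)‖ ^ 2 := ((X.ccDF _).norm.pow 2).const_mul _
  have c4 : Continuous fun t : ℝ => 16 * 9 ^ k / (1 / √ε) * ‖ec (1 / 2 + δ + t * Complex.I) G‖ ^ 2 :=
    ((hGd.cont X.bS δ).norm.pow 2).const_mul _
  have c5 : Continuous fun t : ℝ => ‖es (1 / 2 + δ + t * Complex.I) (fp k M z K0 y J Rs)‖ ^ 2 := (es_lc δ X.bk).norm.pow 2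
  have c5' : Continuous fun t : ℝ => 4 * 9 ^ k * (1 / √ε) *
      ‖es (1 / 2 + δ + ((t + a' * δ : ℝ) : ℂ) * Complex.I) (fp k M z K0 y J Rs)‖ ^ 2 :=
    (c5.comp (by fun_prop : Continuous fun t : ℝ => t + a' * δ)).const_mul _
  have c0 : Continuous fun t : ℝ => ‖ec (1 / 2 + δ + t * Complex.I) D‖ ^ 2 := (ccD _).norm.pow 2
  have hint : ∀ g : ℝ → ℝ, Continuous g → IntegrableOn g (Set.Icc 0 T) := fun g hg =>
    hg.continuousOn.integrableOn_compact isCompact_Icc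
  have h1 : ∫ t in V, ‖ec (1 / 2 + δ + t * Complex.I) D‖ ^ 2 ≤ ∫ t in V,
      (((2 * ‖ec (1 / 2 + δ + t * Complex.I) (D - Hp)‖ ^ 2 +
      2 * ∑ o : Option (Fin k), ∑ i ∈ range J, ‖ec (1 / 2 + δ + t * Complex.I) (Hp *
        sh ((o.elim a' a) * δ) (Qe (RR Rs i) (IZ z y i)))‖ ^ 2) +
      (2 * ‖ec (1 / 2 + δ + t * Complex.I) (D - F)‖ ^ 2 +
      16 * 9 ^ k / (1 / √ε) * ‖ec (1 / 2 + δ + t * Complex.I) G‖ ^ 2)) +
      4 * 9 ^ k * (1 / √ε) * ‖es (1 / 2 + δ + ((t + a' * δ : ℝ) : ℂ) * Complex.I) (fp k M z K0 y J Rs)‖ ^ 2) :=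
    setIntegral_mono_on ((hint _ c0).mono_set hVT) ((hint _ (((c1.add c2).add (c3.add c4)).add c5')).mono_set hVT) hVm
      fun t _ => X.maj_pt ha ha' (by positivity) t
  have i12 : Continuous fun t : ℝ => (2 * ‖ec (1 / 2 + δ + t * Complex.I) (D - Hp)‖ ^ 2 +
      2 * ∑ o : Option (Fin k), ∑ i ∈ range J, ‖ec (1 / 2 + δ + t * Complex.I) (Hp *
        sh ((o.elim a' a) * δ) (Qe (RR Rs i) (IZ z y i)))‖ ^ 2) +
      (2 * ‖ec (1 / 2 + δ + t * Complex.I) (D - F)‖ ^ 2 +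
      16 * 9 ^ k / (1 / √ε) * ‖ec (1 / 2 + δ + t * Complex.I) G‖ ^ 2) := (c1.add c2).add (c3.add c4)
  rw [integral_add ((hint _ i12).mono_set hVT) ((hint _ c5').mono_set hVT), integral_const_mul] at h1
  have h2 : ∫ t in V, ((2 * ‖ec (1 / 2 + δ + t * Complex.I) (D - Hp)‖ ^ 2 +
      2 * ∑ o : Option (Fin k), ∑ i ∈ range J, ‖ec (1 / 2 + δ + t * Complex.I) (Hp *
        sh ((o.elim a' a) * δ) (Qe (RR Rs i) (IZ z y i)))‖ ^ 2) +
      (2 * ‖ec (1 / 2 + δ + t * Complex.I) (D - F)‖ ^ 2 +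
      16 * 9 ^ k / (1 / √ε) * ‖ec (1 / 2 + δ + t * Complex.I) G‖ ^ 2)) ≤
      ∫ t in (0:ℝ)..T, ((2 * ‖ec (1 / 2 + δ + t * Complex.I) (D - Hp)‖ ^ 2 +
      2 * ∑ o : Option (Fin k), ∑ i ∈ range J, ‖ec (1 / 2 + δ + t * Complex.I) (Hp *
        sh ((o.elim a' a) * δ) (Qe (RR Rs i) (IZ z y i)))‖ ^ 2) +
      (2 * ‖ec (1 / 2 + δ + t * Complex.I) (D - F)‖ ^ 2 +
      16 * 9 ^ k / (1 / √ε) * ‖ec (1 / 2 + δ + t * Complex.I) G‖ ^ 2)) := by
    rw [intervalIntegral.integral_of_le hT0, ← integral_Icc_eq_integral_Ioc]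
    refine setIntegral_mono_set (hint _ i12) (Eventually.of_forall fun t => ?_) (Eventually.of_forall fun t ht => hVT ht)
    have hS0 : 0 ≤ ∑ o : Option (Fin k), ∑ i ∈ range J, ‖ec (1 / 2 + δ + t * Complex.I) (Hp * sh ((o.elim a' a) * δ) (Qe (RR Rs i) (IZ z y i)))‖ ^ 2 :=
      sum_nonneg fun _ _ => sum_nonneg fun _ _ => sq_nonneg _
    simp only [Pi.zero_apply]
    positivity
  have c12 : Continuous fun t : ℝ => 2 * ‖ec (1 / 2 + δ + t * Complex.I) (D - Hp)‖ ^ 2 +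
      2 * ∑ o : Option (Fin k), ∑ i ∈ range J, ‖ec (1 / 2 + δ + t * Complex.I) (Hp *
        sh ((o.elim a' a) * δ) (Qe (RR Rs i) (IZ z y i)))‖ ^ 2 := c1.add c2
  have c34 : Continuous fun t : ℝ => 2 * ‖ec (1 / 2 + δ + t * Complex.I) (D - F)‖ ^ 2 +
      16 * 9 ^ k / (1 / √ε) * ‖ec (1 / 2 + δ + t * Complex.I) G‖ ^ 2 := c3.add c4
  rw [intervalIntegral.integral_add (c12.intervalIntegrable _ _) (c34.intervalIntegrable _ _),
    intervalIntegral.integral_add (c1.intervalIntegrable _ _) (c2.intervalIntegrable _ _),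
    intervalIntegral.integral_add (c3.intervalIntegrable _ _) (c4.intervalIntegrable _ _),
    intervalIntegral.integral_const_mul, intervalIntegral.integral_const_mul, intervalIntegral.integral_const_mul,
    intervalIntegral.integral_const_mul, intervalIntegral.integral_finsetSum (fun o _ =>
      (continuous_finsetSum _ fun i hi => cQ o i hi).intervalIntegrable _ _)] at h2
  have h3 : ∑ o : Option (Fin k), ∫ t in (0:ℝ)..T, ∑ i ∈ range J, ‖ec (1 / 2 + δ + t * Complex.I) (Hp *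
        sh ((o.elim a' a) * δ) (Qe (RR Rs i) (IZ z y i)))‖ ^ 2 ≤ (k + 1) * (CM * (T * (ε * DD k δ))) := by
    have h4 : ∀ o ∈ (univ : Finset (Option (Fin k))), ∫ t in (0:ℝ)..T, ∑ i ∈ range J, ‖ec (1 / 2 + δ + t * Complex.I) (Hp *
        sh ((o.elim a' a) * δ) (Qe (RR Rs i) (IZ z y i)))‖ ^ 2 ≤ CM * (T * (ε * DD k δ)) := by
      intro o _
      rw [intervalIntegral.integral_finsetSum (fun i hi => (cQ o i hi).intervalIntegrable _ _)]
      have h5 : ∀ i ∈ range J, ∫ t in (0:ℝ)..T, ‖ec (1 / 2 + δ + t * Complex.I) (Hp *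
          sh ((o.elim a' a) * δ) (Qe (RR Rs i) (IZ z y i)))‖ ^ 2 ≤ CM * T * ip δ (fp k M z K0 y J Rs * Qe (RR Rs i) (IZ z y i))
            (fp k M z K0 y J Rs * Qe (RR Rs i) (IZ z y i)) := by
        intro i hi
        refine (X.mv _ _ (hdQ o i) (X.bQ i (mem_range.mp hi))).trans (le_of_eq ?_)
        ring
      refine (sum_le_sum h5).trans ?_
      rw [← mul_sum, ← mul_assoc]
      exact mul_le_mul_of_nonneg_left X.Q (by positivity)
    refine (sum_le_sum h4).trans ?_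
    rw [sum_const, card_univ, Fintype.card_option, Fintype.card_fin, nsmul_eq_mul]
    push_cast
    exact le_rfl
  have m1 := X.mvDH (fun j => a j * δ)
  have m2 := X.mvDF (fun j => a j * δ)
  rw [← hD, ← hHp] at m1
  rw [← hF, ← hD] at m2
  have m3 := X.mv _ _ hGd X.bS
  have m4 : ∫ t in (0:ℝ)..T, ‖ec (1 / 2 + δ + t * Complex.I) G‖ ^ 2 ≤ CM * (T * (CS * DD k δ)) := by
    refine m3.trans ?_
    have := X.st
    gcongr
  have m5 : ∫ t in V, ‖es (1 / 2 + δ + ((t + a' * δ : ℝ) : ℂ) * Complex.I) (fp k M z K0 y J Rs)‖ ^ 2 ≤ ε * (T * DD k δ) := by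
    refine le_trans ?_ X.off
    refine shift_int c5 (fun t => by positivity) (measurableSet_Ioc.diff hGm) (A := 0) (B := T) ?_ ?_
    · intro t ht
      exact ⟨by linarith [ht.1.1], by linarith [ht.1.2]⟩
    · intro t ht
      rw [hV] at ht
      refine ⟨?_, ht.2⟩
      have h6 : |a' * δ| ≤ 1 := by
        rw [abs_mul, abs_of_pos X.δ0]
        exact (mul_le_mul_of_nonneg_right ha' X.δ0.le).trans hHδ
      have h7 := abs_le.mp h6
      exact ⟨by linarith [ht.1.1, h7.1], by linarith [ht.1.2, h7.2]⟩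
  have e6 : 16 * 9 ^ k / (1 / √ε) = 16 * 9 ^ k * √ε := by field_simp
  have m4' := mul_le_mul_of_nonneg_left m4 (by positivity : (0:ℝ) ≤ 16 * 9 ^ k / (1 / √ε))
  have m5' := mul_le_mul_of_nonneg_left m5 (by positivity : (0:ℝ) ≤ 4 * 9 ^ k * (1 / √ε))
  have e7 : 4 * 9 ^ k * (1 / √ε) * (ε * (T * DD k δ)) = 4 * 9 ^ k * √ε * (T * DD k δ) := by
    have : 1 / √ε * ε = √ε := by
      rw [one_div, inv_mul_eq_div, div_eq_iff hse.ne', hss]
    calc 4 * 9 ^ k * (1 / √ε) * (ε * (T * DD k δ)) = 4 * 9 ^ k * (1 / √ε * ε) * (T * DD k δ) := by ring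
      _ = _ := by rw [this]
  rw [e7] at m5'
  rw [e6] at h1 m4' h2
  have hA : 0 ≤ CM * (T * DD k δ) := by positivity
  have h8 : CM * (T * (3 * ε * DD k δ)) ≤ 3 * √ε * (CM * (T * DD k δ)) := by
    have := mul_le_mul_of_nonneg_right hεs hA
    calc CM * (T * (3 * ε * DD k δ)) = 3 * (ε * (CM * (T * DD k δ))) := by ring
      _ ≤ 3 * (√ε * (CM * (T * DD k δ))) := by linarith
      _ = _ := by ring
  have h9 : ((k:ℝ) + 1) * (CM * (T * (ε * DD k δ))) ≤ (k + 1) * √ε * (CM * (T * DD k δ)) := by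
    have := mul_le_mul_of_nonneg_right hεs hA
    have h10 := mul_le_mul_of_nonneg_left this (by positivity : (0:ℝ) ≤ (k:ℝ) + 1)
    calc ((k:ℝ) + 1) * (CM * (T * (ε * DD k δ))) = (k + 1) * (ε * (CM * (T * DD k δ))) := by ring
      _ ≤ _ := h10
      _ = _ := by ring
  calc _ ≤ (2 * (3 * √ε * (CM * (T * DD k δ))) + 2 * ((k + 1) * √ε * (CM * (T * DD k δ)))) +
      (2 * (3 * √ε * (CM * (T * DD k δ))) + 16 * 9 ^ k * √ε * (CM * (T * (CS * DD k δ)))) + 4 * 9 ^ k * √ε * (T * DD k δ) := by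
        linarith
    _ = _ := by ring

end Cx

end Pool.Agent.Y753.SH
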