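import Pool.Agent.Y753.SH.Sh5

set_option autoImplicit false

/-! The window data exist. -/

namespace Pool.Agent.Y753.SH

open Finset Filter MeasureTheory MonoidAlgebra Topology
open Pool.Agent.Y755
open Pool.Agent.W184.NZ
open Pool.Agent.Y753.NL
open Pool.Agent.H306R2 (dv dv_nonneg dv_one)

lemma es_shift_le {f : P1} {N : ℝ} (hf : Bd1 N f) {s : ℂ} (hs : 0 < s.re) (h : ℝ) :
    ‖es (s + h * Complex.I) f - es s f‖ ≤ |h| * ∑ n ∈ f.coeff.support, |f.coeff n| * Real.log n := by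
  rw [es_apply, es_apply, ← sum_sub_distrib, mul_sum]
  refine (norm_sum_le _ _).trans (sum_le_sum fun n hn => ?_)
  have hn0 := (hf n hn).1
  have hnc : (n:ℂ) ≠ 0 := by exact_mod_cast hn0
  have e1 : (n:ℂ) ^ (-(s + h * Complex.I)) = (n:ℂ) ^ (-s) * (n:ℂ) ^ (-((h:ℂ) * Complex.I)) := by
    rw [← Complex.cpow_add _ _ hnc]; congr 1; ring
  have e2 : (f.coeff n : ℂ) * (n:ℂ) ^ (-(s + h * Complex.I)) - (f.coeff n : ℂ) * (n:ℂ) ^ (-s) =
      (f.coeff n : ℂ) * ((n:ℂ) ^ (-s) * ((n:ℂ) ^ (-((h:ℂ) * Complex.I)) - (n:ℂ) ^ (-(((0:ℝ):ℂ) * Complex.I)))) := by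
    rw [e1]; simp; ring
  rw [e2, norm_mul, norm_mul, Complex.norm_real, Real.norm_eq_abs]
  have h1 : ‖(n:ℂ) ^ (-s)‖ ≤ 1 := by
    have hnp : (0:ℝ) < n := by exact_mod_cast Nat.pos_of_ne_zero hn0
    rw [← Complex.ofReal_natCast, Complex.norm_cpow_eq_rpow_re_of_pos hnp]
    refine Real.rpow_le_one_of_one_le_of_nonpos (by exact_mod_cast Nat.pos_of_ne_zero hn0) ?_
    rw [Complex.neg_re]; linarith
  have h2 := ncpow_lip hn0 h 0
  rw [sub_zero] at h2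
  calc |f.coeff n| * (‖(n:ℂ) ^ (-s)‖ * ‖(n:ℂ) ^ (-((h:ℂ) * Complex.I)) - (n:ℂ) ^ (-(((0:ℝ):ℂ) * Complex.I))‖) ≤
        |f.coeff n| * (1 * (|h| * Real.log n)) := by gcongr
    _ = _ := by ring

lemma Pz_ratio {z K0 : ℕ} {ε : ℝ} (hε1 : ε ≤ 1 / 10)
    (hz1 : ∀ s : ℂ, 1 / 2 ≤ s.re → ‖es s (Pz z) ^ 1 * es s (Az 1 K0 z) - 1‖ ≤ ε) {H : ℝ} (hH : 0 ≤ H) :
    ∃ δ1 : ℝ, 0 < δ1 ∧ ∀ δ : ℝ, 0 < δ → δ ≤ δ1 → ∀ t h : ℝ, |h| ≤ 2 * H * δ →
      ‖es (1 / 2 + δ + t * Complex.I) (Pz z)‖ ≤ 2 * ‖es (1 / 2 + δ + (t + h : ℝ) * Complex.I) (Pz z)‖ := by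
  obtain ⟨m, hm⟩ := Az_Bd 1 K0 z
  obtain ⟨L, hL⟩ : ∃ L, L = ∑ n ∈ (Pz z).coeff.support, |(Pz z).coeff n| * Real.log n := ⟨_, rfl⟩
  have hL0 : 0 ≤ L := by
    rw [hL]
    exact sum_nonneg fun n _ => mul_nonneg (abs_nonneg _) (Real.log_natCast_nonneg n)
  obtain ⟨l, hl⟩ : ∃ l, l = l1' (Az 1 K0 z) := ⟨_, rfl⟩
  have hl0 : 0 ≤ l := by rw [hl]; exact l1'_nonneg _
  refine ⟨1 / (8 * (H + 1) * (L + 1) * (l + 1)), by positivity, fun δ hδ0 hδ1 t h hh => ?_⟩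
  have hre : ∀ t : ℝ, 1 / 2 ≤ (1 / 2 + (δ:ℂ) + t * Complex.I).re := fun t => by rw [half_re]; linarith
  have hlow : 9 / 10 ≤ ‖es (1 / 2 + δ + t * Complex.I) (Pz z)‖ * l := by
    have h1 := hz1 _ (hre t)
    rw [pow_one] at h1
    have h2 := norm_sub_norm_le (1:ℂ) (1 - es (1 / 2 + δ + t * Complex.I) (Pz z) * es (1 / 2 + δ + t * Complex.I) (Az 1 K0 z))
    rw [norm_one] at h2
    have e1 : (1:ℂ) - (1 - es (1 / 2 + δ + t * Complex.I) (Pz z) * es (1 / 2 + δ + t * Complex.I) (Az 1 K0 z)) =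
      es (1 / 2 + δ + t * Complex.I) (Pz z) * es (1 / 2 + δ + t * Complex.I) (Az 1 K0 z) := by ring
    rw [e1, norm_mul, norm_sub_rev] at h2
    have h3 : ‖es (1 / 2 + δ + t * Complex.I) (Az 1 K0 z)‖ ≤ l := by
      rw [hl]; exact es_norm_le (by linarith [hre t]) hm
    have h4 := mul_le_mul_of_nonneg_left h3 (norm_nonneg (es (1 / 2 + δ + t * Complex.I) (Pz z)))
    linarith
  have hd := es_shift_le (Pz_Bd z) (s := 1 / 2 + δ + t * Complex.I) (by linarith [hre t]) h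
  rw [← hL] at hd
  have e2 : (1 / 2 + (δ:ℂ) + t * Complex.I) + h * Complex.I = 1 / 2 + δ + (t + h : ℝ) * Complex.I := by push_cast; ring
  rw [e2] at hd
  set p := ‖es (1 / 2 + δ + t * Complex.I) (Pz z)‖ with hp
  have h5 : p - ‖es (1 / 2 + δ + (t + h : ℝ) * Complex.I) (Pz z)‖ ≤ |h| * L := by
    have := norm_sub_norm_le (es (1 / 2 + δ + t * Complex.I) (Pz z)) (es (1 / 2 + δ + (t + h : ℝ) * Complex.I) (Pz z))
    rw [norm_sub_rev] at this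
    linarith
  have hp0 : 0 ≤ p := norm_nonneg _
  have h6 : |h| * L ≤ p / 2 := by
    have h7 : |h| * L ≤ 2 * H * δ * L := mul_le_mul_of_nonneg_right hh hL0
    have h8 : δ * (8 * (H + 1) * (L + 1) * (l + 1)) ≤ 1 := by
      rwa [le_div_iff₀ (by positivity)] at hδ1
    have h9 : H * L ≤ (H + 1) * (L + 1) := by nlinarith
    have h10 : 2 * H * δ * L * (4 * (l + 1)) ≤ 1 := by
      calc 2 * H * δ * L * (4 * (l + 1)) = 8 * δ * (l + 1) * (H * L) := by ring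
        _ ≤ 8 * δ * (l + 1) * ((H + 1) * (L + 1)) := by gcongr
        _ = δ * (8 * (H + 1) * (L + 1) * (l + 1)) := by ring
        _ ≤ 1 := h8
    have h11 : 9 / 10 ≤ p * (l + 1) := by nlinarith
    have h12 : |h| * L * (4 * (l + 1)) ≤ p / 2 * (4 * (l + 1)) := by
      have : |h| * L * (4 * (l + 1)) ≤ 2 * H * δ * L * (4 * (l + 1)) := mul_le_mul_of_nonneg_right h7 (by positivity)
      linarith
    exact le_of_mul_le_mul_right h12 (by positivity)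
  linarith

end Pool.Agent.Y753.SH
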