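import Pool.Agent.Y753.SH.Sh6

set_option autoImplicit false

/-! The window data exist. -/

namespace Pool.Agent.Y753.SH

open Finset Filter MeasureTheory MonoidAlgebra Topology
open Pool.Agent.Y755
open Pool.Agent.W184.NZ
open Pool.Agent.Y753.NL
open Pool.Agent.H306R2 (dv dv_nonneg dv_one)

lemma gst_Bd {k M z K0 J Rs N K : ℕ} {H δ c y m : ℝ} (h : Sy c z y J Rs N K) (hA : Bd1 m (Az k K0 z)) :
    Bd1 (m * Real.exp (Real.log y * (160 * (M * ((Rs:ℝ) + 1))))) (gst k M z K0 H δ y J Rs) := by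
  unfold gst
  refine hA.mul ?_
  have h1 := Bd1_prod J (f := fun i => NK (20 * (M * RR Rs i)) (k:ℝ) (x1 (IZ z y i)) *
        NK (20 * (M * RR Rs i)) (4 * (k:ℝ)) (yb (fun p => min 1 (H * (δ * Real.log p))) (IZ z y i)))
    (N := fun i => bb y i ^ (80 * M * (Rs + i))) fun i hi => by
      have hb : 1 ≤ bb y i := by have := h.rg.b10 i hi; linarith
      have hyb : Bd1 (bb y i) (yb (fun p => min 1 (H * (δ * Real.log p))) (IZ z y i)) := by
        unfold yb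
        exact Bd1.sum fun p hp => Bd1.single ⟨(rg_b h.rg i p hp).1.ne_zero, (rg_b h.rg i p hp).2⟩ _
      have h2 := (NK_Bd1 hb (x1_Bd (rg_b h.rg i)) (20 * (M * RR Rs i)) (k:ℝ)).mul
        (NK_Bd1 hb hyb (20 * (M * RR Rs i)) (4 * (k:ℝ)))
      rw [← pow_add] at h2
      have e : 80 * M * (Rs + i) = 20 * (M * RR Rs i) + 20 * (M * RR Rs i) := by unfold RR; ring
      rw [e]
      exact h2
  refine h1.mono ((len h.y1 Rs J (80 * M)).trans (le_of_eq ?_))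
  push_cast
  congr 1; ring

/-- the window data exist -/
theorem cx_ev (hST : S_STAR) {k : ℕ} (hk : 1 ≤ k) {H : ℝ} (hH : 0 ≤ H) : ∃ CM CS : ℝ, 0 ≤ CM ∧ 0 ≤ CS ∧
    ∀ (M z Rs : ℕ) (ε e1 c η d x0 : ℝ), Pk M z Rs ε e1 c η d x0 → 2 * k ≤ M → η * (M * ((Rs:ℝ) + 1)) ≤ 1 / (16000 * M) →
    ∃ (K0 : ℕ) (lam δ1 : ℝ), 1 ≤ lam ∧ 0 < δ1 ∧ ∀ᶠ T : ℝ in atTop, ∀ δ : ℝ, lam / Real.log T ≤ δ → δ ≤ δ1 →
      ∀ J : ℕ, PJ c z η Rs d T J →
        Cx k M z Rs J K0 ⌊T ^ ((1:ℝ) / 10)⌋₊ (NT T) (KT T) ε e1 c (yT η T) δ T CM CS H := by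
  obtain ⟨CM, hCM, hmv⟩ := mv_dom
  obtain ⟨CS, hCS, hst⟩ := hST k H hk hH
  refine ⟨CM, CS, hCM.le, hCS.le, fun M z Rs ε e1 c η d x0 P hkM hτ => ?_⟩
  have hM1 : (1:ℝ) ≤ M := by exact_mod_cast P.M1
  have hM0 : (0:ℝ) < M := by linarith
  have hε := P.e0
  have hε1 := P.e01
  have he1 := P.e10
  have he11 := P.e11
  have hη := P.η0
  have hk0 : (0:ℝ) < k := by exact_mod_cast hk
  have hk1 : (1:ℝ) ≤ k := by exact_mod_cast hk
  have h2kM : 2 * (k:ℝ) ≤ M := by exact_mod_cast hkM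
  have hkM' : (k:ℝ) ≤ M := by linarith
  obtain ⟨K1, hK1⟩ := Az_close (k := 1) le_rfl z hε
  obtain ⟨K2, hK2⟩ := Az_close hk z hε
  obtain ⟨K3, hK3⟩ := Az_ip (α := (k:ℝ)) z hε
  obtain ⟨K0, hK01, hK02, hK03⟩ : ∃ K0 : ℕ, K1 ≤ K0 ∧ K2 ≤ K0 ∧ K3 ≤ K0 := ⟨K1 + K2 + K3, by omega, by omega, by omega⟩
  obtain ⟨m1, hA1'⟩ := Az_Bd 1 K0 z
  obtain ⟨m2, hA2'⟩ := Az_Bd (k:ℝ) K0 z
  obtain ⟨m, hm1, hm2, hm3⟩ : ∃ m : ℝ, 1 ≤ m ∧ m1 ≤ m ∧ m2 ≤ m :=
    ⟨max (max m1 m2) 1, le_max_right _ _, (le_max_left _ _).trans (le_max_left _ _), (le_max_right _ _).trans (le_max_left _ _)⟩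
  have hA1 : Bd1 m (Az 1 K0 z) := hA1'.mono hm2
  have hA2 : Bd1 m (Az k K0 z) := hA2'.mono hm3
  obtain ⟨l, hl1, hl2⟩ : ∃ l : ℝ, 1 ≤ l ∧ l1' (Az k K0 z) ≤ l := ⟨max (l1' (Az k K0 z)) 1, le_max_right _ _, le_max_left _ _⟩
  obtain ⟨c20, hc20, hDD⟩ := DD_low_u (M := (M:ℝ)) hM0
  obtain ⟨lam, hlam1, hlamx, hkey⟩ := key P (m := m) (l := l) (c2 := min c20 1) hm1 hl1 (lt_min hc20 one_pos)
  have hz1 : ∀ s : ℂ, 1 / 2 ≤ s.re → ‖es s (Pz z) ^ 1 * es s (Az 1 K0 z) - 1‖ ≤ ε := by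
    intro s hs
    have := hK1 K0 hK01 s hs
    rwa [Nat.cast_one] at this
  obtain ⟨δ1, hδ10, hpr⟩ := Pz_ratio hε1 hz1 hH
  refine ⟨K0, lam, min δ1 (1 / 16), hlam1, lt_min hδ10 (by norm_num), ?_⟩
  filter_upwards [hkey, eventually_ge_atTop (10 ^ 10),
    rpow_ev (p := 1 / 50) (q := 1 / 10) (by norm_num) (2 * m),
    rpow_ev (p := 1 / 400) (q := 1 / 10) (by norm_num) (2 * m ^ k),
    rpow_ev (p := 1 / 25) (q := 1) (by norm_num) (2 * m),
    rpow_ev (p := 1 / 10) (q := 1) (by norm_num) 2,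
    Real.tendsto_log_atTop.eventually_ge_atTop 1,
    ((tendsto_rpow_atTop (show (0:ℝ) < 1 / 10 by norm_num))).eventually_ge_atTop 2] with
    T tk t4 t5 t6 t7 t8 t9 t10 δ hδ1 hδ2' J hPJ
  have hδ2 : δ ≤ 1 / 16 := hδ2'.trans (min_le_right _ _)
  have hT0 : 0 < T := by linarith
  have hT1 : 1 ≤ T := by linarith
  have hL0 : 0 < Real.log T := by linarith
  have hx : lam ≤ δ * Real.log T := by rwa [div_le_iff₀ hL0] at hδ1
  have hδ0 : 0 < δ := lt_of_lt_of_le (div_pos (lt_of_lt_of_le one_pos hlam1) hL0) hδ1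
  have hkk := tk δ hδ1 hδ2 J hPJ
  have hS := hPJ.1
  have hly : Real.log (yT η T) = η * Real.log T := Real.log_exp _
  obtain ⟨y, hy⟩ : ∃ y, y = yT η T := ⟨_, rfl⟩
  rw [← hy] at hly hS hkk
  rw [← hy]
  obtain ⟨hi1, hi2⟩ := hK3 K0 hK03 δ hδ0.le
  obtain ⟨ip0, hip0⟩ : ∃ ip0, ip0 = ip δ (Az k K0 z) (Az k K0 z) := ⟨_, rfl⟩
  rw [← hip0] at hi1 hi2
  set P0 := ∏ p ∈ S0 z, Ed k δ p with hP0
  have hxy : x0 ≤ δ * Real.log y := by
    rw [hly]
    have h1 : x0 ≤ lam * η := by rwa [div_le_iff₀ hη] at hlamx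
    calc x0 ≤ lam * η := h1
      _ ≤ (δ * Real.log T) * η := mul_le_mul_of_nonneg_right hx hη.le
      _ = _ := by ring
  have hcm := P.cm k hk0 hkM' y δ hS.zy hδ0 hxy J hS.J1
  obtain ⟨EV, hEV⟩ : ∃ EV, EV = Real.exp ((k:ℝ) ^ 2 * Vd δ z y J) := ⟨_, rfl⟩
  have hEV0 : 0 < EV := by rw [hEV]; exact Real.exp_pos _
  have hDD1 : 1 ≤ DD k δ := DD_ge_one hk0 hδ0
  have hcm1 := hcm.1
  have hcm2 := hcm.2
  rw [← hEV] at hcm1 hcm2
  obtain ⟨D, hD⟩ : ∃ D, D = DD k δ := ⟨_, rfl⟩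
  rw [← hD] at hDD1 hcm1 hcm2
  have hMup : ip0 * EV ≤ (1 + 2 * ε) * D := by
    calc ip0 * EV ≤ P0 * EV := mul_le_mul_of_nonneg_right hi2 hEV0.le
      _ ≤ Real.exp ε * D := hcm2
      _ ≤ (1 + 2 * ε) * D := mul_le_mul_of_nonneg_right (exp_le_two hε.le (hε1.trans (by norm_num)))
          (zero_le_one.trans hDD1)
  have hMlo : (1 - 2 * ε) * D ≤ ip0 * EV := by
    have h1 : (1 - ε) * (Real.exp (-ε) * D) ≤ ip0 * EV := by
      calc (1 - ε) * (Real.exp (-ε) * D) ≤ (1 - ε) * (P0 * EV) := mul_le_mul_of_nonneg_left hcm1 (by linarith)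
        _ = ((1 - ε) * P0) * EV := by ring
        _ ≤ ip0 * EV := mul_le_mul_of_nonneg_right hi1 hEV0.le
    exact (low_two hε.le (hε1.trans (by norm_num)) (zero_le_one.trans hDD1)).trans h1
  have hκ1 : |(k:ℝ) - 1| ≤ M := by rw [abs_of_nonneg (by linarith)]; linarith
  have hET := P.ET1 y J hS.rg
  have hET0 := ETM_nonneg M c z y J Rs
  have he600 : ε * e1 ^ 2 / 600 ≤ ε / 600 := by
    have h1 : e1 ^ 2 ≤ 1 := pow_le_one₀ he1.le he11.le
    have : ε * e1 ^ 2 ≤ ε * 1 := mul_le_mul_of_nonneg_left h1 hε.le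
    linarith
  have n45 := N45M (c := c) P.M1 P.zM hS hδ0.le hκ1 (Az_mem (k:ℝ) K0 z) (hET.trans (by linarith))
  have n3 := N3M (c := c) P.M1 P.zM hS hδ0.le hκ1 (Az_mem (k:ℝ) K0 z)
  have e0 : 1 + ((k:ℝ) - 1) = k := by ring
  rw [e0] at n45 n3
  have n45' := n45.1
  rw [← hip0, ← hEV] at n45' n3
  obtain ⟨W, hW⟩ : ∃ W, W = T ^ ((1:ℝ) / 50) := ⟨_, rfl⟩
  have hW0 : 0 < W := by rw [hW]; positivity
  have hW1 : 1 ≤ W := by rw [hW]; exact Real.one_le_rpow hT1 (by norm_num)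
  have hWM : Real.exp (Real.log y * (180 * (M * ((Rs:ℝ) + 1)))) ≤ W := by
    rw [hly, hW, Real.rpow_def_of_pos hT0]
    refine Real.exp_le_exp.mpr ?_
    have e : η * Real.log T * (180 * (M * ((Rs:ℝ) + 1))) = 180 * (η * (M * ((Rs:ℝ) + 1))) * Real.log T := by ring
    rw [e, mul_comm (Real.log T)]
    exact mul_le_mul_of_nonneg_right (by linarith only [P.η1]) hL0.le
  obtain ⟨N, hN⟩ : ∃ N : ℕ, N = ⌊T ^ ((1:ℝ) / 10)⌋₊ := ⟨_, rfl⟩
  have hNle : (N:ℝ) ≤ T ^ ((1:ℝ)/10) := by rw [hN]; exact Nat.floor_le (by positivity)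
  have hNge : T ^ ((1:ℝ)/10) / 2 ≤ N := by
    have h1 := Nat.lt_floor_add_one (T ^ ((1:ℝ)/10))
    rw [← hN] at h1
    linarith only [h1, t10]
  rw [← hN]
  rw [Real.rpow_one] at t7 t8
  have hmN : m * W ≤ N := by
    rw [← hW] at t5
    linarith only [hNge, t5]
  have hNT : (N:ℝ) ≤ T / 2 := by linarith only [hNle, t8]
  have hmW2 : m * W * W ≤ T / 2 := by
    have e2 : W * W = T ^ ((1:ℝ)/25) := by rw [hW, ← Real.rpow_add hT0]; norm_num
    rw [mul_assoc, e2]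
    linarith only [t7]
  have hmW : m * W ≤ T / 2 := by
    have : m * W * 1 ≤ m * W * W := mul_le_mul_of_nonneg_left hW1 (by positivity)
    linarith
  -- the short polynomial
  have hW' : Real.exp (Real.log y * (80 * (M * ((Rs:ℝ) + 1)))) ^ k ≤ T ^ ((1:ℝ) / 400) := by
    rw [← Real.exp_nat_mul, Real.rpow_def_of_pos hT0, hly]
    refine Real.exp_le_exp.mpr ?_
    have e : (k:ℝ) * (η * Real.log T * (80 * (M * ((Rs:ℝ) + 1)))) = (80 * k * (η * (M * ((Rs:ℝ) + 1)))) * Real.log T := by ring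
    rw [e, mul_comm (Real.log T)]
    refine mul_le_mul_of_nonneg_right ?_ hL0.le
    have h1 : 80 * (k:ℝ) * (η * (M * ((Rs:ℝ) + 1))) ≤ 80 * k * (1 / (16000 * M)) := mul_le_mul_of_nonneg_left hτ (by positivity)
    refine h1.trans ?_
    have h2 : (k:ℝ) ≤ M / 2 := by linarith
    calc 80 * (k:ℝ) * (1 / (16000 * M)) ≤ 80 * (M / 2) * (1 / (16000 * M)) := by gcongr
      _ = 1 / 400 := by field_simp; norm_num
  have hf1B : Bd1 N (fp 1 M z K0 y J Rs ^ k) := by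
    have h1 : Bd1 (m * Real.exp (Real.log y * (80 * (M * ((Rs:ℝ) + 1))))) (fp 1 M z K0 y J Rs) := by
      unfold fp
      rw [Nat.cast_one]
      exact hA1.mul (Bm_Bd hS)
    refine (h1.pow k).mono ?_
    rw [mul_pow]
    have h2 := mul_le_mul_of_nonneg_left hW' (by positivity : 0 ≤ m ^ k)
    linarith only [h2, hNge, t6]
  have hfkB : Bd1 N (fp k M z K0 y J Rs) := by
    unfold fp
    exact (ABm_Bd (a := (k:ℝ)) hS hA2 (by linarith) hWM).mono hmN
  have hfkB' : Bd1 (m * W) (fp k M z K0 y J Rs) := by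
    unfold fp
    exact ABm_Bd (a := (k:ℝ)) hS hA2 (by linarith) hWM
  exact {
    k1 := hk
    kM := hkM
    e0 := hε
    e01 := hε1
    e10 := he1
    p1 := P.p1
    h4a := P.h4a
    sy := hS
    δ0 := hδ0
    δ1 := hδ2
    T1 := hT1
    zc1 := hz1
    zck := fun s hs => hK2 K0 hK02 s hs
    pr := hpr δ hδ0 (hδ2'.trans (min_le_left _ _))
    c1 := fun n => by
      have h1 := ABm_dom hS zero_le_one K0 (M := M) n
      unfold fp
      rw [Nat.cast_one]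
      refine ⟨h1.1, h1.2.trans ?_⟩
      rcases eq_or_ne n 0 with h0 | h0
      · subst h0
        have : dv 1 0 = 0 := by unfold dv; simp
        rw [this]; exact zero_le_one
      · exact (dv_one_left h0).le
    ck := fun n => ABm_dom hS hk0.le K0 (M := M) n
    b1 := hf1B
    bk := hfkB
    NT := hNT
    low := by
      rw [← hD]
      refine le_trans ?_ n45'
      have h1 : ETM M c z y J Rs ≤ ε / 600 := hET.trans he600
      have h2 : 0 ≤ ip0 * EV := le_trans (by nlinarith) hMlo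
      calc (1 - 3 * ε) * D ≤ (1 - ε / 600) * ((1 - 2 * ε) * D) := by
            have h3 : 1 - 3 * ε ≤ (1 - ε / 600) * (1 - 2 * ε) := by nlinarith
            have := mul_le_mul_of_nonneg_right h3 (zero_le_one.trans hDD1)
            linarith
        _ ≤ (1 - ε / 600) * (ip0 * EV) := mul_le_mul_of_nonneg_left hMlo (by linarith)
        _ ≤ (1 - ETM M c z y J Rs) * (ip0 * EV) := mul_le_mul_of_nonneg_right (by linarith) h2
    Q := by
      rw [← hD]
      unfold fp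
      refine n3.trans ?_
      have h1 : ETM M c z y J Rs ≤ ε / 600 := hET.trans he600
      have h2 : Real.exp (ETM M c z y J Rs) ≤ 3 := by
        have h3 : ETM M c z y J Rs ≤ 1 := by linarith
        have := Real.exp_le_exp.mpr h3
        have := Real.exp_one_lt_d9
        linarith
      have h4 : ip0 * EV ≤ 2 * D := by
        refine hMup.trans ?_
        nlinarith
      have h5 : 0 ≤ ip0 * EV := le_trans (by nlinarith) hMlo
      calc ETM M c z y J Rs * Real.exp (ETM M c z y J Rs) * (ip0 * EV) ≤ ε / 600 * 3 * (2 * D) := by gcongr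
        _ ≤ ε * D := by nlinarith
    bQ := fun i hi => by
      have h1 : Bd1 W (Qe (RR Rs i) (IZ z y i)) := (Qe_Bd (rg_b hS.rg i) _).mono (bbR_le hS (W_of P.M1 hS hWM) i)
      exact (hfkB'.mul h1).mono hmW2
    st := by
      have := hst M z Rs ε e1 c η d x0 P (by omega) y δ J _ _ K0 hS hδ0 hδ2 hxy
      unfold gst
      exact this
    bS := by
      have h1 := gst_Bd (k := k) (M := M) (K0 := K0) (H := H) (δ := δ) hS hA2
      refine h1.mono ?_
      have h2 := Wm_mono hS hWM (k := 160) (by norm_num)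
      have := mul_le_mul_of_nonneg_left h2 (by linarith : 0 ≤ m)
      linarith
    off := by
      have h1 := (hkk M k (Az k K0 z) D (Or.inr ⟨rfl, by linarith, by linarith⟩) hk0.le hkM' hA2 (Az_mem _ _ _) hl2
        (by rw [← hip0]; rw [hip0]; have := Az_ip_ge (δ := δ) hk0 K0 z; linarith)
        (by
          rw [← hip0, ← hEV]
          have h2 : ip0 * EV ≤ 2 * D := hMup.trans (by nlinarith)
          have h3 := mul_le_mul_of_nonneg_left h2 (by linarith : 0 ≤ T / 2)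
          linarith)
        (by
          have h2 := hDD k hk0 hkM' δ hδ0 (by linarith)
          rw [← hD] at h2
          refine le_trans ?_ h2
          exact mul_le_mul_of_nonneg_right (min_le_left _ _) (by positivity)) hDD1).2.2.2.2.2.2
      rw [← hD]
      unfold fp
      refine h1.trans ?_
      have : 0 ≤ T * D := by positivity
      nlinarith
    mv := fun g A hA hg => by
      have h1 := hmv δ (T / 2) (T / 2) g A (by linarith) hA hg le_rfl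
      have e1 : 2 * (T / 2) = T := by ring
      rw [e1] at h1
      refine h1.trans ?_
      have h2 := ip_self_nonneg δ g
      refine mul_le_mul_of_nonneg_left ?_ hCM.le
      exact mul_le_mul_of_nonneg_right (by linarith) h2
    CM0 := hCM.le
    CS0 := hCS.le
    H0 := hH }

end Pool.Agent.Y753.SH
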