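import Pool.Agent.Y753.SH.Sh7

set_option autoImplicit false

/-! One stage of the construction, for the shifts. -/

namespace Pool.Agent.Y753.SH

open Finset Filter MeasureTheory MonoidAlgebra Topology
open Pool.Agent.Y755
open Pool.Agent.W184.NZ
open Pool.Agent.Y753.NL
open Pool.Agent.H306R2 (dv dv_nonneg dv_one)

/-- covering a set integral -/
lemma int_cover {ι : Type*} (s : Finset ι) {f : ℝ → ℝ} (hf : Continuous f) (hf0 : ∀ t, 0 ≤ f t) {S A B : Set ℝ} {C : ι → Set ℝ}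
    {R : ℝ} (hS : MeasurableSet S) (hA : MeasurableSet A) (hB : MeasurableSet B) (hC : ∀ i ∈ s, MeasurableSet (C i))
    (hSR : S ⊆ Set.Icc 0 R) (hAR : A ⊆ Set.Icc 0 R) (hBR : B ⊆ Set.Icc 0 R) (hCR : ∀ i ∈ s, C i ⊆ Set.Icc 0 R)
    (hcov : ∀ t ∈ S, t ∈ A ∨ t ∈ B ∨ ∃ i ∈ s, t ∈ C i) :
    ∫ t in S, f t ≤ (∫ t in A, f t) + (∫ t in B, f t) + ∑ i ∈ s, ∫ t in C i, f t := by
  classical
  have hint : ∀ V : Set ℝ, V ⊆ Set.Icc 0 R → IntegrableOn f V := fun V hV =>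
    (hf.continuousOn.integrableOn_compact isCompact_Icc).mono_set hV
  have i0 := (hint S hSR).integrable_indicator hS
  have iA := (hint A hAR).integrable_indicator hA
  have iB := (hint B hBR).integrable_indicator hB
  have iC : ∀ i ∈ s, Integrable ((C i).indicator f) volume := fun i hi => (hint _ (hCR i hi)).integrable_indicator (hC i hi)
  rw [← integral_indicator hS, ← integral_indicator hA, ← integral_indicator hB]
  have e1 : ∑ i ∈ s, ∫ t in C i, f t = ∫ t, ∑ i ∈ s, (C i).indicator f t := by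
    rw [integral_finsetSum s iC]
    exact sum_congr rfl fun i hi => (integral_indicator (hC i hi)).symm
  have iAB : Integrable (fun t => A.indicator f t + B.indicator f t) volume := iA.add iB
  rw [e1, ← integral_add iA iB, ← integral_add iAB (integrable_finsetSum s iC)]
  refine integral_mono i0 (iAB.add (integrable_finsetSum s iC)) fun t => ?_
  have hn : ∀ V : Set ℝ, 0 ≤ V.indicator f t := fun V => Set.indicator_nonneg (fun t _ => hf0 t) t
  have hsn : 0 ≤ ∑ i ∈ s, (C i).indicator f t := sum_nonneg fun i _ => hn _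
  have hA0 := hn A
  have hB0 := hn B
  simp only
  by_cases ht : t ∈ S
  · rw [Set.indicator_of_mem ht]
    rcases hcov t ht with h | h | ⟨i, hi, h⟩
    · rw [Set.indicator_of_mem h] at hA0 ⊢; linarith
    · rw [Set.indicator_of_mem h] at hB0 ⊢; linarith
    · have h1 := single_le_sum (f := fun i => (C i).indicator f t) (fun j _ => hn (C j)) hi
      rw [Set.indicator_of_mem h] at h1
      linarith
  · rw [Set.indicator_of_notMem ht]
    linarith

/-- supremum bound -/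
lemma ec_norm_le {g : P1} {A : PC} (h : Do g A) {N : ℝ} (hg : Bd1 N g) {s : ℂ} (hs : 0 ≤ s.re) : ‖ec s A‖ ≤ l1' g := by
  rw [ec_eq s (subset_refl _)]
  refine (norm_sum_le _ _).trans ?_
  rw [l1']
  refine le_trans (sum_le_sum_of_subset_of_nonneg h.supp fun _ _ _ => norm_nonneg _) (sum_le_sum fun n hn => ?_)
  rw [norm_mul]
  have hn0 := (hg n hn).1
  refine (mul_le_of_le_one_right (norm_nonneg _) ?_).trans ((h n).trans (le_abs_self _))
  rw [Complex.norm_natCast_cpow_of_pos (Nat.pos_of_ne_zero hn0)]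
  exact Real.rpow_le_one_of_one_le_of_nonpos (by exact_mod_cast Nat.pos_of_ne_zero hn0) (by simpa using hs)

/-- the length -/
noncomputable def L0 (X : ℝ) : ℕ := ⌊(2 * X) ^ ((1:ℝ)/10)⌋₊

/-- the Dirichlet polynomial -/
noncomputable def pq {k : ℕ} (δ : ℝ) (a : Fin k → ℝ) (N : ℕ) (t : ℝ) : ℂ :=
  ec (1 / 2 + δ + t * Complex.I) (Da (fun j => a j * δ) N)

lemma pq_cont {k : ℕ} (δ : ℝ) (a : Fin k → ℝ) (N : ℕ) : Continuous (pq δ a N) := Cx.ccD _

/-- one stage -/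
def StS (σ : ℕ → ℝ) (n : ℕ) (X δ : ℝ) (U : Set ℝ) : Prop :=
  (MeasurableSet U ∧ U ⊆ Set.Icc 0 X ∧ volume.real (Set.Icc 0 X \ U) ≤ X / (n + 1)) ∧
  ∀ k : ℕ, 1 ≤ k → k ≤ n + 1 → ∀ a : Fin k → ℝ, (∀ j, ∃ i, i ≤ n ∧ a j = σ i) →
    ∫ t in U, ‖Cx.zp δ a t - pq δ a (L0 X) t‖ ^ 2 ≤ 1 / (n + 1) * (X * DD k δ) ∧
    ∫ t in Set.Icc 0 X \ U, ‖pq δ a (L0 X) t‖ ^ 2 ≤ 1 / (n + 1) * (X * DD k δ)

/-- the mass near the ends -/
lemma edges : ∃ C : ℝ, 0 < C ∧ ∀ (k : ℕ) (_ : 1 ≤ k) (δ w R : ℝ) (N : ℕ) (a : Fin k → ℝ), 0 < δ → δ ≤ 1 / 2 → 1 ≤ w → (N:ℝ) ≤ w →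
    ∫ t in Set.Icc 0 w, ‖pq δ a N t‖ ^ 2 ≤ C * (w * DD k δ) ∧
    ∫ t in Set.Icc (R - 1) R, ‖pq δ a N t‖ ^ 2 ≤ (N:ℝ) ^ 3 * DD k δ := by
  obtain ⟨C, hC, hmv⟩ := mv_dom
  refine ⟨C, hC, fun k hk δ w R N a hδ hδ1 hw hN => ⟨?_, ?_⟩⟩
  · have h1 := hmv δ w N _ _ hw (Da_Do (fun j => a j * δ) N) (DN_Bd (k:ℝ) N) hN
    have hk0 : (0:ℝ) < k := by exact_mod_cast hk
    have h2 : ∫ t in Set.Icc 0 w, ‖pq δ a N t‖ ^ 2 ≤ ∫ t in (0:ℝ)..(2 * w), ‖pq δ a N t‖ ^ 2 := by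
      rw [intervalIntegral.integral_of_le (by linarith), ← integral_Icc_eq_integral_Ioc]
      refine setIntegral_mono_set (((pq_cont δ a N).norm.pow 2).continuousOn.integrableOn_compact isCompact_Icc)
        (Eventually.of_forall fun t => by positivity) (Eventually.of_forall fun t ht => ?_)
      have h3 : t ∈ Set.Icc 0 w := ht
      exact ⟨h3.1, by linarith [h3.2]⟩
    refine h2.trans (h1.trans ?_)
    have := ip_DN_le hk0 hδ N
    gcongr
  · have hk0 : (0:ℝ) < k := by exact_mod_cast hk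
    have h1 : ∀ t : ℝ, ‖pq δ a N t‖ ^ 2 ≤ DD k δ * (N:ℝ) ^ 3 := by
      intro t
      have h2 := ec_norm_le (Da_Do (fun j => a j * δ) N) (DN_Bd (k:ℝ) N) (s := 1 / 2 + δ + t * Complex.I)
        (by rw [half_re]; linarith)
      exact (pow_le_pow_left₀ (norm_nonneg _) h2 2).trans (DN_l1 hk0 hδ hδ1 N)
    have h3 : ∫ t in Set.Icc (R - 1) R, ‖pq δ a N t‖ ^ 2 ≤ ∫ t in Set.Icc (R - 1) R, DD k δ * (N:ℝ) ^ 3 := by
      refine setIntegral_mono_on (((pq_cont δ a N).norm.pow 2).continuousOn.integrableOn_compact isCompact_Icc)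
        (by fun_prop : Continuous fun _ : ℝ => DD k δ * (N:ℝ) ^ 3).continuousOn.integrableOn_Icc measurableSet_Icc fun t _ => h1 t
    refine h3.trans (le_of_eq ?_)
    rw [setIntegral_const, Real.volume_real_Icc_of_le (by linarith)]
    simp only [smul_eq_mul]; ring

/-- the stages exist -/
theorem stageS (hST : S_STAR) (σ : ℕ → ℝ) {δ : ℝ → ℝ} (hδ0 : Tendsto δ atTop (𝓝 0))
    (hδL : Tendsto (fun T => δ T * Real.log T) atTop atTop) (n : ℕ) :
    ∀ᶠ X : ℝ in atTop, ∃ U : Set ℝ, StS σ n X (δ X) U := by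
  have hpos : ∀ᶠ T in atTop, 0 < δ T := by
    filter_upwards [hδL.eventually_gt_atTop 0, eventually_gt_atTop 1] with T hT hT1
    exact (pos_iff_pos_of_mul_pos hT).mpr (Real.log_pos hT1)
  obtain ⟨H, hH0, hH⟩ : ∃ H : ℝ, 0 ≤ H ∧ ∀ i ≤ n, |σ i| ≤ H :=
    ⟨∑ i ∈ range (n + 1), |σ i|, sum_nonneg fun _ _ => abs_nonneg _, fun i hi =>
      single_le_sum (f := fun i => |σ i|) (fun _ _ => abs_nonneg _) (mem_range.mpr (by omega))⟩
  obtain ⟨N1, hN1⟩ : ∃ N1 : ℝ, N1 = (n:ℝ) + 1 := ⟨_, rfl⟩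
  have hn1 : 1 ≤ N1 := by rw [hN1]; have : (0:ℝ) ≤ n := Nat.cast_nonneg n; linarith
  have hcx := fun k' : ℕ => cx_ev hST (k := k' + 1) (by omega) hH0
  choose CM CS hCM hCS hcx using hcx
  obtain ⟨Bf, hBf⟩ : ∃ Bf : ℕ → ℝ, ∀ k', Bf k' = (2 * 100 ^ (k' + 1) + 6) * CM k' +
    ((12 + 2 * (((k' + 1 : ℕ) : ℝ) + 1)) * CM k' + 9 ^ (k' + 1) * (4 + 16 * CM k' * CS k')) := ⟨_, fun _ => rfl⟩
  have hBf0 : ∀ k', 0 ≤ Bf k' := fun k' => by
    rw [hBf]; have := hCM k'; have := hCS k'; positivity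
  obtain ⟨B, hB⟩ : ∃ B : ℝ, B = 1 + ∑ k' ∈ range (n + 1), Bf k' := ⟨_, rfl⟩
  have hB1 : 1 ≤ B := by rw [hB]; have := sum_nonneg (s := range (n + 1)) (f := Bf) fun k' _ => hBf0 k'; linarith
  have hBk : ∀ k' < n + 1, Bf k' ≤ B := fun k' hk' => by
    have := single_le_sum (f := Bf) (fun j _ => hBf0 j) (mem_range.mpr hk')
    rw [hB]; linarith
  have hBc : ∀ k' < n + 1, (2 * 100 ^ (k' + 1) + 6) * CM k' ≤ B := fun k' hk' => by
    refine le_trans ?_ (hBk k' hk')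
    rw [hBf]
    have := hCM k'; have := hCS k'
    have : 0 ≤ (12 + 2 * (((k' + 1 : ℕ) : ℝ) + 1)) * CM k' + 9 ^ (k' + 1) * (4 + 16 * CM k' * CS k') := by positivity
    linarith
  have hBm : ∀ k' < n + 1, (12 + 2 * (((k' + 1 : ℕ) : ℝ) + 1)) * CM k' + 9 ^ (k' + 1) * (4 + 16 * CM k' * CS k') ≤ B := fun k' hk' => by
    refine le_trans ?_ (hBk k' hk')
    rw [hBf]
    have := hCM k'
    have : 0 ≤ (2 * 100 ^ (k' + 1) + 6) * CM k' := by positivity
    linarith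
  obtain ⟨q, hq⟩ : ∃ q : ℝ, q = 1 / (100 * N1 ^ 2 * B) := ⟨_, rfl⟩
  have hB0 : 0 < B := by linarith
  have hN0 : 0 < N1 := by linarith
  have hq0 : 0 < q := by rw [hq]; positivity
  have hqe : 100 * (q * B) * N1 ^ 2 = 1 := by rw [hq]; field_simp
  have hqB0 : 0 < q * B := by positivity
  have hqB : q ≤ q * B := le_mul_of_one_le_right hq0.le hB1
  have hqN : 100 * (q * B) * N1 ≤ 1 := by
    refine le_trans (mul_le_mul_of_nonneg_left ?_ (by positivity)) hqe.le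
    nlinarith
  have hqB1 : 100 * (q * B) ≤ 1 := by
    refine le_trans ?_ hqN
    exact le_mul_of_one_le_right (by positivity) hn1
  have hq1 : 100 * q ≤ 1 := by linarith
  obtain ⟨ε, hεd⟩ : ∃ ε : ℝ, ε = q ^ 2 := ⟨_, rfl⟩
  have hε : 0 < ε := by rw [hεd]; positivity
  have hsε : √ε = q := by rw [hεd]; exact Real.sqrt_sq hq0.le
  have hε1 : ε ≤ 1 / 10 := by rw [hεd]; nlinarith
  have hεq : ε ≤ q := by rw [hεd]; nlinarith
  obtain ⟨M, hM⟩ : ∃ M : ℕ, M = 2 * (n + 1) := ⟨_, rfl⟩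
  have hM0 : (0:ℝ) < M := by rw [hM]; push_cast; positivity
  obtain ⟨z, Rs, e1, c, η, d, x0, hz, P, hτ⟩ := Pk_ex2 (M := M) (by omega) hε hε1 0 (τ := 1 / (16000 * M)) (by positivity)
  obtain ⟨lam, hlam, hw1⟩ := win1 P
  obtain ⟨CE, hCE, hedge⟩ := edges
  have hall : ∀ᶠ X : ℝ in atTop, ∀ k' ∈ range (n + 1), ∀ J : ℕ, PJ c z η Rs d (2 * X) J →
      ∃ K0, Cx (k' + 1) M z Rs J K0 (L0 X) (NT (2 * X)) (KT (2 * X)) ε e1 c (yT η (2 * X)) (δ X) (2 * X) (CM k') (CS k') H := by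
    rw [eventually_all_finset]
    intro k' hk'
    rw [mem_range] at hk'
    obtain ⟨K0, l3, δ1, hl3, hδ1, hev⟩ := hcx k' M z Rs ε e1 c η d x0 P (by omega) hτ
    filter_upwards [two_mul_tendsto.eventually hev, hδL.eventually_ge_atTop l3, hpos,
      hδ0.eventually (gt_mem_nhds hδ1), eventually_gt_atTop 1] with X t2 t5 t6 t7 t8 J hJ
    have hLg := Real.log_pos t8
    have hX0 : 0 < X := by linarith
    have hLL : Real.log X ≤ Real.log (2 * X) := Real.log_le_log hX0 (by linarith)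
    exact ⟨K0, t2 (δ X) (by
      rw [div_le_iff₀ (hLg.trans_le hLL)]
      exact t5.trans (mul_le_mul_of_nonneg_left hLL t6.le)) t7.le J hJ⟩
  filter_upwards [hall, two_mul_tendsto.eventually hw1, two_mul_tendsto.eventually P.par,
    hδL.eventually_ge_atTop lam, hpos,
    hδ0.eventually (gt_mem_nhds (show (0:ℝ) < min (1 / 16) (1 / (H + 1)) by positivity)), eventually_gt_atTop 1,
    (two_mul_tendsto.eventually (rpow_ev (p := 4 / 5) (q := 1) (by norm_num) (16 * (CE + 1) * N1))),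
    (two_mul_tendsto.eventually (rpow_ev (p := 3 / 10) (q := 1) (by norm_num) (8 * N1))),
    eventually_ge_atTop (8 * (CE + 1) * N1)] with
    X t1 t2 t3 t5 t6 t7' t8 t11 t12 t13
  have t7 : δ X < 1 / 16 := lt_of_lt_of_le t7' (min_le_left _ _)
  have hHδ : H * δ X ≤ 1 := by
    have h1 : δ X ≤ 1 / (H + 1) := (lt_of_lt_of_le t7' (min_le_right _ _)).le
    calc H * δ X ≤ H * (1 / (H + 1)) := mul_le_mul_of_nonneg_left h1 hH0
      _ ≤ 1 := by rw [mul_one_div, div_le_one (by linarith)]; linarith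
  obtain ⟨J, hJ⟩ := t3
  have hLg := Real.log_pos t8
  have hX0 : 0 < X := by linarith
  have hLL : Real.log X ≤ Real.log (2 * X) := Real.log_le_log hX0 (by linarith)
  obtain ⟨hGm, hvol, -⟩ := t2 (δ X) (by
    rw [div_le_iff₀ (hLg.trans_le hLL)]
    exact t5.trans (mul_le_mul_of_nonneg_left hLL t6.le)) t7.le J hJ
  have e2 : 2 * X / 2 = X := by ring
  rw [e2] at hvol
  set G := Gh z (yT η (2 * X)) J Rs e1 (δ X) with hG
  obtain ⟨w, hw⟩ : ∃ w, w = (2 * X) ^ ((4:ℝ)/5) := ⟨_, rfl⟩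
  rw [← hw] at hvol
  have hw1 : 1 ≤ w := by rw [hw]; exact Real.one_le_rpow (by linarith) (by norm_num)
  rw [Real.rpow_one, ← hw] at t11
  rw [Real.rpow_one] at t12
  have hwX : 8 * (CE + 1) * N1 * w ≤ X := by nlinarith
  have hCN : 8 ≤ 8 * (CE + 1) * N1 := by nlinarith
  have hwX' : 8 * w ≤ X := le_trans (mul_le_mul_of_nonneg_right hCN (by linarith)) hwX
  obtain ⟨U, hU⟩ : ∃ U : Set ℝ, U = {t | t ∈ Set.Ioc (w + 1) (X - 1) ∧ ∀ i ∈ range (n + 1), t + σ i * δ X ∈ G} := ⟨_, rfl⟩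
  have hUm : MeasurableSet U := by
    have e1 : U = Set.Ioc (w + 1) (X - 1) ∩ ⋂ i ∈ range (n + 1), (fun t : ℝ => t + σ i * δ X) ⁻¹' G := by
      rw [hU]; ext t
      simp only [Set.mem_ofPred_eq, Set.mem_inter_iff, Set.mem_iInter, Set.mem_preimage]
    rw [e1]
    exact measurableSet_Ioc.inter (Finset.measurableSet_biInter _ fun i _ => (measurable_id.add_const _) hGm)
  have hUX : U ⊆ Set.Icc 0 X := by
    rw [hU]
    intro t ht
    exact ⟨by linarith [ht.1.1], by linarith [ht.1.2]⟩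
  obtain ⟨BS, hBS⟩ : ∃ BS : ℕ → Set ℝ, ∀ i, BS i = Cx.Bs z Rs J e1 (yT η (2 * X)) (δ X) (2 * X) (σ i) := ⟨_, fun _ => rfl⟩
  have hBSm : ∀ i ∈ range (n + 1), MeasurableSet (BS i) := by
    intro i _
    rw [hBS]
    have e1 : Cx.Bs z Rs J e1 (yT η (2 * X)) (δ X) (2 * X) (σ i) =
        Set.Ioc ((2 * X) ^ ((4:ℝ)/5) + 1) (2 * X / 2 - 1) ∩ ((fun t : ℝ => t + σ i * δ X) ⁻¹' Gᶜ) := rfl
    rw [e1]
    exact measurableSet_Ioc.inter ((measurable_id.add_const _) hGm.compl)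
  have hBSX : ∀ i ∈ range (n + 1), BS i ⊆ Set.Icc 0 X := by
    intro i _ t ht
    rw [hBS] at ht
    have h1 := ht.1.1
    have h2 := ht.1.2
    rw [← hw] at h1
    exact ⟨by linarith, by linarith⟩
  have hcov : ∀ t ∈ Set.Icc 0 X \ U, t ∈ Set.Icc 0 (w + 1) ∨ t ∈ Set.Icc (X - 1) X ∨ ∃ i ∈ range (n + 1), t ∈ BS i := by
    intro t ht
    by_cases h1 : t ≤ w + 1
    · exact Or.inl ⟨ht.1.1, h1⟩
    by_cases h2 : X - 1 < t
    · exact Or.inr (Or.inl ⟨h2.le, ht.1.2⟩)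
    refine Or.inr (Or.inr ?_)
    by_contra h3
    push Not at h3
    refine ht.2 ?_
    rw [hU]
    refine ⟨⟨not_le.mp h1, not_lt.mp h2⟩, fun i hi => ?_⟩
    by_contra h4
    refine h3 i hi ?_
    rw [hBS]
    refine ⟨⟨?_, ?_⟩, h4⟩
    · rw [← hw]; exact not_le.mp h1
    · rw [e2]; exact not_lt.mp h2
  have hA1 : Set.Icc 0 (w + 1) ⊆ Set.Icc 0 X := Set.Icc_subset_Icc_right (by linarith)
  have hA2 : Set.Icc (X - 1) X ⊆ Set.Icc 0 X := Set.Icc_subset_Icc_left (by linarith)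
  have cover := fun {f : ℝ → ℝ} (hf : Continuous f) (hf0 : ∀ t, 0 ≤ f t) =>
    int_cover (range (n + 1)) hf hf0 (S := Set.Icc 0 X \ U) (A := Set.Icc 0 (w + 1)) (B := Set.Icc (X - 1) X) (C := BS) (R := X)
      (measurableSet_Icc.diff hUm) measurableSet_Icc measurableSet_Icc hBSm Set.sdiff_subset hA1 hA2 hBSX hcov
  have hσδ : ∀ i ∈ range (n + 1), |σ i * δ X| ≤ 1 := by
    intro i hi
    rw [abs_mul, abs_of_pos t6]
    exact (mul_le_mul_of_nonneg_right (hH i (by have := mem_range.mp hi; omega)) t6.le).trans hHδ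
  refine ⟨U, ⟨hUm, hUX, ?_⟩, ?_⟩
  · have h1 := cover (continuous_const (y := (1:ℝ))) (fun _ => zero_le_one)
    rw [setIntegral_const, setIntegral_const, setIntegral_const, Real.volume_real_Icc_of_le (by linarith),
      Real.volume_real_Icc_of_le (by linarith)] at h1
    simp only [smul_eq_mul, mul_one] at h1
    have h2 : ∀ i ∈ range (n + 1), ∫ t in BS i, (1:ℝ) ≤ ε * (2 * X) := by
      intro i hi
      have h3 := shift_int (f := fun _ => (1:ℝ)) continuous_const (fun _ => zero_le_one) (V := BS i) (S := Set.Ioc w X \ G)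
        (A := 0) (B := X) (h := σ i * δ X) (measurableSet_Ioc.diff hGm) (fun t ht => ⟨by linarith [ht.1.1], ht.1.2⟩) (fun t ht => by
          rw [hBS] at ht
          have h4 := abs_le.mp (hσδ i hi)
          have h5 := ht.1.1
          have h6 := ht.1.2
          rw [← hw] at h5
          exact ⟨⟨by linarith, by linarith⟩, ht.2⟩)
      refine h3.trans ?_
      rw [setIntegral_const]
      simp only [smul_eq_mul, mul_one]
      exact hvol
    have h3 := sum_le_sum h2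
    rw [sum_const, card_range, nsmul_eq_mul] at h3
    push_cast at h3
    rw [← hN1] at h3 ⊢
    rw [le_div_iff₀ hN0]
    have h4 : volume.real (Set.Icc 0 X \ U) ≤ (w + 1) + 1 + N1 * (ε * (2 * X)) := by linarith
    refine (mul_le_mul_of_nonneg_right h4 hN0.le).trans ?_
    have h5 : (w + 1 + 1) * N1 ≤ 3 * (X / 8) := by
      have h6 : N1 * w ≤ X / 8 := by
        have : N1 * w * 1 ≤ N1 * w * (CE + 1) := mul_le_mul_of_nonneg_left (by linarith) (by positivity)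
        nlinarith
      have h7 : N1 ≤ N1 * w := le_mul_of_one_le_right hN0.le hw1
      nlinarith
    have h6 : N1 * (ε * (2 * X)) * N1 ≤ X / 8 := by
      have h7 : ε * N1 ^ 2 ≤ 1 / 100 := by
        have h8 : ε * N1 ^ 2 ≤ (q * B) * N1 ^ 2 := mul_le_mul_of_nonneg_right (hεq.trans hqB) (by positivity)
        linarith
      have h8 : N1 * (ε * (2 * X)) * N1 = (ε * N1 ^ 2) * (2 * X) := by ring
      rw [h8]
      have := mul_le_mul_of_nonneg_right h7 (by linarith : 0 ≤ 2 * X)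
      linarith
    nlinarith
  · intro k hk1 hk2 a ha
    obtain ⟨k', rfl⟩ : ∃ k', k = k' + 1 := ⟨k - 1, by omega⟩
    have hk' : k' < n + 1 := by omega
    obtain ⟨K0, hX⟩ := t1 k' (mem_range.mpr hk') J hJ
    have hD : 1 ≤ DD ((k' + 1 : ℕ) : ℝ) (δ X) := hX.D1
    have hDX : 0 ≤ X * DD ((k' + 1 : ℕ) : ℝ) (δ X) := by positivity
    have haH : ∀ j, |a j| ≤ H := fun j => by
      obtain ⟨i, hi, hij⟩ := ha j
      rw [hij]; exact hH i hi
    rw [← hN1]
    constructor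
    · have h1 := hX.clS a hUm (hUX.trans (Set.Icc_subset_Icc_right (by linarith))) (fun t ht j => by
        obtain ⟨i, hi, hij⟩ := ha j
        rw [hU] at ht
        rw [hij]
        exact ht.2 i (mem_range.mpr (by omega)))
      refine h1.trans ?_
      have h2 : (2 * 100 ^ (k' + 1) + 6) * CM k' * ε ≤ B * q := mul_le_mul (hBc k' hk') hεq hε.le hB0.le
      have h3 : B * q * 2 ≤ 1 / N1 := by
        rw [le_div_iff₀ hN0]
        nlinarith
      calc (2 * 100 ^ (k' + 1) + 6) * CM k' * ε * (2 * X * DD ((k' + 1 : ℕ) : ℝ) (δ X)) ≤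
          B * q * (2 * X * DD ((k' + 1 : ℕ) : ℝ) (δ X)) := mul_le_mul_of_nonneg_right h2 (by positivity)
        _ = B * q * 2 * (X * DD ((k' + 1 : ℕ) : ℝ) (δ X)) := by ring
        _ ≤ _ := mul_le_mul_of_nonneg_right h3 hDX
    · have h1 := cover (f := fun t => ‖pq (δ X) a (L0 X) t‖ ^ 2) ((pq_cont (δ X) a (L0 X)).norm.pow 2) (fun t => sq_nonneg _)
      have hL0 : (L0 X : ℝ) ≤ (2 * X) ^ ((1:ℝ)/10) := Nat.floor_le (by positivity)
      have hL1 : (L0 X : ℝ) ≤ w + 1 := by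
        refine hL0.trans ?_
        have : (2 * X) ^ ((1:ℝ)/10) ≤ w := by rw [hw]; exact Real.rpow_le_rpow_of_exponent_le (by linarith) (by norm_num)
        linarith
      obtain ⟨h2, h3⟩ := hedge (k' + 1) (by omega) (δ X) (w + 1) X (L0 X) a t6 (by linarith) (by linarith) hL1
      have h4 : ∀ i ∈ range (n + 1), ∫ t in BS i, ‖pq (δ X) a (L0 X) t‖ ^ 2 ≤ B * q * (2 * X * DD ((k' + 1 : ℕ) : ℝ) (δ X)) := by
        intro i hi
        have h5 := hX.maS haH (hH i (by have := mem_range.mp hi; omega)) hHδ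
        rw [← hBS, hsε] at h5
        refine h5.trans ?_
        refine mul_le_mul_of_nonneg_right ?_ (by positivity)
        exact mul_le_mul_of_nonneg_right (hBm k' hk') hq0.le
      have h5 := sum_le_sum h4
      rw [sum_const, card_range, nsmul_eq_mul] at h5
      push_cast at h5 hDX hD h2 h3 ⊢
      rw [← hN1] at h5
      obtain ⟨D, hD'⟩ : ∃ D, D = DD ((k':ℝ) + 1) (δ X) := ⟨_, rfl⟩
      rw [← hD'] at h5 hDX hD h2 h3 ⊢
      have hD0 : 0 ≤ D := by linarith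
      have h6 : (L0 X : ℝ) ^ 3 ≤ (2 * X) ^ ((3:ℝ)/10) := by
        calc (L0 X : ℝ) ^ 3 ≤ ((2 * X) ^ ((1:ℝ)/10)) ^ 3 := pow_le_pow_left₀ (Nat.cast_nonneg _) hL0 3
          _ = (2 * X) ^ ((3:ℝ)/10) := by rw [← Real.rpow_natCast, ← Real.rpow_mul (by linarith)]; norm_num
      have h7 : (L0 X : ℝ) ^ 3 * N1 ≤ X / 4 := by nlinarith
      have h8 : CE * (w + 1) * N1 ≤ X / 4 := by
        have h9 : CE * (w + 1) * N1 ≤ CE * (2 * w) * N1 := by gcongr; linarith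
        have h10 : CE * w * N1 ≤ (CE + 1) * N1 * w := by nlinarith [mul_pos hN0 (lt_of_lt_of_le one_pos hw1)]
        nlinarith
      have h9 : N1 * (B * q * (2 * X)) * N1 ≤ X / 4 := by
        have e3 : N1 * (B * q * (2 * X)) * N1 = ((q * B) * N1 ^ 2) * (2 * X) := by ring
        rw [e3]
        have e4 : (q * B) * N1 ^ 2 = 1 / 100 := by linarith
        rw [e4]; linarith
      rw [div_mul_eq_mul_div, one_mul, le_div_iff₀ hN0]
      have h10 := mul_le_mul_of_nonneg_right (h1.trans (add_le_add (add_le_add h2 h3) h5)) hN0.le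
      refine h10.trans ?_
      calc (CE * ((w + 1) * D) + (L0 X : ℝ) ^ 3 * D + N1 * (B * q * (2 * X * D))) * N1 =
          (CE * (w + 1) * N1 + (L0 X : ℝ) ^ 3 * N1 + N1 * (B * q * (2 * X)) * N1) * D := by ring
        _ ≤ (X / 4 + X / 4 + X / 4) * D := mul_le_mul_of_nonneg_right (by linarith) hD0
        _ ≤ X * D := mul_le_mul_of_nonneg_right (by linarith) hD0

/-- the sets along a path -/
theorem path_S (hST : S_STAR) (σ : ℕ → ℝ) {δ : ℝ → ℝ} (hδ0 : Tendsto δ atTop (𝓝 0))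
    (hδL : Tendsto (fun T => δ T * Real.log T) atTop atTop) :
    ∃ (U : ℝ → Set ℝ) (N : ℝ → ℕ), Tendsto N atTop atTop ∧ (∀ T, MeasurableSet (U T)) ∧
      ∀ᶠ T in atTop, StS σ (N T) T (δ T) (U T) := by
  have h : ∀ n : ℕ, ∀ᶠ T in atTop, ∃ U : {U : Set ℝ // MeasurableSet U}, StS σ n T (δ T) (U : Set ℝ) := by
    intro n
    filter_upwards [stageS hST σ hδ0 hδL n] with T hT
    obtain ⟨U, hU⟩ := hT
    exact ⟨⟨U, hU.1.1⟩, hU⟩
  have : Nonempty {U : Set ℝ // MeasurableSet U} := ⟨⟨∅, MeasurableSet.empty⟩⟩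
  obtain ⟨U, N, hN, hU⟩ := diag h
  exact ⟨fun T => U T, N, hN, fun T => (U T).2, hU⟩

end Pool.Agent.Y753.SH
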