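import Pool.Agent.Y753.SH.Sh8

set_option autoImplicit false

/-! The limits of the shifted moments along a path. -/

namespace Pool.Agent.Y753.SH

open Finset Filter MeasureTheory MonoidAlgebra Topology
open Pool.Agent.Y755
open Pool.Agent.W184.NZ
open Pool.Agent.Y753.NL
open Pool.Agent.H306R2 (dv dv_nonneg dv_one aF)

/-- two products -/
lemma two_prod {x y A B : ℂ} {l : ℝ} (hl : 1 ≤ l) :
    ‖x * (starRingEnd ℂ) y - A * (starRingEnd ℂ) B‖ ≤ l * (‖x - A‖ ^ 2 + ‖y - B‖ ^ 2) + 1 / l * (‖A‖ ^ 2 + ‖B‖ ^ 2) := by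
  have hl0 : 0 < l := by linarith
  have e1 : x * (starRingEnd ℂ) y - A * (starRingEnd ℂ) B = (x - A) * (starRingEnd ℂ) (y - B) + (x - A) * (starRingEnd ℂ) B +
      A * (starRingEnd ℂ) (y - B) := by
    simp only [map_sub]; ring
  have h1 : ‖x * (starRingEnd ℂ) y - A * (starRingEnd ℂ) B‖ ≤ ‖x - A‖ * ‖y - B‖ + ‖x - A‖ * ‖B‖ + ‖A‖ * ‖y - B‖ := by
    rw [e1]
    refine (norm_add_le _ _).trans (add_le_add ((norm_add_le _ _).trans ?_) ?_)
    · rw [norm_mul, norm_mul, RCLike.norm_conj, RCLike.norm_conj]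
    · rw [norm_mul, RCLike.norm_conj]
  refine h1.trans ?_
  generalize ‖x - A‖ = u
  generalize ‖y - B‖ = v
  generalize ‖A‖ = p
  generalize ‖B‖ = q
  have h2 : u * v ≤ l * (u ^ 2 + v ^ 2) / 2 := by nlinarith [sq_nonneg (u - v), sq_nonneg u, sq_nonneg v]
  have h3 : ∀ u q : ℝ, u * q ≤ l * u ^ 2 / 2 + 1 / l * q ^ 2 / 2 := by
    intro u q
    have h4 : 0 ≤ 1 / l * (l * u - q) ^ 2 := by positivity
    have e2 : 1 / l * (l * u - q) ^ 2 = l * u ^ 2 - 2 * (u * q) + 1 / l * q ^ 2 := by field_simp; ring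
    rw [e2] at h4
    linarith
  have h4 := h3 u q
  have h5 := h3 v p
  have h6 : 0 ≤ 1 / l * p ^ 2 := by positivity
  have h7 : 0 ≤ 1 / l * q ^ 2 := by positivity
  have h8 : 0 ≤ l * u ^ 2 := by positivity
  have h9 : 0 ≤ l * v ^ 2 := by positivity
  nlinarith

/-- one value of `T` -/
theorem one_T : ∃ C : ℝ, 0 < C ∧ ∀ (σ : ℕ → ℝ) (n : ℕ) (T δ : ℝ) (U : Set ℝ), StS σ n T δ U → 0 < δ → δ < 1 / 2 → 1 ≤ T →
    (L0 T : ℝ) ≤ T → ∀ k : ℕ, 1 ≤ k → k ≤ n + 1 → ∀ a b : Fin k → ℝ, (∀ j, ∃ i, i ≤ n ∧ a j = σ i) →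
    (∀ j, ∃ i, i ≤ n ∧ b j = σ i) →
    ‖(∫ t in U, Cx.zp δ a t * (starRingEnd ℂ) (Cx.zp δ b t)) - ((T:ℝ):ℂ) * dg δ (Icc 1 (L0 T)) (Da (fun j => a j * δ) (L0 T))
        (Da (fun j => b j * δ) (L0 T))‖ ≤
      C * (√(1 / ((n:ℝ) + 1)) * (T * DD k δ)) + 2 * (L0 T : ℝ) ^ 4 * DD k δ := by
  obtain ⟨C, hC, hmv⟩ := mv_dom
  refine ⟨3 + 2 * C, by positivity, fun σ n T δ U hS hδ hδ1 hT hLT k hk hkn a b ha hb => ?_⟩
  obtain ⟨L, hL⟩ : ∃ L, L = L0 T := ⟨_, rfl⟩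
  rw [← hL] at hLT ⊢
  have hk0 : (0:ℝ) < k := by exact_mod_cast hk
  obtain ⟨⟨hUm, hUT, -⟩, hS2⟩ := hS
  obtain ⟨a1, a2⟩ := hS2 k hk hkn a ha
  obtain ⟨b1, b2⟩ := hS2 k hk hkn b hb
  rw [← hL] at a1 a2 b1 b2
  obtain ⟨s, hs⟩ : ∃ s : ℝ, s = 1 / ((n:ℝ) + 1) := ⟨_, rfl⟩
  rw [← hs] at a1 a2 b1 b2 ⊢
  have hn0 : (0:ℝ) ≤ n := Nat.cast_nonneg n
  have hs0 : 0 < s := by rw [hs]; positivity
  have hs1 : s ≤ 1 := by rw [hs, div_le_one (by linarith)]; linarith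
  have hss : √s * √s = s := Real.mul_self_sqrt hs0.le
  have hsq : 0 < √s := Real.sqrt_pos.mpr hs0
  have hsq1 : √s ≤ 1 := by rw [Real.sqrt_le_one]; exact hs1
  have hD1 : 1 ≤ DD k δ := DD_ge_one hk0 hδ
  have hT0 : 0 < T := by linarith
  obtain ⟨D, hD⟩ : ∃ D, D = DD k δ := ⟨_, rfl⟩
  rw [← hD] at a1 a2 b1 b2 hD1 ⊢
  have hD0 : 0 < D := by linarith
  have cA := pq_cont δ a L
  have cB := pq_cont δ b L
  have cZ := Cx.zp_cont hδ1 a
  have cW := Cx.zp_cont hδ1 b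
  have hint : ∀ g : ℝ → ℝ, Continuous g → IntegrableOn g (Set.Icc 0 T) := fun g hg =>
    hg.continuousOn.integrableOn_compact isCompact_Icc
  have hintc : ∀ g : ℝ → ℂ, Continuous g → IntegrableOn g (Set.Icc 0 T) := fun g hg =>
    hg.continuousOn.integrableOn_compact isCompact_Icc
  have mA : ∀ x : Fin k → ℝ, ∫ t in U, ‖pq δ x L t‖ ^ 2 ≤ C * (T * D) := by
    intro x
    have h1 := hmv δ T L _ _ hT (Da_Do (fun j => x j * δ) L) (DN_Bd (k:ℝ) L) hLT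
    have h2 : ∫ t in U, ‖pq δ x L t‖ ^ 2 ≤ ∫ t in (0:ℝ)..(2 * T), ‖pq δ x L t‖ ^ 2 := by
      rw [intervalIntegral.integral_of_le (by linarith), ← integral_Icc_eq_integral_Ioc]
      refine setIntegral_mono_set (((pq_cont δ x L).norm.pow 2).continuousOn.integrableOn_compact isCompact_Icc)
        (Eventually.of_forall fun t => by positivity) (Eventually.of_forall fun t ht => ?_)
      have h3 := hUT ht
      exact ⟨h3.1, by linarith [h3.2]⟩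
    refine h2.trans (h1.trans ?_)
    have := ip_DN_le hk0 hδ L
    rw [← hD] at this
    gcongr
  -- closeness
  have cstar : Continuous (starRingEnd ℂ) := Complex.continuous_conj
  have cP : Continuous fun t => Cx.zp δ a t * (starRingEnd ℂ) (Cx.zp δ b t) := cZ.mul (cstar.comp cW)
  have cQ : Continuous fun t => pq δ a L t * (starRingEnd ℂ) (pq δ b L t) := cA.mul (cstar.comp cB)
  have q1 : Continuous fun t : ℝ => ‖Cx.zp δ a t - pq δ a L t‖ ^ 2 := (cZ.sub cA).norm.pow 2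
  have q2 : Continuous fun t : ℝ => ‖Cx.zp δ b t - pq δ b L t‖ ^ 2 := (cW.sub cB).norm.pow 2
  have q3 : Continuous fun t : ℝ => ‖pq δ a L t‖ ^ 2 := cA.norm.pow 2
  have q4 : Continuous fun t : ℝ => ‖pq δ b L t‖ ^ 2 := cB.norm.pow 2
  have q12 : Continuous fun t : ℝ => 1 / √s * (‖Cx.zp δ a t - pq δ a L t‖ ^ 2 + ‖Cx.zp δ b t - pq δ b L t‖ ^ 2) :=
    (q1.add q2).const_mul _
  have q34 : Continuous fun t : ℝ => 1 / (1 / √s) * (‖pq δ a L t‖ ^ 2 + ‖pq δ b L t‖ ^ 2) := (q3.add q4).const_mul _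
  have hl : 1 ≤ 1 / √s := by rw [le_div_iff₀ hsq]; linarith
  have I1 : ‖(∫ t in U, Cx.zp δ a t * (starRingEnd ℂ) (Cx.zp δ b t)) - ∫ t in U, pq δ a L t * (starRingEnd ℂ) (pq δ b L t)‖ ≤
      (2 + 2 * C) * (√s * (T * D)) := by
    rw [← integral_sub ((hintc _ cP).mono_set hUT) ((hintc _ cQ).mono_set hUT)]
    refine (norm_integral_le_integral_norm _).trans ?_
    have h1 : ∫ t in U, ‖Cx.zp δ a t * (starRingEnd ℂ) (Cx.zp δ b t) - pq δ a L t * (starRingEnd ℂ) (pq δ b L t)‖ ≤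
        ∫ t in U, (1 / √s * (‖Cx.zp δ a t - pq δ a L t‖ ^ 2 + ‖Cx.zp δ b t - pq δ b L t‖ ^ 2) +
          1 / (1 / √s) * (‖pq δ a L t‖ ^ 2 + ‖pq δ b L t‖ ^ 2)) :=
      setIntegral_mono_on ((hint _ (cP.sub cQ).norm).mono_set hUT) ((hint _ (q12.add q34)).mono_set hUT) hUm
        fun t _ => two_prod hl
    rw [integral_add ((hint _ q12).mono_set hUT) ((hint _ q34).mono_set hUT), integral_const_mul, integral_const_mul,
      integral_add ((hint _ q1).mono_set hUT) ((hint _ q2).mono_set hUT),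
      integral_add ((hint _ q3).mono_set hUT) ((hint _ q4).mono_set hUT)] at h1
    refine h1.trans ?_
    have m1 := mA a
    have m2 := mA b
    have h2 : 1 / √s * ((∫ t in U, ‖Cx.zp δ a t - pq δ a L t‖ ^ 2) + ∫ t in U, ‖Cx.zp δ b t - pq δ b L t‖ ^ 2) ≤
        1 / √s * (2 * (s * (T * D))) := mul_le_mul_of_nonneg_left (by linarith) (by positivity)
    have h3 : 1 / (1 / √s) * ((∫ t in U, ‖pq δ a L t‖ ^ 2) + ∫ t in U, ‖pq δ b L t‖ ^ 2) ≤
        √s * (2 * (C * (T * D))) := by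
      rw [one_div_one_div]
      exact mul_le_mul_of_nonneg_left (by linarith) hsq.le
    have e3 : 1 / √s * (2 * (s * (T * D))) = 2 * (√s * (T * D)) := by
      rw [one_div, inv_mul_eq_div, div_eq_iff hsq.ne']
      calc 2 * (s * (T * D)) = 2 * ((√s * √s) * (T * D)) := by rw [hss]
        _ = _ := by ring
    rw [e3] at h2
    linarith
  -- the complement
  have I2 : ‖(∫ t in U, pq δ a L t * (starRingEnd ℂ) (pq δ b L t)) -
      ∫ t in (0:ℝ)..T, pq δ a L t * (starRingEnd ℂ) (pq δ b L t)‖ ≤ √s * (T * D) := by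
    rw [intervalIntegral.integral_of_le hT0.le, ← integral_Icc_eq_integral_Ioc]
    have h1 := setIntegral_sdiff (μ := volume) hUm (hintc _ cQ) hUT
    have e3 : (∫ t in U, pq δ a L t * (starRingEnd ℂ) (pq δ b L t)) -
      ∫ t in Set.Icc 0 T, pq δ a L t * (starRingEnd ℂ) (pq δ b L t) =
        -∫ t in Set.Icc 0 T \ U, pq δ a L t * (starRingEnd ℂ) (pq δ b L t) := by rw [h1]; ring
    rw [e3, norm_neg]
    refine (norm_integral_le_integral_norm _).trans ?_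
    have c34 : Continuous fun t : ℝ => 1 / 2 * (‖pq δ a L t‖ ^ 2 + ‖pq δ b L t‖ ^ 2) := (q3.add q4).const_mul _
    have hm : MeasurableSet (Set.Icc 0 T \ U) := measurableSet_Icc.diff hUm
    have h2 : ∫ t in Set.Icc 0 T \ U, ‖pq δ a L t * (starRingEnd ℂ) (pq δ b L t)‖ ≤
        ∫ t in Set.Icc 0 T \ U, 1 / 2 * (‖pq δ a L t‖ ^ 2 + ‖pq δ b L t‖ ^ 2) := by
      refine setIntegral_mono_on ((hint _ cQ.norm).mono_set Set.sdiff_subset) ((hint _ c34).mono_set Set.sdiff_subset) hm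
        fun t _ => ?_
      rw [norm_mul, RCLike.norm_conj]
      nlinarith [sq_nonneg (‖pq δ a L t‖ - ‖pq δ b L t‖)]
    rw [integral_const_mul, integral_add ((hint _ q3).mono_set Set.sdiff_subset) ((hint _ q4).mono_set Set.sdiff_subset)] at h2
    refine h2.trans ?_
    have h3 : s * (T * D) ≤ √s * (T * D) := by
      refine mul_le_mul_of_nonneg_right ?_ (by positivity)
      nlinarith
    linarith
  -- the mean value
  have I3 := bil (N := (L:ℝ)) hδ.le (Da_Do (fun j => a j * δ) L) (Da_Do (fun j => b j * δ) L) (DN_Bd (k:ℝ) L) (DN_Bd (k:ℝ) L)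
    (DN_supp (k:ℝ) L) 0 T
  rw [sub_zero] at I3
  have I4 : 2 * (L:ℝ) * (l1' (DN k L) * l1' (DN k L)) ≤ 2 * (L:ℝ) ^ 4 * D := by
    have h1 := DN_l1 hk0 hδ hδ1.le L
    rw [← hD, sq] at h1
    have h2 := mul_le_mul_of_nonneg_left h1 (by positivity : (0:ℝ) ≤ 2 * L)
    refine h2.trans (le_of_eq ?_)
    ring
  have I5 := I3.trans I4
  have e4 : (∫ t in U, Cx.zp δ a t * (starRingEnd ℂ) (Cx.zp δ b t)) - ((T:ℝ):ℂ) * dg δ (Icc 1 L) (Da (fun j => a j * δ) L)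
        (Da (fun j => b j * δ) L) =
      ((∫ t in U, Cx.zp δ a t * (starRingEnd ℂ) (Cx.zp δ b t)) - ∫ t in U, pq δ a L t * (starRingEnd ℂ) (pq δ b L t)) +
      ((∫ t in U, pq δ a L t * (starRingEnd ℂ) (pq δ b L t)) - ∫ t in (0:ℝ)..T, pq δ a L t * (starRingEnd ℂ) (pq δ b L t)) +
      ((∫ t in (0:ℝ)..T, pq δ a L t * (starRingEnd ℂ) (pq δ b L t)) - ((T:ℝ):ℂ) * dg δ (Icc 1 L) (Da (fun j => a j * δ) L)
        (Da (fun j => b j * δ) L)) := by ring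
  rw [e4]
  refine (norm_add_le _ _).trans ((add_le_add ((norm_add_le _ _).trans (add_le_add I1 I2)) I5).trans (le_of_eq ?_))
  ring

/-- the tail of the diagonal -/
lemma tail_dg {k : ℕ} (hk : 1 ≤ k) {δ : ℝ} (hδ : 0 < δ) {L : ℕ} (hL : 1 ≤ L) (a b : Fin k → ℝ) :
    ‖dg δ (Icc 1 L) (Da (fun j => a j * δ) L) (Da (fun j => b j * δ) L) -
      ∑' n : ℕ, ds δ a n * (starRingEnd ℂ) (ds δ b n) * (((n:ℝ) ^ (-(1 + 2 * δ)) : ℝ) : ℂ)‖ ≤
      (L:ℝ) ^ (-δ) * DD k (δ / 2) := by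
  have hk0 : (0:ℝ) < k := by exact_mod_cast hk
  obtain ⟨f, hf⟩ : ∃ f : ℕ → ℂ, ∀ n, f n = ds δ a n * (starRingEnd ℂ) (ds δ b n) * (((n:ℝ) ^ (-(1 + 2 * δ)) : ℝ) : ℂ) := ⟨_, fun _ => rfl⟩
  simp_rw [← hf]
  have hds : ∀ x : Fin k → ℝ, ds δ x = dh (fun j => x j * δ) := fun _ => rfl
  have hfn : ∀ n, n ≠ 0 → ‖f n‖ ≤ dv k n ^ 2 * (n:ℝ) ^ (-(1 + 2 * δ)) := by
    intro n hn
    rw [hf, norm_mul, norm_mul, RCLike.norm_conj, Complex.norm_real, Real.norm_eq_abs,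
      abs_of_nonneg (Real.rpow_nonneg (Nat.cast_nonneg n) _), sq, hds, hds]
    have h1 := dh_le (fun j => a j * δ) hn
    have h2 := dh_le (fun j => b j * δ) hn
    have h3 := dv_nonneg hk0.le n
    gcongr
  have hf0 : f 0 = 0 := by
    rw [hf]; simp
  have hw : ∀ n : ℕ, n ≠ 0 → wδ δ n = (n:ℝ) ^ (-(1 + 2 * δ)) := by
    intro n hn
    have n0 : (0:ℝ) < n := by exact_mod_cast Nat.pos_of_ne_zero hn
    unfold wδ
    rw [one_div, ← Real.rpow_neg_one (n:ℝ), ← Real.rpow_add n0]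
    congr 1; ring
  have hg : ∀ n, ‖f n‖ ≤ g2 k δ n := by
    intro n
    rcases eq_or_ne n 0 with h | h
    · subst h; rw [hf0, norm_zero]; exact g2_nonneg _ _ _
    · unfold g2; rw [hw n h]; exact hfn n h
  have hsum : Summable f := Summable.of_norm_bounded (g2_summable hk0 hδ) hg
  have hdg : dg δ (Icc 1 L) (Da (fun j => a j * δ) L) (Da (fun j => b j * δ) L) = ∑ n ∈ Icc 1 L, f n := by
    unfold dg
    refine sum_congr rfl fun n hn => ?_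
    have hn0 : n ≠ 0 := by have := (mem_Icc.mp hn).1; omega
    rw [Da_coeff, Da_coeff, if_pos hn, if_pos hn, hf, hds, hds, hw n hn0]
  have h0 := hsum.sum_add_tsum_compl (s := Icc 1 L)
  obtain ⟨S, hS⟩ : ∃ S : Set ℕ, S = (((Icc 1 L : Finset ℕ) : Set ℕ)ᶜ : Set ℕ) := ⟨_, rfl⟩
  rw [← hS] at h0
  have e1 : ∑ n ∈ Icc 1 L, f n - (∑ n ∈ Icc 1 L, f n + ∑' n : S, f n) = -∑' n : S, f n := by ring
  rw [hdg, ← h0, e1, norm_neg]
  have hL0 : (0:ℝ) < L := by exact_mod_cast hL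
  have h1 : ∀ n : S, ‖f n‖ ≤ (L:ℝ) ^ (-δ) * g2 k (δ / 2) n := by
    rintro ⟨n, hn⟩
    rw [hS] at hn
    simp only
    rcases eq_or_ne n 0 with h | h
    · subst h; rw [hf0, norm_zero]
      exact mul_nonneg (by positivity) (g2_nonneg _ _ _)
    · have hn1 : L ≤ n := by
        simp only [coe_Icc, Set.mem_compl_iff, Set.mem_Icc, not_and, not_le] at hn
        exact (hn (Nat.pos_of_ne_zero h)).le
      have n0 : (0:ℝ) < n := by exact_mod_cast Nat.pos_of_ne_zero h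
      refine (hfn n h).trans ?_
      have e2 : (n:ℝ) ^ (-(1 + 2 * δ)) = (n:ℝ) ^ (-δ) * wδ (δ / 2) n := by
        unfold wδ
        rw [one_div, ← Real.rpow_neg_one (n:ℝ), ← Real.rpow_add n0, ← Real.rpow_add n0]
        congr 1; ring
      rw [e2]
      have h5 : (n:ℝ) ^ (-δ) ≤ (L:ℝ) ^ (-δ) := Real.rpow_le_rpow_of_nonpos hL0 (by exact_mod_cast hn1) (by linarith)
      have h6 := g2_nonneg (k:ℝ) (δ / 2) n
      unfold g2 at h6 ⊢
      calc dv k n ^ 2 * ((n:ℝ) ^ (-δ) * wδ (δ / 2) n) = (n:ℝ) ^ (-δ) * (dv k n ^ 2 * wδ (δ / 2) n) := by ring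
        _ ≤ _ := mul_le_mul_of_nonneg_right h5 h6
  have hg2 := g2_summable hk0 (show 0 < δ / 2 by positivity)
  have h2 : Summable fun n : S => (L:ℝ) ^ (-δ) * g2 k (δ / 2) n :=
    (hg2.subtype _).mul_left _
  refine (tsum_of_norm_bounded h2.hasSum h1).trans ?_
  rw [tsum_mul_left]
  refine mul_le_mul_of_nonneg_left ?_ (by positivity)
  unfold DD
  exact hg2.tsum_subtype_le _ _ (fun n => g2_nonneg _ _ n)

end Pool.Agent.Y753.SH
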