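import Pool.Agent.Y753.NL.Pw6

set_option autoImplicit false

/-! Statements for the shifted moments near the line (project SH). -/

namespace Pool.Agent.Y753.SH

open Finset Filter MeasureTheory MonoidAlgebra Topology
open Pool.Agent.Y755
open Pool.Agent.W184.NZ
open Pool.Agent.Y753.NL

/-- the twisted zeta function `n ↦ n^{-ih}` -/
noncomputable def tz (h : ℝ) : ArithmeticFunction ℂ := ⟨fun n => if n = 0 then 0 else (n:ℂ) ^ (-((h:ℂ) * Complex.I)), by simp⟩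

/-- the coefficients of `∏_j ζ(s + i x a_j)` -/
noncomputable def ds {k : ℕ} (x : ℝ) (a : Fin k → ℝ) : ArithmeticFunction ℂ := ∏ j, tz (a j * x)

/-- job SH-DIAG: the diagonal -/
def S_DIAG : Prop := ∀ (k : ℕ) (_ : 1 ≤ k) (a b : Fin k → ℝ),
  Tendsto (fun x : ℝ => (((2 * x) ^ (k ^ 2) : ℝ) : ℂ) * ∑' n : ℕ, ds x a n * (starRingEnd ℂ) (ds x b n) *
    (((n:ℝ) ^ (-(1 + 2 * x)) : ℝ) : ℂ)) (𝓝[>] 0)
    (𝓝 ((Pool.Agent.H306R2.aF k : ℂ) * ∏ j, ∏ l, (1 + Complex.I * ((a j - b l : ℝ) : ℂ) / 2)⁻¹))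

/-- weighted sums of primes -/
noncomputable def yb (b : ℕ → ℝ) (I : Finset ℕ) : P1 := ∑ p ∈ I, single p (b p)

/-- job SH-STAR: the change of weight -/
def S_STAR : Prop := ∀ (k : ℕ) (H : ℝ), 1 ≤ k → 0 ≤ H → ∃ C : ℝ, 0 < C ∧
  ∀ (M z Rs : ℕ) (ε e1 c η d x0 : ℝ), Pk M z Rs ε e1 c η d x0 → k ≤ M → ∀ (y δ : ℝ) (J N K K0 : ℕ),
    Sy c z y J Rs N K → 0 < δ → δ ≤ 1 / 16 → x0 ≤ δ * Real.log y →
    ip δ (Az k K0 z * ∏ i ∈ range J, (NK (20 * (M * RR Rs i)) k (x1 (IZ z y i)) *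
        NK (20 * (M * RR Rs i)) (4 * k) (yb (fun p => min 1 (H * (δ * Real.log p))) (IZ z y i))))
      (Az k K0 z * ∏ i ∈ range J, (NK (20 * (M * RR Rs i)) k (x1 (IZ z y i)) *
        NK (20 * (M * RR Rs i)) (4 * k) (yb (fun p => min 1 (H * (δ * Real.log p))) (IZ z y i)))) ≤ C * DD k δ

end Pool.Agent.Y753.SH
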