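import Pool.Agent.Y753.SH.Stm

set_option autoImplicit false

/-! Statements for the shifted moments with real exponents (project SHR). -/

namespace Pool.Agent.Y753.SH

open Finset Filter MeasureTheory MonoidAlgebra Topology
open Pool.Agent.Y755
open Pool.Agent.W184.NZ
open Pool.Agent.Y753.NL
open Pool.Agent.H306R2 (dv aF)

/-- the coefficients of `ζ(s + ih)^κ` -/
noncomputable def tk (κ h : ℝ) : ArithmeticFunction ℂ := ⟨fun n => (dv κ n : ℂ) * tz h n, by simp⟩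

/-- the coefficients of `∏_j ζ(s + i x a_j)^{κ_j}` -/
noncomputable def dk {k : ℕ} (x : ℝ) (κ a : Fin k → ℝ) : ArithmeticFunction ℂ := ∏ j, tk (κ j) (a j * x)

/-- job SHR-DIAG: the diagonal, real exponents -/
def S_DIAGR : Prop := ∀ (k l : ℕ) (κ a : Fin k → ℝ) (ρ b : Fin l → ℝ) (s : ℝ), 0 < s → (∀ j, 0 ≤ κ j) → (∀ i, 0 ≤ ρ i) →
  ∑ j, κ j = s → ∑ i, ρ i = s →
  Tendsto (fun x : ℝ => (((2 * x) ^ (s ^ 2) : ℝ) : ℂ) * ∑' n : ℕ, dk x κ a n * (starRingEnd ℂ) (dk x ρ b n) *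
    (((n:ℝ) ^ (-(1 + 2 * x)) : ℝ) : ℂ)) (𝓝[>] 0)
    (𝓝 ((aF s : ℂ) * ∏ j, ∏ i, (1 + Complex.I * ((a j - b i : ℝ) : ℂ) / 2) ^ (-((κ j * ρ i : ℝ) : ℂ))))

/-- job SHR-STAR: the change of weight, real exponents -/
def S_STARR : Prop := ∀ (s H : ℝ), 0 < s → 0 ≤ H → ∃ C : ℝ, 0 < C ∧
  ∀ (M z Rs : ℕ) (ε e1 c η d x0 : ℝ), Pk M z Rs ε e1 c η d x0 → s ≤ M → ∀ (y δ : ℝ) (J N K K0 : ℕ),
    Sy c z y J Rs N K → 0 < δ → δ ≤ 1 / 16 → x0 ≤ δ * Real.log y →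
    ip δ (Az s K0 z * ∏ i ∈ range J, (NK (20 * (M * RR Rs i)) s (x1 (IZ z y i)) *
        NK (20 * (M * RR Rs i)) (4 * s) (yb (fun p => min 1 (H * (δ * Real.log p))) (IZ z y i))))
      (Az s K0 z * ∏ i ∈ range J, (NK (20 * (M * RR Rs i)) s (x1 (IZ z y i)) *
        NK (20 * (M * RR Rs i)) (4 * s) (yb (fun p => min 1 (H * (δ * Real.log p))) (IZ z y i)))) ≤ C * DD s δ

end Pool.Agent.Y753.SH
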